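import Pool.Agent.U481.VL.ChainT
import Pool.Agent.U481.NS.GdL
import Pool.Agent.Q16.CL.SegAn

/-!
The angles between the vorticities near a singular point.
-/

set_option autoImplicit false

open MeasureTheory Set Metric Filter Topology
open scoped ContDiff
open H459R3.NS Pool.Agent.W268.NS Pool.Agent.Q67.VD
open Pool.Agent.Q199.VD

namespace Pool.Agent.U481.VL

open Pool.Agent.Q85.CC Pool.Agent.Q85.CL Pool.Agent.Q85.VL

/-- Along an analytic curve of vectors the angle with a fixed axis takes all the intermediate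
values. -/
theorem angE (g : ℝ → V) (e : V) (c δ : ℝ) (hg : ∀ s ∈ Icc (0 : ℝ) 1, AnalyticAt ℝ g s)
    (he : e ≠ 0) (h0 : g 0 ≠ 0) (h1 : g 1 ≠ 0) (hδ : 0 < δ)
    (hge : c * (len e * len (g 0)) ≤ |e ⬝ᵥ g 0|) (hle : |e ⬝ᵥ g 1| ≤ c * (len e * len (g 1))) :
    ∃ s ∈ Icc (0 : ℝ) 1, g s ≠ 0 ∧
      |(|e ⬝ᵥ g s| - c * (len e * len (g s)))| < δ * (len e * len (g s)) := by
  have hgO : AnalyticOnNhd ℝ g (Icc (0 : ℝ) 1) := hg
  have hne : ∀ s ∈ Icc (0 : ℝ) 1, ¬ ∀ᶠ z in 𝓝 s, g z = 0 := by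
    intro s hs hz
    exact h0 (hgO.eqOn_zero_of_preconnected_of_eventuallyEq_zero isPreconnected_Icc hs hz
      ⟨le_rfl, zero_le_one⟩)
  have hkey : ∀ s ∈ Icc (0 : ℝ) 1, ∃ l : ℝ, Tendsto (fun s' => QA e (g s')) (𝓝[≠] s) (𝓝 l) ∧
      (g s ≠ 0 → l = QA e (g s)) ∧ ∀ᶠ s' in 𝓝[≠] s, g s' ≠ 0 := by
    intro s hs
    obtain ⟨n, w, hw, hws, hgw⟩ := (hg s hs).exists_eventuallyEq_pow_smul_nonzero_iff.2 (hne s hs)
    have hw0 : ∀ᶠ z in 𝓝 s, w z ≠ 0 := hw.continuousAt.eventually_ne hws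
    have e1 : ∀ᶠ z in 𝓝[≠] s, g z = (z - s) ^ n • w z := hgw.filter_mono nhdsWithin_le_nhds
    have e2 : ∀ᶠ z in 𝓝[≠] s, w z ≠ 0 := hw0.filter_mono nhdsWithin_le_nhds
    have e3 : ∀ᶠ z in 𝓝[≠] s, z ≠ s := eventually_mem_nhdsWithin
    refine ⟨QA e (w s), ?_, ?_, ?_⟩
    · have ht : Tendsto (fun z => QA e (w z)) (𝓝[≠] s) (𝓝 (QA e (w s))) :=
        ((QA_cont e he hws).comp (f := w) hw.continuousAt).tendsto.mono_left
          nhdsWithin_le_nhds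
      refine ht.congr' ?_
      filter_upwards [e1, e3] with z hz hzs
      rw [hz, QA_smul _ (pow_ne_zero _ (sub_ne_zero.2 hzs))]
    · intro hgs
      have h2 := hgw.self_of_nhds
      rw [sub_self] at h2
      have hn : n = 0 := by
        by_contra hn
        rw [zero_pow hn, zero_smul] at h2
        exact hgs h2
      rw [h2, hn, pow_zero, one_smul]
    · filter_upwards [e1, e2, e3] with z hz hwz hzs
      rw [hz]
      exact smul_ne_zero (pow_ne_zero _ (sub_ne_zero.2 hzs)) hwz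
  choose! l hl using hkey
  have hcont : ContinuousOn l (Icc (0 : ℝ) 1) := by
    intro s hs
    rw [← continuousWithinAt_sdiff_self]
    obtain ⟨ht, -, hn⟩ := hl s hs
    have hle' : 𝓝[Icc (0 : ℝ) 1 \ {s}] s ≤ 𝓝[≠] s := nhdsWithin_mono _ fun z hz => hz.2
    refine (ht.mono_left hle').congr' ?_
    filter_upwards [hn.filter_mono hle', eventually_mem_nhdsWithin] with z hz hzm
    exact ((hl z hzm.1).2.1 hz).symm
  have hl0 : c ≤ l 0 := by
    rw [(hl 0 ⟨le_rfl, zero_le_one⟩).2.1 h0]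
    unfold QA
    rw [le_div_iff₀ (mul_pos (len_posI he) (len_posI h0))]
    exact hge
  have hl1 : l 1 ≤ c := by
    rw [(hl 1 ⟨zero_le_one, le_rfl⟩).2.1 h1]
    unfold QA
    rw [div_le_iff₀ (mul_pos (len_posI he) (len_posI h1))]
    exact hle
  obtain ⟨s, hs, hls⟩ := intermediate_value_Icc' (zero_le_one) hcont
    (show c ∈ Icc (l 1) (l 0) from ⟨hl1, hl0⟩)
  obtain ⟨ht, -, hn⟩ := hl s hs
  rw [hls] at ht
  have hev : ∀ᶠ z in 𝓝[≠] s, |QA e (g z) - c| < δ ∧ g z ≠ 0 :=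
    ((tendsto_order.1 ((continuous_abs.tendsto _).comp (ht.sub_const c))).2 δ (by simpa using hδ)).and
      hn
  have hex : ∃ z ∈ Icc (0 : ℝ) 1, |QA e (g z) - c| < δ ∧ g z ≠ 0 := by
    rcases eq_or_lt_of_le hs.2 with h | h
    · have h2 : 𝓝[<] s ≤ 𝓝[≠] s := nhdsWithin_mono _ fun z (hz : z < s) => hz.ne
      have h3 : ∀ᶠ z in 𝓝[<] s, z ∈ Ioo 0 s := Ioo_mem_nhdsLT (by rw [h]; exact one_pos)
      obtain ⟨z, hz1, hz2⟩ := ((hev.filter_mono h2).and h3).exists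
      exact ⟨z, ⟨hz2.1.le, hz2.2.le.trans hs.2⟩, hz1⟩
    · have h2 : 𝓝[>] s ≤ 𝓝[≠] s := nhdsWithin_mono _ fun z (hz : s < z) => hz.ne'
      have h3 : ∀ᶠ z in 𝓝[>] s, z ∈ Ioo s 1 := Ioo_mem_nhdsGT h
      obtain ⟨z, hz1, hz2⟩ := ((hev.filter_mono h2).and h3).exists
      exact ⟨z, ⟨hs.1.trans hz2.1.le, hz2.2.le⟩, hz1⟩
  obtain ⟨z, hz, hzq, hz0⟩ := hex
  refine ⟨z, hz, hz0, ?_⟩
  have hp : 0 < len e * len (g z) := mul_pos (len_posI he) (len_posI hz0)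
  have e2 : |e ⬝ᵥ g z| - c * (len e * len (g z)) = (QA e (g z) - c) * (len e * len (g z)) := by
    unfold QA
    rw [sub_mul, div_mul_cancel₀ _ hp.ne']
  rw [e2, abs_mul, abs_of_pos hp]
  exact mul_lt_mul_of_pos_right hzq hp

/-- Near a singular point, at one time, the axes of the vorticities meet all the great circles up
to `ε`, and for every axis all the intermediate angles occur up to `ε`. -/
theorem angK {ν T E : ℝ} {Ω : Set V} {u : ℝ → V → V} {p : ℝ → V → ℝ} (hν : 0 < ν)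
    (h : DSl ν T E Ω u p) {a : V} (hs : Sing T u a) {T₀ ε R : ℝ} {m : ℝ → V → ℝ}
    (hT0 : 0 ≤ T₀) (hT₀ : T₀ < T) (hε : 0 < ε) (hR : 0 < R) (hΩ : closedBall a R ⊆ Ω)
    (hmc : ∀ t ∈ Ioo T₀ T, Continuous (m t)) (hm0 : ∀ t ∈ Ioo T₀ T, ∀ y, 0 ≤ m t y)
    (hK : Kato T₀ T a R m) :
    ∃ t ∈ Ioo T₀ T, (∃ x, ‖x - a‖ ≤ R ∧ m t x < om (u t) x) ∧
      ∀ (e x : V) (c : ℝ), e ⬝ᵥ e = 1 → ‖x - a‖ ≤ R → 0 < om (u t) x → 0 ≤ c →
        c * om (u t) x ≤ |e ⬝ᵥ vort (u t) x| →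
        ∃ y, ‖y - a‖ ≤ R ∧ 0 < om (u t) y ∧
          |(|e ⬝ᵥ vort (u t) y| - c * om (u t) y)| < ε * om (u t) y := by
  have hT := hs.pos
  have hcon : ∃ t ∈ Ioo T₀ T, (∃ x, ‖x - a‖ ≤ R ∧ m t x < om (u t) x) ∧
      ∀ e : V, e ⬝ᵥ e = 1 → ∃ y, ‖y - a‖ ≤ R ∧ |e ⬝ᵥ vort (u t) y| < ε * om (u t) y := by
    by_contra hcon
    push Not at hcon
    refine hs.not_bdd (dbl_K lyapT Pool.Agent.Q284.CL.dom hν hT h hT0 hT₀ hε hR hΩ hmc hm0 hK
      fun t ht hex => hcon t ht hex)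
  obtain ⟨t, ht, hex, hall⟩ := hcon
  refine ⟨t, ht, hex, fun e x c he hx hx0 hc hcx => ?_⟩
  obtain ⟨y, hy, hye⟩ := hall e he
  have hy0 : 0 < om (u t) y := by
    by_contra h0
    have h1 : om (u t) y = 0 := le_antisymm (not_lt.1 h0) (om_nnL _ _)
    rw [h1, mul_zero] at hye
    exact absurd hye (not_lt.2 (abs_nonneg _))
  rcases lt_or_ge c ε with hcε | hcε
  · refine ⟨y, hy, hy0, ?_⟩
    have h2 : c * om (u t) y < ε * om (u t) y := mul_lt_mul_of_pos_right hcε hy0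
    have h3 : 0 ≤ c * om (u t) y := mul_nonneg hc hy0.le
    have h4 := abs_nonneg (e ⬝ᵥ vort (u t) y)
    rw [abs_lt]
    constructor <;> linarith
  -- the scaled solution in a larger cube
  obtain ⟨r, hr, hrΩ⟩ := (isCompact_closedBall a R).exists_cthickening_subset_open h.openO hΩ
  rw [cthickening_closedBall hr.le hR.le] at hrΩ
  have hR₁ : 0 < r + R := by positivity
  obtain ⟨E', v, q, hL, hv⟩ := Pool.Agent.Q284.CL.dom ν T E Ω u p hν hT h a (r + R) hR₁ hrΩ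
  have htI : t ∈ Ioo 0 T := ⟨hT0.trans_lt ht.1, ht.2⟩
  have hνt : ν * t ∈ Ioo 0 (ν * T) := ⟨mul_pos hν htI.1, mul_lt_mul_of_pos_left ht.2 hν⟩
  have hmem : ∀ z, ‖z - a‖ ≤ R → z ∈ ball a (r + R) := by
    intro z hz
    rw [Metric.mem_ball, dist_eq_norm]
    linarith
  have hev : ∀ z, ‖z - a‖ ≤ R → ∀ᶠ w in 𝓝 z, v (ν * t) w = ν⁻¹ • u t w := by
    intro z hz
    exact ball_ev (a := a) (R := r + R) (fun w hw => hv t htI w hw) (hmem z hz)
  have hsm : SM (v (ν * t)) := slice_u hL.toLEq hνt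
  have hνi : 0 < ν⁻¹ := inv_pos.2 hν
  have han := Pool.Agent.Q16.CL.segAn (v (ν * t)) x y hsm (fun s hs =>
    Pool.Agent.U481.NS.gdL (ν * T) E' _ v q (by positivity) hL
      (ν * t) hνt _ (hmem _ (seg_ball hx hy hs)))
  obtain ⟨g, hg⟩ : ∃ g : ℝ → V, g = fun s => vort (v (ν * t)) (x + s • (y - x)) := ⟨_, rfl⟩
  rw [← hg] at han
  have hgs : ∀ s ∈ Icc (0 : ℝ) 1, g s = ν⁻¹ • vort (u t) (x + s • (y - x)) := by
    intro s hs
    rw [hg]
    exact vort_evD (hev _ (seg_ball hx hy hs))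
  have hg0 : g 0 = ν⁻¹ • vort (u t) x := by
    rw [hgs 0 ⟨le_rfl, zero_le_one⟩, zero_smul, add_zero]
  have hg1 : g 1 = ν⁻¹ • vort (u t) y := by
    rw [hgs 1 ⟨zero_le_one, le_rfl⟩, one_smul, add_sub_cancel]
  have hne : ∀ z, 0 < om (u t) z → vort (u t) z ≠ 0 := by
    intro z hz h0
    have : om (u t) z = 0 := by
      unfold om len
      rw [h0]
      simp
    linarith
  have hlen : ∀ z, len (ν⁻¹ • vort (u t) z) = ν⁻¹ * om (u t) z := by
    intro z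
    rw [len_smulI, abs_of_pos hνi]
    rfl
  have hle1 : len e = 1 := by
    unfold len
    rw [he, Real.sqrt_one]
  have he0 : e ≠ 0 := by
    rintro rfl
    simp at he
  obtain ⟨s, hs', hgs0, hsd⟩ := angE g e c ε han he0
    (by rw [hg0]; exact smul_ne_zero hνi.ne' (hne x hx0))
    (by rw [hg1]; exact smul_ne_zero hνi.ne' (hne y hy0)) hε
    (by
      rw [hg0, hlen, hle1, one_mul, dotProduct_smul, smul_eq_mul, abs_mul, abs_of_pos hνi]
      calc c * (ν⁻¹ * om (u t) x) = ν⁻¹ * (c * om (u t) x) := by ring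
        _ ≤ _ := mul_le_mul_of_nonneg_left hcx hνi.le)
    (by
      rw [hg1, hlen, hle1, one_mul, dotProduct_smul, smul_eq_mul, abs_mul, abs_of_pos hνi]
      have h2 : |e ⬝ᵥ vort (u t) y| ≤ c * om (u t) y :=
        hye.le.trans (mul_le_mul_of_nonneg_right hcε hy0.le)
      calc ν⁻¹ * |e ⬝ᵥ vort (u t) y| ≤ ν⁻¹ * (c * om (u t) y) :=
            mul_le_mul_of_nonneg_left h2 hνi.le
        _ = _ := by ring)
  have hzR := seg_ball hx hy hs'
  obtain ⟨z, hz⟩ : ∃ z, z = x + s • (y - x) := ⟨_, rfl⟩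
  have hgz : g s = ν⁻¹ • vort (u t) z := by rw [hgs s hs', hz]
  rw [← hz] at hzR
  have hz0 : 0 < om (u t) z := by
    refine lt_of_le_of_ne (om_nnL _ _) fun h0 => hgs0 ?_
    have h1 : len (g s) = 0 := by rw [hgz, hlen, ← h0, mul_zero]
    by_contra hne
    exact (len_posI hne).ne' h1
  refine ⟨z, hzR, hz0, ?_⟩
  rw [hgz, hlen, hle1, one_mul, dotProduct_smul, smul_eq_mul, abs_mul, abs_of_pos hνi] at hsd
  have e1 : ν⁻¹ * |e ⬝ᵥ vort (u t) z| - c * (ν⁻¹ * om (u t) z)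
      = ν⁻¹ * (|e ⬝ᵥ vort (u t) z| - c * om (u t) z) := by ring
  rw [e1, abs_mul, abs_of_pos hνi] at hsd
  have e2 : ε * (ν⁻¹ * om (u t) z) = ν⁻¹ * (ε * om (u t) z) := by ring
  rw [e2] at hsd
  exact lt_of_mul_lt_mul_left hsd hνi.le

end Pool.Agent.U481.VL
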