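import Pool.Agent.U481.VL.ChainT

/-!
The local theorem in an open set, all viscosities.
-/

set_option autoImplicit false

open MeasureTheory Set Metric Filter Topology
open scoped ContDiff
open H459R3.NS Pool.Agent.W268.NS Pool.Agent.Q67.VD
open Pool.Agent.Q199.VD

namespace Pool.Agent.U481.VL

open Pool.Agent.Q85.CC Pool.Agent.Q85.CL Pool.Agent.Q85.VL Pool.Agent.Q151.CC

/-- A field `W` without divergence, `|W| ≤ |ω|`, and a function `g` with Lipschitz constant one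
which increases along `W` with a rate comparable to `|ω|`, up to a remainder in the Kato class:
no singularity. -/
theorem lyapD {ν T E : ℝ} {Ω : Set V} {u : ℝ → V → V} {p : ℝ → V → ℝ} (hν : 0 < ν) (hT : 0 < T)
    (h : DSl ν T E Ω u p) {T₀ κ R : ℝ} {a : V} {m : ℝ → V → ℝ} (hT0 : 0 ≤ T₀) (hT₀ : T₀ < T)
    (hκ : 0 < κ) (hR : 0 < R) (hΩ : closedBall a R ⊆ Ω)
    (hmc : ∀ t ∈ Ioo T₀ T, Continuous (m t)) (hm0 : ∀ t ∈ Ioo T₀ T, ∀ y, 0 ≤ m t y)
    (hK : Kato T₀ T a R m)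
    (hc : ∀ t ∈ Ioo T₀ T, ∃ (W : V → V) (g : V → ℝ), Continuous W ∧
      (∀ F : V → ℝ, ContDiff ℝ 1 F → tsupport F ⊆ closedBall a R →
        ∫ y in closedBall a R, fderiv ℝ F y (W y) = 0) ∧
      (∀ y, ‖y - a‖ ≤ R → len (W y) ≤ om (u t) y) ∧ ContDiff ℝ 1 g ∧
      (∀ y z, |g y - g z| ≤ len (y - z)) ∧
      ∀ y, ‖y - a‖ ≤ R → κ * om (u t) y ≤ fderiv ℝ g y (W y) + m t y) :
    ∃ B δ : ℝ, 0 < δ ∧ ∀ t ∈ Ioo 0 T, T - δ < t → ∀ x, ‖x - a‖ ≤ δ → ‖u t x‖ ≤ B := by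
  have hνi : 0 < ν⁻¹ := inv_pos.2 hν
  refine lyap_K lyapT Pool.Agent.Q284.CL.dom hν hT h (κ := κ) hT0 hT₀ hκ hR hΩ hmc hm0 hK
    fun t ht v hv hvt hom => ?_
  obtain ⟨W, g, hWc, hWd, hWu, hgs, hgl, hlo⟩ := hc t ht
  have hWD : WD R a W := ⟨hWc, hWd⟩
  have hWD2 : WD (R / 2) a W := wd_mono hWD (by rw [sub_self, norm_zero]; linarith)
  refine ⟨fun y => ν⁻¹ • W y, g, ⟨?_, om_contL hv, ?_, fun y => ?_, fun y hy => ?_, hgs, hgl,
    fun y hy => ?_⟩⟩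
  · have hc1 : Continuous fun y => ν⁻¹ • W y := by fun_prop
    refine ⟨hc1, fun F hF hts => ?_⟩
    have h1 := hWD2.div F hF hts
    have e : ∀ y, fderiv ℝ F y (ν⁻¹ • W y) = ν⁻¹ * fderiv ℝ F y (W y) := by
      intro y
      rw [map_smul, smul_eq_mul]
    simp only [e]
    rw [integral_const_mul, h1, mul_zero]
  · exact continuous_const.mul ((continuous_const.mul (hmc t ht)).add continuous_const)
  · have := mul_nonneg hνi.le (hm0 t ht y)
    show 0 ≤ 2 * (ν⁻¹ * m t y + 1)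
    linarith
  · rw [mem_closedBall, dist_eq_norm] at hy
    show len (ν⁻¹ • W y) ≤ om v y
    rw [hom y hy, len_smulI, abs_of_pos hνi]
    exact mul_le_mul_of_nonneg_left (hWu y (by linarith)) hνi.le
  · rw [mem_closedBall, dist_eq_norm] at hy
    show κ * om v y ≤ fderiv ℝ g y (ν⁻¹ • W y) + 2 * (ν⁻¹ * m t y + 1)
    rw [hom y hy, map_smul, smul_eq_mul]
    have h1 := mul_le_mul_of_nonneg_left (hlo y (by linarith)) hνi.le
    have h2 := mul_nonneg hνi.le (hm0 t ht y)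
    have e1 : κ * (ν⁻¹ * om (u t) y) = ν⁻¹ * (κ * om (u t) y) := by ring
    have e2 : ν⁻¹ * (fderiv ℝ g y (W y) + m t y)
        = ν⁻¹ * fderiv ℝ g y (W y) + ν⁻¹ * m t y := by ring
    linarith

end Pool.Agent.U481.VL
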