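import Pool.Agent.U481.VL.ChainT
import Pool.Agent.Q85.VL.Cor

/-!
Closed chains and the angles of the tangent vectors.
-/

set_option autoImplicit false

open MeasureTheory Set Metric Filter Topology
open scoped ContDiff
open H459R3.NS Pool.Agent.W268.NS Pool.Agent.Q67.VD
open Pool.Agent.Q199.VD

namespace Pool.Agent.U481.VL

open Pool.Agent.Q85.CC Pool.Agent.Q85.CL Pool.Agent.Q85.VL Pool.Agent.Q151.CC

/-- If the vectors of the field `z` make angles smaller than the tetrahedral angle then there is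
no closed chain. -/
theorem chain_angle {z : V → V} {D : Set V} {δ ε : ℝ} (hδ : 0 < δ) (hδ1 : δ ≤ 1)
    (hε : ε ≤ δ / 2) (hz : ∀ y ∈ D, 0 < len (z y)) (h : Chained z D ε) :
    ∃ x ∈ D, ∃ y ∈ D, z x ⬝ᵥ z y < (δ - 1 / 3) * (len (z x) * len (z y)) := by
  by_contra hcon
  push Not at hcon
  have hsq : ∀ y, z y ⬝ᵥ z y = len (z y) ^ 2 := fun y => by
    unfold len
    exact (Real.sq_sqrt (dot_nn _)).symm
  obtain ⟨e, he, hea⟩ := tetra hδ hδ1 (D := {b | ∃ y ∈ D, b = (len (z y))⁻¹ • z y}) (by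
    rintro b ⟨y, hy, rfl⟩
    have h0 := hz y hy
    rw [smul_dotProduct, dotProduct_smul, hsq, smul_eq_mul, smul_eq_mul]
    field_simp) (by
    rintro b ⟨y, hy, rfl⟩ b' ⟨w, hw, rfl⟩
    have hy0 := hz y hy
    have hw0 := hz w hw
    rw [smul_dotProduct, dotProduct_smul, smul_eq_mul, smul_eq_mul]
    calc δ - 1 / 3 = (len (z y))⁻¹ * ((len (z w))⁻¹ *
          ((δ - 1 / 3) * (len (z y) * len (z w)))) := by field_simp
      _ ≤ _ := mul_le_mul_of_nonneg_left (mul_le_mul_of_nonneg_left (hcon y hy w hw)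
        (inv_nonneg.2 hw0.le)) (inv_nonneg.2 hy0.le))
  refine not_chained (g := fun y => e ⬝ᵥ y) (ε := ε) ?_ ?_ hz ?_ h
  · exact (lin_smooth e).differentiable (by norm_num)
  · exact lin_lip he
  · intro y hy
    rw [lin_deriv]
    have h0 := hz y hy
    have h1 := hea _ ⟨y, hy, rfl⟩
    rw [dotProduct_smul, smul_eq_mul] at h1
    have h2 : δ / 2 * len (z y) ≤ e ⬝ᵥ z y := by
      calc δ / 2 * len (z y) ≤ (len (z y))⁻¹ * (e ⬝ᵥ z y) * len (z y) :=
            mul_le_mul_of_nonneg_right h1 h0.le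
        _ = e ⬝ᵥ z y := by field_simp
    exact (mul_le_mul_of_nonneg_right hε h0.le).trans h2

/-- Closed chains of vortex arcs, and two vectors with a large angle. -/
theorem chainA {ν T E : ℝ} {Ω : Set V} {u : ℝ → V → V} {p : ℝ → V → ℝ}
    (hν : 0 < ν) (h : DSl ν T E Ω u p) {a : V} (ha : a ∈ Ω) (hs : Sing T u a) {T₀ ε R : ℝ}
    {m : ℝ → V → ℝ} (hT0 : 0 ≤ T₀) (hT₀ : T₀ < T) (hε : 0 < ε) (hR : 0 < R)
    (hmc : ∀ t ∈ Ioo T₀ T, Continuous (m t)) (hm0 : ∀ t ∈ Ioo T₀ T, ∀ y, 0 ≤ m t y)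
    (hK : Kato T₀ T a R m) :
    ∃ t ∈ Ioo T₀ T, ∀ θ : V → ℝ, Orient θ a R (vort (u t)) →
      Chained (fun y => θ y • vort (u t) y) {y | ‖y - a‖ ≤ R ∧ m t y < om (u t) y} ε ∧
      ∃ x y : V, ‖x - a‖ ≤ R ∧ m t x < om (u t) x ∧ ‖y - a‖ ≤ R ∧ m t y < om (u t) y ∧
        θ x * θ y * (vort (u t) x ⬝ᵥ vort (u t) y)
          < (ε - 1 / 3) * (om (u t) x * om (u t) y) := by
  obtain ⟨δ, hδd⟩ : ∃ δ, δ = min ε 1 := ⟨_, rfl⟩
  have hδ : 0 < δ := by rw [hδd]; exact lt_min hε one_pos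
  have hδ1 : δ ≤ 1 := by rw [hδd]; exact min_le_right _ _
  have hδε : δ ≤ ε := by rw [hδd]; exact min_le_left _ _
  obtain ⟨t, ht, H⟩ := chainT hν h ha hs hT0 hT₀ (half_pos hδ) hR hmc hm0 hK
  refine ⟨t, ht, fun θ hθ => ?_⟩
  have h1 := H θ hθ
  have hlen : ∀ y, len (θ y • vort (u t) y) = om (u t) y := by
    intro y
    rw [len_smulI]
    have : |θ y| = 1 := by
      rcases hθ.1 y with h | h <;> rw [h] <;> norm_num
    rw [this, one_mul]
    rfl
  refine ⟨h1.mono subset_rfl (by linarith), ?_⟩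
  obtain ⟨x, hx, y, hy, hxy⟩ := chain_angle hδ hδ1 le_rfl (fun y hy => by
    show 0 < len (θ y • vort (u t) y)
    rw [hlen]
    exact (hm0 t ht y).trans_lt hy.2) h1
  refine ⟨x, y, hx.1, hx.2, hy.1, hy.2, ?_⟩
  have hx0 := (hm0 t ht x).trans_lt hx.2
  have hy0 := (hm0 t ht y).trans_lt hy.2
  have h2 : θ x * θ y * (vort (u t) x ⬝ᵥ vort (u t) y)
      < (δ - 1 / 3) * (om (u t) x * om (u t) y) := by
    have h3 : (θ x • vort (u t) x) ⬝ᵥ (θ y • vort (u t) y)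
        = θ x * θ y * (vort (u t) x ⬝ᵥ vort (u t) y) := by
      rw [smul_dotProduct, dotProduct_smul, smul_eq_mul, smul_eq_mul, mul_assoc]
    rw [← h3]
    have h4 := hxy
    simp only [hlen] at h4
    exact h4
  exact h2.trans_le (mul_le_mul_of_nonneg_right (by linarith) (by positivity))

end Pool.Agent.U481.VL
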