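import Pool.Agent.Q85.VL.Defs

/-!
Project VL (planned by helper85): the smooth step and the smooth distance.
-/

set_option autoImplicit false

open MeasureTheory Set Metric Filter Topology
open scoped ContDiff
open H459R3.NS Pool.Agent.W268.NS Pool.Agent.Q67.VD

namespace Pool.Agent.U481.VL

open Pool.Agent.Q85.VL

/-! ### The Euclidean length -/

lemma len_e (a : V) : len a = ‖(WithLp.toLp 2 a : EuclideanSpace ℝ (Fin 3))‖ := by
  rw [EuclideanSpace.norm_eq, len]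
  congr 1
  simp only [dotProduct, Real.norm_eq_abs, sq_abs]
  exact Finset.sum_congr rfl fun i _ => (sq _).symm

lemma len_nn (a : V) : 0 ≤ len a := Real.sqrt_nonneg _

lemma len_add (a b : V) : len (a + b) ≤ len a + len b := by
  rw [len_e, len_e, len_e, WithLp.toLp_add]
  exact norm_add_le _ _

lemma len_smulU (c : ℝ) (a : V) : len (c • a) = |c| * len a := by
  rw [len_e, len_e, WithLp.toLp_smul, norm_smul, Real.norm_eq_abs]

lemma len_negU (a : V) : len (-a) = len a := by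
  rw [len_e, len_e, WithLp.toLp_neg, norm_neg]

lemma dot_expand (a b : V) : a ⬝ᵥ b = a 0 * b 0 + a 1 * b 1 + a 2 * b 2 := by
  simp [dotProduct, Fin.sum_univ_three]

lemma dot_self_nn (a : V) : 0 ≤ a ⬝ᵥ a := by
  rw [dot_expand]
  nlinarith [sq_nonneg (a 0), sq_nonneg (a 1), sq_nonneg (a 2)]

lemma dot_csU (a b : V) : (a ⬝ᵥ b) ^ 2 ≤ (a ⬝ᵥ a) * (b ⬝ᵥ b) := by
  simp only [dot_expand]
  nlinarith [sq_nonneg (a 0 * b 1 - a 1 * b 0), sq_nonneg (a 0 * b 2 - a 2 * b 0),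
    sq_nonneg (a 1 * b 2 - a 2 * b 1)]

lemma norm_le_lenU (a : V) : ‖a‖ ≤ len a := by
  rw [pi_norm_le_iff_of_nonneg (len_nn a)]
  intro i
  rw [Real.norm_eq_abs, len]
  apply Real.abs_le_sqrt
  rw [dot_expand]
  fin_cases i <;> simp <;> nlinarith [sq_nonneg (a 0), sq_nonneg (a 1), sq_nonneg (a 2)]

lemma dot_self_le (a : V) : a ⬝ᵥ a ≤ 3 * ‖a‖ ^ 2 := by
  rw [dot_expand]
  have h : ∀ i, a i * a i ≤ ‖a‖ ^ 2 := by
    intro i
    have h1 := norm_le_pi_norm a i
    rw [Real.norm_eq_abs] at h1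
    have h2 := abs_le.1 h1
    nlinarith
  linarith [h 0, h 1, h 2]

lemma len_le_norm (a : V) : len a ≤ 7 / 4 * ‖a‖ := by
  rw [len]
  apply Real.sqrt_le_iff.2
  refine ⟨by positivity, ?_⟩
  have := dot_self_le a
  nlinarith [sq_nonneg ‖a‖]

/-! ### The smooth step -/

lemma stp_low {s : ℝ} (hs : s ≤ 0) : stp s = 0 := by
  unfold stp
  have h1 : max 0 (min 1 s) = 0 := by
    rw [max_eq_left]
    exact (min_le_right _ _).trans hs
  rw [h1]
  ring

lemma stp_high {s : ℝ} (hs : 1 ≤ s) : stp s = 1 := by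
  unfold stp
  have h1 : max 0 (min 1 s) = 1 := by
    rw [min_eq_left hs]
    norm_num
  rw [h1]
  ring

lemma stp_mid {s : ℝ} (h0 : 0 ≤ s) (h1 : s ≤ 1) : stp s = 3 * s ^ 2 - 2 * s ^ 3 := by
  unfold stp
  rw [min_eq_right h1, max_eq_right h0]

lemma stp'_low {s : ℝ} (hs : s ≤ 0) : stp' s = 0 := by
  unfold stp'
  have h1 : max 0 (min 1 s) = 0 := by
    rw [max_eq_left]
    exact (min_le_right _ _).trans hs
  rw [h1]
  ring

lemma stp'_high {s : ℝ} (hs : 1 ≤ s) : stp' s = 0 := by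
  unfold stp'
  have h1 : max 0 (min 1 s) = 1 := by
    rw [min_eq_left hs]
    norm_num
  rw [h1]
  ring

lemma stp'_mid {s : ℝ} (h0 : 0 ≤ s) (h1 : s ≤ 1) : stp' s = 6 * s * (1 - s) := by
  unfold stp'
  rw [min_eq_right h1, max_eq_right h0]

lemma stp_nn (s : ℝ) : 0 ≤ stp s := by
  rcases le_total s 0 with h | h
  · rw [stp_low h]
  rcases le_total s 1 with h' | h'
  · rw [stp_mid h h']
    nlinarith [mul_nonneg (sq_nonneg s) (sub_nonneg.2 h')]
  · rw [stp_high h']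
    norm_num

lemma stp_symm (s : ℝ) : stp (1 - s) = 1 - stp s := by
  rcases le_total s 0 with h | h
  · rw [stp_low h, stp_high (by linarith)]
    ring
  rcases le_total s 1 with h' | h'
  · rw [stp_mid h h', stp_mid (by linarith) (by linarith)]
    ring
  · rw [stp_high h', stp_low (by linarith)]
    ring

lemma stp_le (s : ℝ) : stp s ≤ 1 := by
  have := stp_nn (1 - s)
  rw [stp_symm] at this
  linarith

lemma stp'_nn (s : ℝ) : 0 ≤ stp' s := by
  rcases le_total s 0 with h | h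
  · rw [stp'_low h]
  rcases le_total s 1 with h' | h'
  · rw [stp'_mid h h']
    exact mul_nonneg (by linarith) (by linarith)
  · rw [stp'_high h']

lemma stp'_le (s : ℝ) : stp' s ≤ 3 / 2 := by
  rcases le_total s 0 with h | h
  · rw [stp'_low h]
    norm_num
  rcases le_total s 1 with h' | h'
  · rw [stp'_mid h h']
    nlinarith [sq_nonneg (2 * s - 1)]
  · rw [stp'_high h']
    norm_num

/-- `stp s ≥ s²` below one. -/
lemma sq_le_stp {s : ℝ} (h0 : 0 ≤ s) (h1 : s ≤ 1) : s ^ 2 ≤ stp s := by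
  rw [stp_mid h0 h1]
  nlinarith [mul_nonneg (sq_nonneg s) (sub_nonneg.2 h1)]

lemma stp_sq (s : ℝ) : |stp s| ≤ 3 * s ^ 2 := by
  rw [abs_of_nonneg (stp_nn s)]
  rcases le_total s 0 with h | h
  · rw [stp_low h]
    positivity
  rcases le_total s 1 with h' | h'
  · rw [stp_mid h h']
    have : 0 ≤ s ^ 3 := by positivity
    linarith
  · rw [stp_high h']
    nlinarith

lemma hasDeriv_sq0 {f : ℝ → ℝ} {a : ℝ} (h : ∀ t, |f t - f a| ≤ 3 * (t - a) ^ 2) :
    HasDerivAt f 0 a := by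
  rw [hasDerivAt_iff_isLittleO]
  refine Asymptotics.isLittleO_iff.2 fun c hc => ?_
  have h1 : ∀ᶠ t in 𝓝 a, |t - a| < c / 3 := by
    have : ball a (c / 3) ∈ 𝓝 a := ball_mem_nhds a (by positivity)
    filter_upwards [this] with t ht
    rwa [mem_ball, Real.dist_eq] at ht
  filter_upwards [h1] with t ht
  rw [smul_zero, sub_zero, Real.norm_eq_abs, Real.norm_eq_abs]
  refine (h t).trans ?_
  have h2 : (t - a) ^ 2 = |t - a| * |t - a| := by rw [← sq, sq_abs]
  rw [h2]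
  nlinarith [abs_nonneg (t - a)]

lemma stp_deriv (s : ℝ) : HasDerivAt stp (stp' s) s := by
  rcases lt_trichotomy s 0 with h | h | h
  · rw [stp'_low h.le]
    refine (hasDerivAt_const s (0 : ℝ)).congr_of_eventuallyEq ?_
    filter_upwards [Iio_mem_nhds h] with t ht
    exact stp_low (le_of_lt ht)
  · subst h
    rw [stp'_low le_rfl]
    refine hasDeriv_sq0 fun t => ?_
    rw [stp_low (le_refl (0 : ℝ)), sub_zero, sub_zero]
    exact stp_sq t
  rcases lt_trichotomy s 1 with h' | h' | h'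
  · rw [stp'_mid h.le h'.le]
    have h1 : HasDerivAt (fun s : ℝ => 3 * s ^ 2 - 2 * s ^ 3) (6 * s * (1 - s)) s := by
      have h2 := ((hasDerivAt_pow 2 s).const_mul 3).sub ((hasDerivAt_pow 3 s).const_mul 2)
      refine h2.congr_deriv ?_
      norm_num
      ring
    refine h1.congr_of_eventuallyEq ?_
    filter_upwards [Ioo_mem_nhds h h'] with t ht
    exact stp_mid ht.1.le ht.2.le
  · subst h'
    rw [stp'_high le_rfl]
    refine hasDeriv_sq0 fun t => ?_
    have h2 : stp t - stp 1 = -stp (1 - t) := by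
      rw [stp_symm, stp_high (le_refl (1 : ℝ))]
      ring
    rw [h2, abs_neg]
    refine (stp_sq _).trans (le_of_eq ?_)
    ring
  · rw [stp'_high h'.le]
    refine (hasDerivAt_const s (1 : ℝ)).congr_of_eventuallyEq ?_
    filter_upwards [Ioi_mem_nhds h'] with t ht
    exact stp_high (le_of_lt ht)

lemma stp'_cont : Continuous stp' := by
  unfold stp'
  fun_prop

lemma stp_c1 : ContDiff ℝ 1 stp := by
  rw [contDiff_one_iff_deriv]
  have h : deriv stp = stp' := funext fun s => (stp_deriv s).deriv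
  exact ⟨fun s => (stp_deriv s).differentiableAt, by rw [h]; exact stp'_cont⟩

lemma stp_mono : Monotone stp :=
  monotone_of_deriv_nonneg (fun s => (stp_deriv s).differentiableAt) fun s => by
    rw [(stp_deriv s).deriv]
    exact stp'_nn s

/-! ### Functions with Lipschitz constant one -/

lemma fderiv_le_len {g : V → ℝ} {y : V} (hg : DifferentiableAt ℝ g y)
    (hlip : ∀ y z, |g y - g z| ≤ len (y - z)) (n : V) : |fderiv ℝ g y n| ≤ len n := by
  have h1 : HasDerivAt (fun t : ℝ => g (y + t • n)) (fderiv ℝ g y n) 0 := by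
    have h2 : HasDerivAt (fun t : ℝ => y + t • n) n 0 := by
      simpa using ((hasDerivAt_id (0 : ℝ)).smul_const n).const_add y
    have h3 : HasFDerivAt g (fderiv ℝ g y) (y + (0 : ℝ) • n) := by
      simpa using hg.hasFDerivAt
    exact h3.comp_hasDerivAt 0 h2
  have h4 := (h1.tendsto_slope_zero).abs
  refine le_of_tendsto h4 ?_
  filter_upwards [self_mem_nhdsWithin] with t ht
  have ht0 : t ≠ 0 := ht
  rw [smul_eq_mul, abs_mul, abs_inv]
  have h5 := hlip (y + (0 + t) • n) (y + (0 : ℝ) • n)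
  have h6 : y + (0 + t) • n - (y + (0 : ℝ) • n) = t • n := by
    rw [zero_add, zero_smul, add_zero, add_sub_cancel_left]
  rw [h6, len_smulU] at h5
  rw [inv_mul_le_iff₀ (abs_pos.2 ht0)]
  exact h5

/-! ### The smooth distance -/

lemma ds_arg (x : V) {ρ : ℝ} (hρ : 0 < ρ) (y : V) : 0 < (y - x) ⬝ᵥ (y - x) + ρ ^ 2 := by
  have := dot_self_nn (y - x)
  positivity

lemma ds_pos (x : V) {ρ : ℝ} (hρ : 0 < ρ) (y : V) : 0 < ds x ρ y :=
  Real.sqrt_pos.2 (ds_arg x hρ y)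

lemma ds_sq (x : V) {ρ : ℝ} (hρ : 0 < ρ) (y : V) :
    ds x ρ y ^ 2 = (y - x) ⬝ᵥ (y - x) + ρ ^ 2 := Real.sq_sqrt (ds_arg x hρ y).le

lemma ds_smooth (x : V) {ρ : ℝ} (hρ : 0 < ρ) : ContDiff ℝ ∞ (ds x ρ) := by
  unfold ds
  refine ContDiff.sqrt ?_ fun y => (ds_arg x hρ y).ne'
  have : (fun y : V => (y - x) ⬝ᵥ (y - x) + ρ ^ 2) = fun y : V => (y 0 - x 0) * (y 0 - x 0)
      + (y 1 - x 1) * (y 1 - x 1) + (y 2 - x 2) * (y 2 - x 2) + ρ ^ 2 := by
    funext y
    rw [dot_expand]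
    simp only [Pi.sub_apply]
  rw [this]
  fun_prop

lemma len_le_ds (x : V) (ρ : ℝ) (y : V) : len (y - x) ≤ ds x ρ y := by
  unfold len ds
  apply Real.sqrt_le_sqrt
  nlinarith [sq_nonneg ρ]

lemma rho_le_ds (x : V) {ρ : ℝ} (_hρ : 0 < ρ) (y : V) : ρ ≤ ds x ρ y := by
  unfold ds
  apply Real.le_sqrt_of_sq_le
  have := dot_self_nn (y - x)
  linarith

lemma ds_le (x : V) {ρ : ℝ} (hρ : 0 < ρ) (y : V) : ds x ρ y ≤ len (y - x) + ρ := by
  unfold ds len
  apply Real.sqrt_le_iff.2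
  have h := dot_self_nn (y - x)
  refine ⟨by positivity, ?_⟩
  have h2 := Real.sq_sqrt h
  have h3 := Real.sqrt_nonneg ((y - x) ⬝ᵥ (y - x))
  nlinarith

lemma norm_le_ds (x : V) (ρ : ℝ) (y : V) : ‖y - x‖ ≤ ds x ρ y :=
  (norm_le_lenU _).trans (len_le_ds x ρ y)

lemma ds_near (x : V) {ρ : ℝ} (hρ : 0 < ρ) {y : V} (h : ‖y - x‖ ≤ ρ) : ds x ρ y ≤ 2 * ρ := by
  unfold ds
  apply Real.sqrt_le_iff.2
  refine ⟨by positivity, ?_⟩
  have h1 := dot_self_le (y - x)
  have h2 : ‖y - x‖ ^ 2 ≤ ρ ^ 2 := pow_le_pow_left₀ (norm_nonneg _) h 2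
  nlinarith

lemma le_of_sqU {a b : ℝ} (hb : 0 ≤ b) (h : a ^ 2 ≤ b ^ 2) : a ≤ b :=
  (le_abs_self a).trans (abs_le_of_sq_le_sq h hb)

lemma ds_lip (x : V) {ρ : ℝ} (hρ : 0 < ρ) (y z : V) : |ds x ρ y - ds x ρ z| ≤ len (y - z) := by
  have h1 := ds_pos x hρ y
  have h2 := ds_pos x hρ z
  have e1 := ds_sq x hρ y
  have e2 := ds_sq x hρ z
  have hcs := dot_csU (y - x) (z - x)
  have a0 := dot_self_nn (y - x)
  have b0 := dot_self_nn (z - x)
  -- the inner product
  have e3 : (y - z) ⬝ᵥ (y - z) = (y - x) ⬝ᵥ (y - x) + (z - x) ⬝ᵥ (z - x)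
      - 2 * ((y - x) ⬝ᵥ (z - x)) := by
    simp only [dot_expand, Pi.sub_apply]
    ring
  have h3 : (y - x) ⬝ᵥ (z - x) + ρ ^ 2 ≤ ds x ρ y * ds x ρ z := by
    apply le_of_sqU
    · positivity
    · rw [mul_pow, e1, e2]
      have h4 : 2 * ((y - x) ⬝ᵥ (z - x)) ≤ (y - x) ⬝ᵥ (y - x) + (z - x) ⬝ᵥ (z - x) := by
        have := dot_self_nn (y - z)
        linarith
      nlinarith [sq_nonneg ρ]
  unfold len
  apply Real.abs_le_sqrt
  rw [e3]
  nlinarith

lemma ds_fderiv (x : V) {ρ : ℝ} (hρ : 0 < ρ) (y n : V) : |fderiv ℝ (ds x ρ) y n| ≤ len n :=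
  fderiv_le_len ((ds_smooth x hρ).differentiable (by norm_num) y) (ds_lip x hρ) n

theorem bas : StmBas := by
  refine ⟨stp_deriv, stp_c1, stp'_cont, stp_mono, fun s => ⟨stp_nn s, stp_le s, stp'_nn s,
    (stp'_le s).trans (by norm_num)⟩, fun s hs => stp_low hs, fun s hs => stp_high hs,
    fun s hs => ?_, fun s hs => ?_, fun s hs => ?_, fun x ρ hρ => ⟨ds_smooth x hρ, len_le_ds x ρ,
    rho_le_ds x hρ, ds_le x hρ, norm_le_ds x ρ, fun y => ds_near x hρ, ds_lip x hρ,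
    ds_fderiv x hρ⟩⟩
  · by_contra hc
    rw [not_and_or, not_lt, not_lt] at hc
    rcases hc with h | h
    · exact hs (stp'_low h)
    · exact hs (stp'_high h)
  · by_contra hc
    exact hs (stp_low (not_lt.1 hc))
  · by_contra hc
    exact hs (stp_high (not_lt.1 hc))

end Pool.Agent.U481.VL
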