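import Pool.Agent.U481.VL.Tf

/-!
Project VL (planned by helper85): the Morrey bound and the pinching lemma.
-/

set_option autoImplicit false

open MeasureTheory Set Metric Filter Topology
open scoped ContDiff
open H459R3.NS Pool.Agent.W268.NS Pool.Agent.Q67.VD

namespace Pool.Agent.U481.VL

open Pool.Agent.Q85.VL
open Pool.Agent.Q151.CC (WD)

/-! ### Scales -/

/-- The scales. -/
noncomputable def rk (r0 : ℝ) (j : ℕ) : ℝ := (1 / 256 : ℝ) ^ j * r0

lemma rk_pos {r0 : ℝ} (h : 0 < r0) (j : ℕ) : 0 < rk r0 j := by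
  unfold rk
  positivity

lemma rk_succ (r0 : ℝ) (j : ℕ) : rk r0 (j + 1) = rk r0 j / 256 := by
  unfold rk
  rw [pow_succ]
  ring

lemma rk_zero (r0 : ℝ) : rk r0 0 = r0 := by
  unfold rk
  simp

lemma rk_anti {r0 : ℝ} (h : 0 < r0) {i j : ℕ} (hij : i ≤ j) : rk r0 j ≤ rk r0 i := by
  unfold rk
  apply mul_le_mul_of_nonneg_right _ h.le
  exact pow_le_pow_of_le_one (by norm_num) (by norm_num) hij

lemma rk_le {r0 : ℝ} (h : 0 < r0) (j : ℕ) : rk r0 j ≤ r0 := by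
  have := rk_anti h (Nat.zero_le j)
  rwa [rk_zero] at this

lemma exists_scale {r0 t : ℝ} (h0 : 0 < r0) (ht : 0 < t) (htr : t ≤ r0) :
    ∃ j, t ≤ rk r0 j ∧ rk r0 (j + 1) < t := by
  obtain ⟨j, h1, h2⟩ := exists_nat_pow_near_of_lt_one (x := t / r0) (y := (1 / 256 : ℝ))
    (by positivity) (by rw [div_le_one h0]; exact htr) (by norm_num) (by norm_num)
  refine ⟨j, ?_, ?_⟩
  · unfold rk
    rwa [div_le_iff₀ h0] at h2
  · unfold rk
    rwa [lt_div_iff₀ h0] at h1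

section

variable {κ ρ R : ℝ} {x : V} {f m : V → ℝ} {W : V → V} {g : V → ℝ}

/-- The normalised remainder at the scale `j`. -/
noncomputable def am (r0 : ℝ) (x : V) (m : V → ℝ) (j : ℕ) : ℝ :=
  (rk r0 j)⁻¹ * ∫ y in closedBall x (rk r0 j), m y

lemma m_nn (h : LF κ R x f m W g) (S : Set V) (hS : MeasurableSet S) : 0 ≤ ∫ y in S, m y :=
  setIntegral_nonneg hS fun y _ => h.m0 y

lemma am_nn (h : LF κ R x f m W g) {r0 : ℝ} (h0 : 0 < r0) (j : ℕ) : 0 ≤ am r0 x m j :=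
  mul_nonneg (inv_nonneg.2 (rk_pos h0 j).le) (m_nn h _ measurableSet_closedBall)

lemma am_mul {r0 : ℝ} (h0 : 0 < r0) (j : ℕ) :
    ∫ y in closedBall x (rk r0 j), m y = am r0 x m j * rk r0 j := by
  unfold am
  have := (rk_pos h0 j).ne'
  field_simp

lemma am_le (h : LF κ R x f m W g) {r0 μ : ℝ} (h0 : 0 < r0)
    (hμ : ∀ n : ℕ, ∑ j ∈ Finset.range n, am r0 x m j ≤ μ) (j : ℕ) : am r0 x m j ≤ μ := by
  refine le_trans ?_ (hμ (j + 1))
  exact Finset.single_le_sum (f := am r0 x m) (fun i _ => am_nn h h0 i)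
    (Finset.mem_range.2 (Nat.lt_succ_self j))

lemma m_ball_le (h : LF κ R x f m W g) {a b : ℝ} (hab : a ≤ b) :
    ∫ y in closedBall x a, m y ≤ ∫ y in closedBall x b, m y :=
  setIntegral_mono_set (int_cube h.mc x b) (Eventually.of_forall fun y => h.m0 y)
    (closedBall_subset_closedBall hab).eventuallyLE

lemma f_ball_le (h : LF κ R x f m W g) {a b : ℝ} (hab : a ≤ b) (hb : b ≤ R) :
    ∫ y in closedBall x a, f y ≤ ∫ y in closedBall x b, f y := by
  refine setIntegral_mono_set (int_cube h.fc x b) ?_ (closedBall_subset_closedBall hab).eventuallyLE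
  filter_upwards [ae_restrict_mem measurableSet_closedBall] with y hy
  exact f_nn h (closedBall_subset_closedBall hb hy)

/-- The sum of the comparisons. -/
lemma tele (h : LF κ R x f m W g) (hκ : 0 < κ) (hκ1 : κ ≤ 1) (hρ : 0 < ρ) {r0 : ℝ} (h0 : 0 < r0)
    (hR : r0 ≤ R) {k n : ℕ} (hkn : k ≤ n) :
    AA κ ρ R g x W m (rk r0 n) ≤ AA κ ρ R g x W m (rk r0 k)
      + 65536 / κ * (∑ j ∈ Finset.range n, am r0 x m j - ∑ j ∈ Finset.range k, am r0 x m j) := by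
  induction n, hkn using Nat.le_induction with
  | base => simp
  | succ n hkn ih =>
    have h1 := cmpL h hκ hκ1 hρ (r := rk r0 n) (r' := rk r0 (n + 1)) (rk_pos h0 _)
      (by rw [rk_succ]; linarith [rk_pos h0 n]) ((rk_le h0 n).trans hR)
    rw [Finset.sum_range_succ]
    have h2 : 256 / (κ * rk r0 (n + 1)) * ∫ y in closedBall x (rk r0 n), m y
        = 65536 / κ * am r0 x m n := by
      unfold am
      rw [rk_succ]
      have := (rk_pos h0 n).ne'
      field_simp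
      ring
    rw [h2] at h1
    linarith

lemma tele' (h : LF κ R x f m W g) (hκ : 0 < κ) (hκ1 : κ ≤ 1) (hρ : 0 < ρ) {r0 μ : ℝ}
    (h0 : 0 < r0) (hR : r0 ≤ R) (hμ : ∀ n : ℕ, ∑ j ∈ Finset.range n, am r0 x m j ≤ μ)
    {k n : ℕ} (hkn : k ≤ n) :
    AA κ ρ R g x W m (rk r0 n) ≤ AA κ ρ R g x W m (rk r0 k) + 65536 / κ * μ := by
  refine (tele h hκ hκ1 hρ h0 hR hkn).trans ?_
  have h1 : 0 ≤ ∑ j ∈ Finset.range k, am r0 x m j := Finset.sum_nonneg fun i _ => am_nn h h0 i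
  have h2 : ∑ j ∈ Finset.range n, am r0 x m j - ∑ j ∈ Finset.range k, am r0 x m j ≤ μ := by
    linarith [hμ n]
  have h3 : 65536 / κ * (∑ j ∈ Finset.range n, am r0 x m j - ∑ j ∈ Finset.range k, am r0 x m j)
      ≤ 65536 / κ * μ := mul_le_mul_of_nonneg_left h2 (by positivity)
  linarith

/-- The upper bound of the flux at the largest scale. -/
lemma top (h : LF κ R x f m W g) (hκ : 0 < κ) (hκ1 : κ ≤ 1) (hρ : 0 < ρ) {r0 : ℝ}
    (h0 : 0 < r0) (hR : r0 ≤ R) :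
    AA κ ρ R g x W m r0 ≤ 256 / κ * ((∫ y in closedBall x r0, f y) / r0) + 128 / κ * am r0 x m 0 := by
  refine (ubL h hκ hκ1 hρ h0 hR).trans (le_of_eq ?_)
  have i1 : IntegrableOn (fun y => 2 * f y) (closedBall x r0) :=
    (int_cube h.fc x r0).const_mul _
  rw [integral_add i1 (int_cube h.mc x r0), integral_const_mul]
  unfold am
  rw [rk_zero]
  field_simp
  ring

/-- The lower bound at the smallest scale. -/
lemma bottom (h : LF κ R x f m W g) (hκ : 0 < κ) (hκ1 : κ ≤ 1) (hρ : 0 < ρ) {r0 μ : ℝ}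
    (h0 : 0 < r0) (hR : r0 ≤ R) (hμ : ∀ n : ℕ, ∑ j ∈ Finset.range n, am r0 x m j ≤ μ) {j : ℕ}
    (h1 : 128 / κ * ρ ≤ rk r0 j) (h2 : rk r0 (j + 1) < 128 / κ * ρ) :
    2 * κ * ρ * ∫ y in closedBall x ρ, f y
      ≤ 2 ^ 24 * ρ ^ 2 * AA κ ρ R g x W m (rk r0 j) + 2 ^ 28 / κ * ρ ^ 2 * μ := by
  have hμ0 : 0 ≤ μ := by simpa using hμ 0
  have hr := rk_pos h0 j
  have h3 := lbL h hκ hκ1 hρ h1 ((rk_le h0 j).trans hR)
  rw [am_mul h0] at h3
  have h4 := am_le h h0 hμ j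
  have h5 : κ * rk r0 j ≤ 32768 * ρ := by
    rw [rk_succ] at h2
    have h6 : rk r0 j ≤ 32768 / κ * ρ := by
      have : 32768 / κ * ρ = 256 * (128 / κ * ρ) := by ring
      linarith
    calc κ * rk r0 j ≤ κ * (32768 / κ * ρ) := mul_le_mul_of_nonneg_left h6 hκ.le
      _ = _ := by field_simp
  have h5' : 0 ≤ κ * rk r0 j := by positivity
  have h6 : (κ * rk r0 j / 8) ^ 2 ≤ 2 ^ 24 * ρ ^ 2 := by
    have : κ * rk r0 j / 8 ≤ 4096 * ρ := by linarith
    calc (κ * rk r0 j / 8) ^ 2 ≤ (4096 * ρ) ^ 2 := pow_le_pow_left₀ (by positivity) this 2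
      _ = _ := by ring
  have h7 := mul_le_mul_of_nonneg_right h6 (AA_nn h hκ hρ hr)
  have h8 : κ * rk r0 j / 4 * (am r0 x m j * rk r0 j) ≤ 2 ^ 28 / κ * ρ ^ 2 * μ := by
    have e1 : κ * rk r0 j / 4 * (am r0 x m j * rk r0 j)
        = (κ * rk r0 j) ^ 2 / (4 * κ) * am r0 x m j := by
      field_simp
    rw [e1]
    have e2 : (κ * rk r0 j) ^ 2 / (4 * κ) ≤ 2 ^ 28 / κ * ρ ^ 2 := by
      have e3 : (κ * rk r0 j) ^ 2 ≤ (32768 * ρ) ^ 2 := pow_le_pow_left₀ h5' h5 2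
      have e4 : 2 ^ 28 / κ * ρ ^ 2 = (32768 * ρ) ^ 2 / (4 * κ) := by
        field_simp
        ring
      rw [e4]
      exact div_le_div_of_nonneg_right e3 (by positivity)
    exact mul_le_mul e2 h4 (am_nn h h0 j) (by positivity)
  linarith

end

/-- VL-7. -/
theorem morV : StmMorV := by
  intro κ hκ hκ1
  refine ⟨2 ^ 41 / κ ^ 2, κ / 128, by positivity, by positivity, by linarith, ?_⟩
  intro R μ x f m W g hR h hKS r hr hrR
  have hμ : ∀ n : ℕ, ∑ j ∈ Finset.range n, am R x m j ≤ μ := fun n => hKS n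
  have hμ0 : 0 ≤ μ := by simpa using hμ 0
  have hrR' : 128 / κ * r ≤ R := by
    calc 128 / κ * r ≤ 128 / κ * (κ / 128 * R) := mul_le_mul_of_nonneg_left hrR (by positivity)
      _ = R := by field_simp
  obtain ⟨j, hj1, hj2⟩ := exists_scale hR (t := 128 / κ * r) (by positivity) hrR'
  have h1 := bottom h hκ hκ1 hr hR le_rfl hμ hj1 hj2
  have h2 := tele' h hκ hκ1 hr hR le_rfl hμ (Nat.zero_le j)
  rw [rk_zero] at h2
  have h3 := top h hκ hκ1 hr hR le_rfl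
  have h4 := am_le h hR hμ 0
  obtain ⟨F, hF⟩ : ∃ F, F = (∫ y in closedBall x R, f y) / R := ⟨_, rfl⟩
  have hF0 : 0 ≤ F := by
    rw [hF]
    exact div_nonneg (setIntegral_nonneg measurableSet_closedBall fun y hy => f_nn h hy) hR.le
  rw [← hF] at h3 ⊢
  obtain ⟨I, hI⟩ : ∃ I, I = ∫ y in closedBall x r, f y := ⟨_, rfl⟩
  rw [← hI] at h1 ⊢
  have h5 : AA κ r R g x W m (rk R j) ≤ 2 ^ 17 / κ * (F + μ) := by
    have e1 : 128 / κ * am R x m 0 ≤ 128 / κ * μ := mul_le_mul_of_nonneg_left h4 (by positivity)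
    have e2 : 2 ^ 17 / κ * (F + μ) - (256 / κ * F + 128 / κ * μ + 65536 / κ * μ)
        = (2 ^ 17 - 256) / κ * F + (2 ^ 17 - 65664) / κ * μ := by ring
    have e3 : 0 ≤ (2 ^ 17 - 256 : ℝ) / κ * F := mul_nonneg (div_nonneg (by norm_num) hκ.le) hF0
    have e4 : 0 ≤ (2 ^ 17 - 65664 : ℝ) / κ * μ := mul_nonneg (div_nonneg (by norm_num) hκ.le) hμ0
    linarith
  have h6 : 2 ^ 24 * r ^ 2 * AA κ r R g x W m (rk R j)
      ≤ 2 ^ 24 * r ^ 2 * (2 ^ 17 / κ * (F + μ)) := mul_le_mul_of_nonneg_left h5 (by positivity)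
  have h7 : 2 ^ 28 / κ * r ^ 2 * μ ≤ 2 ^ 28 / κ * r ^ 2 * (F + μ) :=
    mul_le_mul_of_nonneg_left (by linarith) (by positivity)
  have h8 : 2 * κ * r * I ≤ 2 * κ * r * (2 ^ 41 / κ ^ 2 * (F + μ) * r) := by
    have e1 : 2 * κ * r * (2 ^ 41 / κ ^ 2 * (F + μ) * r)
        = 2 ^ 42 / κ * r ^ 2 * (F + μ) := by
      field_simp
    have e2 : 2 ^ 24 * r ^ 2 * (2 ^ 17 / κ * (F + μ)) = 2 ^ 41 / κ * r ^ 2 * (F + μ) := by
      ring
    have e3 : 2 ^ 42 / κ * r ^ 2 * (F + μ) - 2 ^ 41 / κ * r ^ 2 * (F + μ)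
        - 2 ^ 28 / κ * r ^ 2 * (F + μ) = (2 ^ 41 - 2 ^ 28) / κ * r ^ 2 * (F + μ) := by ring
    have e4 : 0 ≤ (2 ^ 41 - 2 ^ 28 : ℝ) / κ * r ^ 2 * (F + μ) :=
      mul_nonneg (mul_nonneg (div_nonneg (by norm_num) hκ.le) (sq_nonneg _)) (by linarith)
    linarith
  exact le_of_mul_le_mul_left h8 (by positivity)

/-! ### The pinching lemma -/

lemma LF.neg' {κ R : ℝ} {x : V} {f m : V → ℝ} {W : V → V} {g : V → ℝ} (h : LF κ R x f m W g) :
    LF κ R x f m (fun y => -W y) (fun y => -g y) where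
  wd := by
    refine ⟨h.wd.cont.neg, fun F hF hts => ?_⟩
    have h1 := h.wd.div F hF hts
    simp only [map_neg, integral_neg, h1, neg_zero]
  fc := h.fc
  mc := h.mc
  m0 := h.m0
  up := fun y hy => by
    rw [len_negU]
    exact h.up y hy
  gs := h.gs.neg
  lip := fun y z => by
    have e : -g y - -g z = -(g y - g z) := by ring
    rw [e, abs_neg]
    exact h.lip y z
  lo := fun y hy => by
    have h1 : HasFDerivAt g (fderiv ℝ g y) y := (h.gs.differentiable one_ne_zero y).hasFDerivAt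
    have h2 : fderiv ℝ (fun y => -g y) y = -fderiv ℝ g y := h1.neg.fderiv
    rw [h2]
    have h3 : (-fderiv ℝ g y) (-W y) = fderiv ℝ g y (W y) := by
      rw [ContinuousLinearMap.neg_apply, map_neg, neg_neg]
    rw [h3]
    exact h.lo y hy

section

variable {κ ρ R : ℝ} {x : V} {f m : V → ℝ} {W : V → V} {g : V → ℝ}

/-- The flux is not small. -/
lemma flux_low (h : LF κ R x f m W g) (hκ : 0 < κ) (hκ1 : κ ≤ 1) (hρ : 0 < ρ) {r0 η c : ℝ}
    (h0 : 0 < r0) (hR : r0 ≤ R) (hη : 0 < η) (hc : c ≤ κ ^ 2 / 2 ^ 45)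
    (hμ : ∀ n : ℕ, ∑ j ∈ Finset.range n, am r0 x m j ≤ 4 * (c * η))
    (hconc : η * ρ ≤ ∫ y in closedBall x ρ, f y) {N k : ℕ} (hN : 128 / κ * ρ ≤ rk r0 N)
    (hk : k ≤ N) : κ * η / 2 ^ 25 ≤ AA κ ρ R g x W m (rk r0 k) := by
  obtain ⟨j, hj1, hj2⟩ := exists_scale h0 (t := 128 / κ * ρ) (by positivity)
    (hN.trans (rk_le h0 N))
  have hkj : k ≤ j := by
    by_contra hcon
    have h1 : rk r0 N ≤ rk r0 (j + 1) := rk_anti h0 (by omega)
    linarith
  have h1 := bottom h hκ hκ1 hρ h0 hR hμ hj1 hj2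
  have h2 := tele' h hκ hκ1 hρ h0 hR hμ hkj
  have hμ0 : 0 ≤ 4 * (c * η) := by simpa using hμ 0
  obtain ⟨X, hX⟩ : ∃ X, X = AA κ ρ R g x W m (rk r0 j) := ⟨_, rfl⟩
  obtain ⟨Y, hY⟩ : ∃ Y, Y = AA κ ρ R g x W m (rk r0 k) := ⟨_, rfl⟩
  rw [← hX] at h1 h2
  rw [← hY] at h2 ⊢
  have h3 : 2 * κ * ρ * (η * ρ) ≤ 2 * κ * ρ * ∫ y in closedBall x ρ, f y :=
    mul_le_mul_of_nonneg_left hconc (by positivity)
  have hκη : 0 < κ * η := by positivity
  have h4 : 2 ^ 28 / κ * ρ ^ 2 * (4 * (c * η)) ≤ κ * η * ρ ^ 2 := by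
    have e1 : 2 ^ 28 / κ * ρ ^ 2 * (4 * (c * η)) ≤ 2 ^ 28 / κ * ρ ^ 2 *
        (4 * (κ ^ 2 / 2 ^ 45 * η)) := by
      apply mul_le_mul_of_nonneg_left _ (by positivity)
      have := mul_le_mul_of_nonneg_right hc hη.le
      linarith
    have e2 : 2 ^ 28 / κ * ρ ^ 2 * (4 * (κ ^ 2 / 2 ^ 45 * η)) = κ * η * ρ ^ 2 / 2 ^ 15 := by
      field_simp
      ring
    have e3 : 0 ≤ κ * η * ρ ^ 2 := by positivity
    linarith
  have h5 : κ * η ≤ 2 ^ 24 * X := by
    have e1 : κ * η * ρ ^ 2 ≤ 2 ^ 24 * X * ρ ^ 2 := by linarith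
    exact le_of_mul_le_mul_right e1 (by positivity)
  have h6 : 65536 / κ * (4 * (c * η)) ≤ κ * η / 2 ^ 27 := by
    have e1 : 65536 / κ * (4 * (c * η)) ≤ 65536 / κ * (4 * (κ ^ 2 / 2 ^ 45 * η)) := by
      apply mul_le_mul_of_nonneg_left _ (by positivity)
      have := mul_le_mul_of_nonneg_right hc hη.le
      linarith
    have e2 : 65536 / κ * (4 * (κ ^ 2 / 2 ^ 45 * η)) = κ * η / 2 ^ 27 := by
      field_simp
      ring
    linarith
  linarith

/-- The flux through the shell. -/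
lemma shell_low (h : LF κ R x f m W g) (hκ : 0 < κ) (hκ1 : κ ≤ 1) (hρ : 0 < ρ) {r0 η c : ℝ}
    (h0 : 0 < r0) (hR : r0 ≤ R) (hη : 0 < η) (hc : c ≤ κ ^ 2 / 2 ^ 45)
    (hμ : ∀ n : ℕ, ∑ j ∈ Finset.range n, am r0 x m j ≤ 4 * (c * η))
    (hconc : η * ρ ≤ ∫ y in closedBall x ρ, f y) {N k : ℕ} (hN : 128 / κ * ρ ≤ rk r0 N)
    (hk : k < N) {s w : ℝ} (hs1 : rk r0 k / 64 ≤ s) (hs2 : s ≤ rk r0 k / 32) (hw : 0 < w)
    (hws : w ≤ s / 4) :
    κ * η / 2 ^ 27 * w ≤ ∫ y in Shell x s w ∩ {y | 0 < uu κ ρ g x y}, f y := by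
  have h1 := flux_low h hκ hκ1 hρ h0 hR hη hc hμ hconc hN (show k + 1 ≤ N from hk)
  have hrk := rk_pos h0 k
  have hrk1 := rk_pos h0 (k + 1)
  have hRk : rk r0 k ≤ R := (rk_le h0 k).trans hR
  have h2 := fcL h hκ hκ1 hρ hrk1 (by rw [rk_succ]; linarith) hw hws (by linarith)
  have h3 : ∫ y in closedBall x (s + w), m y ≤ am r0 x m k * rk r0 k := by
    rw [← am_mul h0]
    exact m_ball_le h (by linarith)
  have h4 := am_le h h0 hμ k
  have h5 : 256 / (κ * rk r0 (k + 1)) * ∫ y in closedBall x (s + w), m y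
      ≤ κ * η / 2 ^ 27 := by
    have e1 : 256 / (κ * rk r0 (k + 1)) * ∫ y in closedBall x (s + w), m y
        ≤ 256 / (κ * rk r0 (k + 1)) * (4 * (κ ^ 2 / 2 ^ 45 * η) * rk r0 k) := by
      apply mul_le_mul_of_nonneg_left _ (by positivity)
      refine h3.trans (mul_le_mul_of_nonneg_right ?_ hrk.le)
      have := mul_le_mul_of_nonneg_right hc hη.le
      linarith
    have e2 : 256 / (κ * rk r0 (k + 1)) * (4 * (κ ^ 2 / 2 ^ 45 * η) * rk r0 k)
        = κ * η / 2 ^ 27 := by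
      rw [rk_succ]
      field_simp
      ring
    linarith
  obtain ⟨I, hI⟩ : ∃ I, I = ∫ y in Shell x s w ∩ {y | 0 < uu κ ρ g x y}, f y := ⟨_, rfl⟩
  rw [← hI] at h2 ⊢
  have h6 : κ * η / 2 ^ 26 ≤ 2 / w * I := by
    have : 0 < κ * η := by positivity
    linarith
  have h7 : 2 / w * I = 2 * I / w := by ring
  rw [h7, le_div_iff₀ hw] at h6
  linarith

/-- A point of the surface with `u ≥ 0`. -/
lemma surf_point (h : LF κ R x f m W g) (hκ : 0 < κ) (hκ1 : κ ≤ 1) (hρ : 0 < ρ) {r0 η c : ℝ}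
    (h0 : 0 < r0) (hR : r0 ≤ R) (hη : 0 < η) (hc : c ≤ κ ^ 2 / 2 ^ 45)
    (hμ : ∀ n : ℕ, ∑ j ∈ Finset.range n, am r0 x m j ≤ 4 * (c * η))
    (hconc : η * ρ ≤ ∫ y in closedBall x ρ, f y) {N k : ℕ} (hN : 128 / κ * ρ ≤ rk r0 N)
    (hk : k < N) {s : ℝ} (hs1 : rk r0 k / 64 ≤ s) (hs2 : s ≤ rk r0 k / 32) :
    ∃ y, ‖y - x‖ = s ∧ 0 ≤ uu κ ρ g x y := by
  have hs : 0 < s := by linarith [rk_pos h0 k]
  have hne : ∀ w, 0 < w → w ≤ s / 4 → ∃ y ∈ Shell x s w, 0 < uu κ ρ g x y := by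
    intro w hw hws
    by_contra hcon
    push Not at hcon
    have h1 : Shell x s w ∩ {y | 0 < uu κ ρ g x y} = ∅ := by
      ext y
      simp only [mem_inter_iff, mem_setOf_eq, mem_empty_iff_false, iff_false, not_and, not_lt]
      exact hcon y
    have h2 := shell_low h hκ hκ1 hρ h0 hR hη hc hμ hconc hN hk hs1 hs2 hw hws
    rw [h1, setIntegral_empty] at h2
    have : 0 < κ * η / 2 ^ 27 * w := by positivity
    linarith
  have hcu : Continuous (uu κ ρ g x) := (uu_c1 κ hρ h.gs x).continuous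
  have hA : IsCompact (closedBall x (5 / 4 * s) ∩ {y | 0 ≤ uu κ ρ g x y}) :=
    (isCompact_closedBall x _).inter_right (isClosed_le continuous_const hcu)
  have hAne : (closedBall x (5 / 4 * s) ∩ {y | 0 ≤ uu κ ρ g x y}).Nonempty := by
    obtain ⟨y, hy, hu⟩ := hne (s / 4) (by linarith) le_rfl
    refine ⟨y, ?_, hu.le⟩
    have hy' : |‖y - x‖ - s| ≤ s / 4 := hy
    rw [mem_closedBall, dist_eq_norm]
    linarith [(abs_le.1 hy').2]
  have hφ : Continuous fun y : V => |‖y - x‖ - s| := by fun_prop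
  obtain ⟨y, hy, hmin⟩ := hA.exists_isMinOn hAne hφ.continuousOn
  refine ⟨y, ?_, hy.2⟩
  have h1 : |‖y - x‖ - s| ≤ 0 := by
    apply le_of_forall_pos_le_add
    intro ε hε
    rw [zero_add]
    obtain ⟨z, hz, hu⟩ := hne (min ε (s / 4)) (lt_min hε (by linarith)) (min_le_right _ _)
    have hz' : |‖z - x‖ - s| ≤ min ε (s / 4) := hz
    have hz2 := hz'.trans (min_le_right _ _)
    have hz3 := hz'.trans (min_le_left _ _)
    have hzA : z ∈ closedBall x (5 / 4 * s) ∩ {y | 0 ≤ uu κ ρ g x y} := by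
      refine ⟨?_, hu.le⟩
      rw [mem_closedBall, dist_eq_norm]
      linarith [(abs_le.1 hz2).2]
    exact (hmin hzA).trans hz3
  have h2 := abs_nonpos_iff.1 h1
  linarith

/-- The point between the two families. -/
lemma mid_point (h : LF κ R x f m W g) (hκ : 0 < κ) (hκ1 : κ ≤ 1) (hρ : 0 < ρ) {r0 η c : ℝ}
    (h0 : 0 < r0) (hR : r0 ≤ R) (hη : 0 < η) (hc : c ≤ κ ^ 2 / 2 ^ 45)
    (hμ : ∀ n : ℕ, ∑ j ∈ Finset.range n, am r0 x m j ≤ 4 * (c * η))
    (hconc : η * ρ ≤ ∫ y in closedBall x ρ, f y) {N k : ℕ} (hN : 128 / κ * ρ ≤ rk r0 N)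
    (hk : k < N) {s : ℝ} (hs1 : rk r0 k / 64 ≤ s) (hs2 : s ≤ rk r0 k / 32) :
    ∃ z, ‖z - x‖ = s ∧ uu κ ρ g x z = -(4 * (κ / 65536) * rk r0 k) := by
  have hrk := rk_pos h0 k
  have hs : 0 < s := by linarith
  obtain ⟨y1, hy1, hu1⟩ := surf_point h hκ hκ1 hρ h0 hR hη hc hμ hconc hN hk hs1 hs2
  obtain ⟨y2, hy2, hu2⟩ := surf_point (LF.neg' h) hκ hκ1 hρ h0 hR hη hc hμ hconc hN hk hs1 hs2
  have hu2' : uu κ ρ g x y2 ≤ -(4 * (κ / 65536) * rk r0 k) := by
    unfold uu at hu2 ⊢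
    have h1 := norm_le_ds x ρ y2
    rw [hy2] at h1
    have h2 : κ * (rk r0 k / 64) ≤ κ * ds x ρ y2 := mul_le_mul_of_nonneg_left (by linarith) hκ.le
    have h3 : 0 < κ * rk r0 k := by positivity
    linarith
  have hcu : Continuous (uu κ ρ g x) := (uu_c1 κ hρ h.gs x).continuous
  have hconn : IsPreconnected (sphere x s) := by
    apply isPreconnected_sphere
    rw [rank_fin_fun]
    norm_num
  have m1 : y1 ∈ sphere x s := by rw [mem_sphere, dist_eq_norm]; exact hy1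
  have m2 : y2 ∈ sphere x s := by rw [mem_sphere, dist_eq_norm]; exact hy2
  have h3 := hconn.intermediate_value m2 m1 hcu.continuousOn
  have h4 : 0 < κ * rk r0 k := by positivity
  obtain ⟨z, hz, huz⟩ := h3 (show -(4 * (κ / 65536) * rk r0 k) ∈ Icc _ _ from
    ⟨hu2', by linarith⟩)
  rw [mem_sphere, dist_eq_norm] at hz
  exact ⟨z, hz, huz⟩

end

/-- VL-8. -/
theorem pinV : StmPinV := by
  intro κ hκ hκ1
  have hκ2 : κ ^ 2 ≤ κ := by nlinarith
  refine ⟨κ / 524288, κ ^ 2 / 2 ^ 45, by positivity, by linarith, by positivity, by linarith, ?_⟩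
  obtain ⟨c, hcd⟩ : ∃ c, c = κ ^ 2 / 2 ^ 45 := ⟨_, rfl⟩
  have hc0 : 0 < c := by rw [hcd]; positivity
  rw [← hcd]
  intro K η τ hK hη hη1 hτ hτ1
  obtain ⟨K', hK'⟩ : ∃ K', K' = 1024 / κ * K + 512 / κ := ⟨_, rfl⟩
  have hK'0 : 0 < K' := by rw [hK']; positivity
  obtain ⟨N₁, hN₁⟩ := exists_nat_gt (K' / (256 * τ))
  have hN₁0 : 0 < N₁ := by
    have : (0 : ℝ) < N₁ := lt_of_le_of_lt (by positivity) hN₁
    exact_mod_cast this
  obtain ⟨N₀, hN₀⟩ := pow_unbounded_of_one_lt (512 / κ) (show (1 : ℝ) < 256 by norm_num)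
  refine ⟨N₁ + N₀, ?_⟩
  intro R ρ x f m W g hR h hfK hKS hρ hρN hconc
  obtain ⟨r0, hr0d⟩ : ∃ r0, r0 = R / 4 := ⟨_, rfl⟩
  have h0 : 0 < r0 := by rw [hr0d]; positivity
  have hr0R : r0 ≤ R := by rw [hr0d]; linarith
  have hητ : c * η * τ ≤ c * η := mul_le_of_le_one_right (by positivity) hτ1
  -- the remainders
  have ham : ∀ j, am r0 x m j ≤ 4 * am R x m j := by
    intro j
    unfold am
    have e1 : rk r0 j = rk R j / 4 := by
      unfold rk
      rw [hr0d]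
      ring
    rw [e1]
    have hj := rk_pos hR j
    have e2 : ∫ y in closedBall x (rk R j / 4), m y ≤ ∫ y in closedBall x (rk R j), m y :=
      m_ball_le h (by linarith)
    have e3 : (rk R j / 4)⁻¹ = 4 * (rk R j)⁻¹ := by
      field_simp
    rw [e3, mul_assoc]
    have : 0 ≤ (rk R j)⁻¹ := by positivity
    have := mul_le_mul_of_nonneg_left e2 this
    linarith
  have hμ' : ∀ n : ℕ, ∑ j ∈ Finset.range n, am r0 x m j ≤ 4 * (c * η * τ) := by
    intro n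
    calc ∑ j ∈ Finset.range n, am r0 x m j ≤ ∑ j ∈ Finset.range n, 4 * am R x m j :=
          Finset.sum_le_sum fun j _ => ham j
      _ = 4 * ∑ j ∈ Finset.range n, am R x m j := by rw [Finset.mul_sum]
      _ ≤ 4 * (c * η * τ) := by
          have := hKS n
          have h2 : ∑ j ∈ Finset.range n, am R x m j ≤ c * η * τ := this
          linarith
  have hμ : ∀ n : ℕ, ∑ j ∈ Finset.range n, am r0 x m j ≤ 4 * (c * η) := fun n =>
    (hμ' n).trans (by linarith)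
  have hN : 128 / κ * ρ ≤ rk r0 N₁ := by
    have e1 : 128 / κ * ρ ≤ 128 / κ * ((1 / 256) ^ (N₁ + N₀) * R) :=
      mul_le_mul_of_nonneg_left hρN (by positivity)
    have e2 : 128 / κ * ((1 / 256) ^ (N₁ + N₀) * R)
        = (512 / κ) * (1 / 256) ^ N₀ * rk r0 N₁ := by
      unfold rk
      rw [hr0d, pow_add]
      ring
    have e3 : 512 / κ * (1 / 256 : ℝ) ^ N₀ ≤ 1 := by
      rw [one_div, inv_pow, ← div_eq_mul_inv, div_le_one (by positivity)]
      exact hN₀.le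
    have e4 := mul_le_mul_of_nonneg_right e3 (rk_pos h0 N₁).le
    linarith
  -- the pigeonhole
  have htop : AA κ ρ R g x W m r0 ≤ K' := by
    refine (top h hκ hκ1 hρ h0 hr0R).trans ?_
    have e1 : (∫ y in closedBall x r0, f y) / r0 ≤ 4 * K := by
      rw [div_le_iff₀ h0]
      have := f_ball_le h hr0R le_rfl
      rw [hr0d] at this ⊢
      linarith
    have e2 := am_le h h0 hμ 0
    have e3 : 256 / κ * ((∫ y in closedBall x r0, f y) / r0) ≤ 256 / κ * (4 * K) :=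
      mul_le_mul_of_nonneg_left e1 (by positivity)
    have hc1 : c ≤ 1 := by rw [hcd]; linarith
    have e4 : 4 * (c * η) ≤ 4 := by
      have := mul_le_one₀ hc1 hη.le hη1
      linarith
    have e5 : 128 / κ * am r0 x m 0 ≤ 128 / κ * 4 :=
      mul_le_mul_of_nonneg_left (e2.trans e4) (by positivity)
    rw [hK']
    have e6 : 256 / κ * (4 * K) = 1024 / κ * K := by ring
    have e7 : 128 / κ * 4 = 512 / κ := by ring
    linarith
  obtain ⟨k, hk, hdiff⟩ : ∃ k < N₁, AA κ ρ R g x W m (rk r0 k) - AA κ ρ R g x W m (rk r0 (k + 1))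
      ≤ K' / N₁ := by
    by_contra hcon
    push Not at hcon
    have hN1' : (0 : ℝ) < N₁ := by exact_mod_cast hN₁0
    have e1 : ∑ k ∈ Finset.range N₁, K' / (N₁ : ℝ) < ∑ k ∈ Finset.range N₁,
        (AA κ ρ R g x W m (rk r0 k) - AA κ ρ R g x W m (rk r0 (k + 1))) :=
      Finset.sum_lt_sum_of_nonempty (Finset.nonempty_range_iff.2 hN₁0.ne')
        fun k hk => hcon k (Finset.mem_range.1 hk)
    rw [Finset.sum_range_sub', Finset.sum_const, Finset.card_range, nsmul_eq_mul,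
      mul_div_cancel₀ _ hN1'.ne', rk_zero] at e1
    have e2 := AA_nn h hκ hρ (rk_pos h0 N₁)
    linarith
  refine ⟨k, by omega, fun s hs1 hs2 => ?_⟩
  rw [← hr0d] at hs1 hs2 ⊢
  have hrke : (1 / 256 : ℝ) ^ k * r0 = rk r0 k := rfl
  rw [hrke] at hs1 hs2 ⊢
  have hrk := rk_pos h0 k
  have hcle : c ≤ κ ^ 2 / 2 ^ 45 := hcd.le
  constructor
  · obtain ⟨z, hz, hu⟩ := mid_point h hκ hκ1 hρ h0 hr0R hη hcle hμ hconc hN hk hs1 hs2
    refine ⟨z, hz, ?_⟩
    have hρk : ρ ≤ rk r0 k / 64 := by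
      have e1 := hN.trans (rk_anti h0 hk.le)
      have e2 : 128 * ρ ≤ 128 / κ * ρ := by
        apply mul_le_mul_of_nonneg_right _ hρ.le
        rw [le_div_iff₀ hκ]
        linarith
      linarith
    have h1 := tfL h hκ hκ1 hρ hrk ((rk_le h0 k).trans hr0R) hρk hs1 hs2 hz hu
    rw [← rk_succ] at h1
    have h2 := am_le h h0 hμ' k
    rw [am_mul h0] at h1
    have h3 : 1024 / κ * (am r0 x m k * rk r0 k) ≤ τ / 2 * rk r0 k := by
      have e1 : 1024 / κ * (am r0 x m k * rk r0 k) ≤ 1024 / κ * (4 * (c * η * τ) * rk r0 k) := by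
        apply mul_le_mul_of_nonneg_left _ (by positivity)
        exact mul_le_mul_of_nonneg_right h2 hrk.le
      have e2 : 1024 / κ * (4 * (c * η * τ) * rk r0 k) = κ * η / 2 ^ 33 * (τ * rk r0 k) := by
        rw [hcd]
        field_simp
        ring
      have e3 : κ * η / 2 ^ 33 ≤ 1 / 2 := by
        have := mul_le_one₀ hκ1 hη.le hη1
        linarith
      have e4 := mul_le_mul_of_nonneg_right e3 (show 0 ≤ τ * rk r0 k by positivity)
      linarith
    have h4 : rk r0 k / 512 * (AA κ ρ R g x W m (rk r0 k) - AA κ ρ R g x W m (rk r0 (k + 1)))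
        ≤ τ / 2 * rk r0 k := by
      have e1 : rk r0 k / 512 * (AA κ ρ R g x W m (rk r0 k) - AA κ ρ R g x W m (rk r0 (k + 1)))
          ≤ rk r0 k / 512 * (K' / N₁) := mul_le_mul_of_nonneg_left hdiff (by positivity)
      have hN1' : (0 : ℝ) < N₁ := by exact_mod_cast hN₁0
      have e2 : K' / N₁ ≤ 256 * τ := by
        rw [div_le_iff₀ hN1']
        rw [div_lt_iff₀ (by positivity)] at hN₁
        linarith
      have e3 : rk r0 k / 512 * (K' / N₁) ≤ rk r0 k / 512 * (256 * τ) :=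
        mul_le_mul_of_nonneg_left e2 (by positivity)
      linarith
    linarith
  · intro w hw hws
    have h1 := shell_low h hκ hκ1 hρ h0 hr0R hη hcle hμ hconc hN hk hs1 hs2 hw hws
    have h2 : ∫ y in Shell x s w ∩ {y | 0 < uu κ ρ g x y}, f y ≤ ∫ y in Shell x s w, f y := by
      have hsub : Shell x s w ⊆ closedBall x R := by
        intro y hy
        have hy' : |‖y - x‖ - s| ≤ w := hy
        rw [mem_closedBall, dist_eq_norm]
        have := (rk_le h0 k).trans hr0R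
        linarith [(abs_le.1 hy').2]
      refine setIntegral_mono_set ((int_cube h.fc x R).mono_set hsub) ?_
        inter_subset_left.eventuallyLE
      filter_upwards [ae_restrict_mem (shell_meas x s w)] with y hy
      exact f_nn h (hsub hy)
    have h3 : c * η * w ≤ κ * η / 2 ^ 27 * w := by
      apply mul_le_mul_of_nonneg_right _ hw.le
      rw [hcd]
      have e1 : κ ^ 2 * η ≤ κ * η := mul_le_mul_of_nonneg_right hκ2 hη.le
      have e2 : 0 < κ * η := by positivity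
      have e3 : κ ^ 2 / 2 ^ 45 * η = κ ^ 2 * η / 2 ^ 45 := by ring
      rw [e3]
      linarith
    linarith

end Pool.Agent.U481.VL
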