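import Pool.Agent.Q85.VL.Defs
import Pool.Agent.Q128.CC.Ana

/-!
Analytic continuation along the surface of a cube.
-/

set_option autoImplicit false

open MeasureTheory Set Metric
open scoped ContDiff
open H459R3.NS Pool.Agent.W268.NS Pool.Agent.Q67.VD

namespace Pool.Agent.U481.VL.AnaS

open Pool.Agent.Q85.CC Pool.Agent.Q85.CL Pool.Agent.Q151.CC Pool.Agent.Q85.VL Pool.Agent.Q128.CC

/-- the vorticity is small in a cube -/
def Sml (v : V → V) (r β ρ : ℝ) (p : V) : Prop := ∀ i j : Fin 3, Idx i j →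
  ∀ y ∈ closedBall p (ρ * r), r ^ 2 * |cur i j v y| ≤ β

theorem Sml.mono {v : V → V} {r β β' ρ ρ' : ℝ} {p p' : V} (h : Sml v r β ρ p) (hβ : β ≤ β')
    (hp : ‖p' - p‖ + ρ' * r ≤ ρ * r) : Sml v r β' ρ' p' := by
  intro i j hij y hy
  refine (h i j hij y ?_).trans hβ
  rw [mem_closedBall, dist_eq_norm] at hy ⊢
  have e : y - p = (y - p') + (p' - p) := by abel
  rw [e]
  exact (norm_add_le _ _).trans (by linarith)

theorem exists_dir (p y : V) (r L : ℝ) (hr : 0 < r) (hL : 3 * ‖y - p‖ ^ 2 ≤ (r * L) ^ 2)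
    (hL0 : 0 ≤ L) : ∃ (d : V) (t : ℝ), d ⬝ᵥ d = 1 ∧ 0 ≤ t ∧ t ≤ L ∧ y = p + (r * t) • d := by
  obtain ⟨u, hu⟩ : ∃ u, u = y - p := ⟨_, rfl⟩
  rw [← hu] at hL
  have hy : y = p + u := by rw [hu]; abel
  by_cases h : u ⬝ᵥ u = 0
  · refine ⟨Pi.single 0 1, 0, ?_, le_rfl, hL0, ?_⟩
    · simp
    · have h2 : u = 0 := dotProduct_self_eq_zero.1 h
      rw [hy, h2]
      simp
  · have hu0 : 0 ≤ u ⬝ᵥ u := dotProduct_self_star_nonneg u
    have hpos : 0 < u ⬝ᵥ u := lt_of_le_of_ne hu0 (Ne.symm h)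
    obtain ⟨q, hq⟩ : ∃ q, q = √(u ⬝ᵥ u) := ⟨_, rfl⟩
    have hq0 : 0 < q := by rw [hq]; exact Real.sqrt_pos.2 hpos
    have hq2 : q ^ 2 = u ⬝ᵥ u := by rw [hq]; exact Real.sq_sqrt hpos.le
    refine ⟨q⁻¹ • u, q / r, ?_, by positivity, ?_, ?_⟩
    · rw [dotProduct_smul, smul_dotProduct, ← hq2, smul_eq_mul, smul_eq_mul]
      field_simp
    · rw [div_le_iff₀ hr]
      have h1 : q ^ 2 ≤ (r * L) ^ 2 := by
        rw [hq2]
        exact (dot_self_le u).trans hL
      have h2 : q ≤ r * L := le_of_sq_le_sq h1 (by positivity)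
      linarith
    · rw [hy, smul_smul]
      have : r * (q / r) * q⁻¹ = 1 := by field_simp
      rw [this, one_smul]

theorem ballStep (c h b : ℝ) (hc : 1 ≤ c) (hh : 0 < h) (hb : 0 < b) (hbh : b ≤ h / 2) (ε : ℝ)
    (hε : 0 < ε) : ∃ β : ℝ, 0 < β ∧ ∀ (v : V → V) (p : V) (r : ℝ),
      (∀ i, ContDiff ℝ ∞ (fun y => v y i)) → 0 < r → Gd c (h * r) v p → Sml v r β b p →
        Sml v r ε (h / 2) p := by
  obtain ⟨β, hβ, hcont⟩ := cont (c / h ^ 2) (c / h) b (9 / 10 * h) (by positivity)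
    (by positivity) hb (by linarith) ε hε
  refine ⟨β, hβ, ?_⟩
  intro v p r hv hr hG hS i j hij y hy
  rw [mem_closedBall, dist_eq_norm] at hy
  obtain ⟨d, t, hd, ht0, ht, hyt⟩ := exists_dir p y r (9 / 10 * h) hr (by
    have h0 := norm_nonneg (y - p)
    have h1 : ‖y - p‖ ^ 2 ≤ (h / 2 * r) ^ 2 := pow_le_pow_left₀ h0 hy 2
    have h2 : 0 ≤ (h * r) ^ 2 := by positivity
    nlinarith) (by positivity)
  have hf := cur_smooth hv i j
  have hmem : ∀ T : ℝ, 0 ≤ T → ‖(p + (r * T) • d) - p‖ ≤ r * T := by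
    intro T hT
    rw [add_sub_cancel_left, norm_smul, Real.norm_eq_abs, abs_of_nonneg (by positivity)]
    calc r * T * ‖d‖ ≤ r * T * 1 := mul_le_mul_of_nonneg_left (unit_norm_le hd) (by positivity)
      _ = r * T := mul_one _
  have h1 := hcont (ch (cur i j v) p d r) (ch_chain hf _ _ r)
    (fun n T hT => ?_) (fun T hT => ?_) t ⟨ht0, ht⟩
  · unfold ch at h1
    rw [← hyt] at h1
    simp only [Function.iterate_zero, id_eq, zero_add] at h1
    rwa [abs_mul, abs_of_pos (by positivity : (0 : ℝ) < r ^ 2)] at h1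
  · have h3 : p + (r * T) • d ∈ ball p (h * r) := by
      rw [Metric.mem_ball, dist_eq_norm]
      refine lt_of_le_of_lt (hmem T hT.1) ?_
      have h4 : r * T ≤ r * (9 / 10 * h) := mul_le_mul_of_nonneg_left hT.2 hr.le
      have h5 : 0 < h * r := by positivity
      linarith
    have h4 := (dd_iter_sq d hd n (cur i j v) hf _).trans (hG _ h3 n i j)
    have h5 : |(dd d)^[n] (cur i j v) (p + (r * T) • d)| ≤
        c ^ (n + 1) * n.factorial / (h * r) ^ (n + 2) :=
      abs_le_of_sq_le_sq h4 (by positivity)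
    unfold ch
    rw [abs_mul, abs_of_pos (by positivity : (0 : ℝ) < r ^ (n + 2))]
    refine (mul_le_mul_of_nonneg_left h5 (by positivity)).trans (le_of_eq ?_)
    rw [mul_pow, div_pow]
    field_simp
    ring
  · unfold ch
    simp only [Function.iterate_zero, id_eq, zero_add]
    rw [abs_mul, abs_of_pos (by positivity : (0 : ℝ) < r ^ 2)]
    refine hS i j hij _ ?_
    rw [mem_closedBall, dist_eq_norm]
    refine (hmem T hT.1).trans ?_
    have h4 : r * T ≤ r * b := mul_le_mul_of_nonneg_left hT.2 hr.le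
    linarith

/-- `M` steps -/
theorem steps' (c h : ℝ) (hc : 1 ≤ c) (hh : 0 < h) (M : ℕ) : ∀ ε : ℝ, 0 < ε →
    ∃ β : ℝ, 0 < β ∧ ∀ (v : V → V) (p : ℕ → V) (r : ℝ),
      (∀ i, ContDiff ℝ ∞ (fun y => v y i)) → 0 < r → (∀ n ≤ M, Gd c (h * r) v (p n)) →
      (∀ n < M, ‖p (n + 1) - p n‖ ≤ h / 4 * r) → Sml v r β (h / 4) (p 0) →
        Sml v r ε (h / 4) (p M) := by
  induction M with
  | zero => exact fun ε hε => ⟨ε, hε, fun v p r _ _ _ _ h => h⟩
  | succ M ih =>
    intro ε hε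
    obtain ⟨β₁, hβ₁, h1⟩ := ballStep c h (h / 4) hc hh (by positivity) (by linarith) ε hε
    obtain ⟨β, hβ, h2⟩ := ih β₁ hβ₁
    refine ⟨β, hβ, fun v p r hv hr hG hp hS => ?_⟩
    have h3 := h2 v p r hv hr (fun n hn => hG n (by omega)) (fun n hn => hp n (by omega)) hS
    have h4 := h1 v (p M) r hv hr (hG M (by omega)) h3
    refine h4.mono le_rfl ?_
    have := hp M (by omega)
    linarith

/-- a straight segment -/
theorem segm (c h : ℝ) (hc : 1 ≤ c) (hh : 0 < h) (ε : ℝ) (hε : 0 < ε) :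
    ∃ β : ℝ, 0 < β ∧ ∀ (v : V → V) (p d : V) (r : ℝ),
      (∀ i, ContDiff ℝ ∞ (fun y => v y i)) → 0 < r → ‖d‖ ≤ r →
      (∀ t ∈ Icc (0 : ℝ) 1, Gd c (h * r) v (p + t • d)) → Sml v r β (h / 4) p →
        Sml v r ε (h / 4) (p + d) := by
  obtain ⟨M, hM⟩ := exists_nat_gt (4 / h)
  have hM0 : (0 : ℝ) < M := lt_trans (by positivity) hM
  obtain ⟨β, hβ, h1⟩ := steps' c h hc hh M ε hε
  refine ⟨β, hβ, fun v p d r hv hr hd hG hS => ?_⟩
  have h2 := h1 v (fun n => p + ((n : ℝ) / M) • d) r hv hr (fun n hn => hG _ ⟨by positivity, by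
    rw [div_le_one hM0]
    exact_mod_cast hn⟩) (fun n hn => ?_) (by simpa using hS)
  · rw [div_self hM0.ne', one_smul] at h2
    exact h2
  · have e : p + (((n + 1 : ℕ) : ℝ) / M) • d - (p + ((n : ℝ) / M) • d) = ((1 : ℝ) / M) • d := by
      rw [add_sub_add_left_eq_sub, ← sub_smul]
      congr 1
      push_cast
      ring
    rw [e, norm_smul, Real.norm_eq_abs, abs_of_pos (by positivity)]
    have h3 : 1 / (M : ℝ) ≤ h / 4 := by
      rw [div_le_iff₀ hM0]
      rw [div_lt_iff₀ hh] at hM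
      linarith
    exact mul_le_mul h3 hd (norm_nonneg _) (by positivity)

/-- a move along a coordinate on the surface of a cube -/
theorem move (c h : ℝ) (hc : 1 ≤ c) (hh : 0 < h) (ε : ℝ) (hε : 0 < ε) :
    ∃ β : ℝ, 0 < β ∧ ∀ (v : V → V) (x u : V) (r s a : ℝ) (j k : Fin 3),
      (∀ i, ContDiff ℝ ∞ (fun y => v y i)) → 0 < r → 0 ≤ s → s ≤ r / 2 →
      (∀ y, ‖y - x‖ = s → Gd c (h * r) v y) → j ≠ k → |u j| = s → ‖u‖ ≤ s → |a| ≤ s →
      Sml v r β (h / 4) (x + u) → Sml v r ε (h / 4) (x + Function.update u k a) := by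
  obtain ⟨β, hβ, h1⟩ := segm c h hc hh ε hε
  refine ⟨β, hβ, fun v x u r s a j k hv hr hs hsr hG hjk huj hus ha hS => ?_⟩
  have hco : ∀ i, |u i| ≤ s := fun i => (abs_coord_le u i).trans hus
  have e1 : x + u + Pi.single k (a - u k) = x + Function.update u k a := by
    rw [add_assoc]
    congr 1
    funext i
    by_cases hi : i = k
    · subst hi
      simp
    · simp [hi]
  have h2 := h1 v (x + u) (Pi.single k (a - u k)) r hv hr ?_ (fun t ht => hG _ ?_) hS
  · rwa [e1] at h2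
  · rw [Pi.norm_single, Real.norm_eq_abs]
    have := abs_sub a (u k)
    linarith [hco k]
  · have e2 : x + u + t • (Pi.single k (a - u k) : V) - x
        = Function.update u k ((1 - t) * u k + t * a) := by
      funext i
      by_cases hi : i = k
      · subst hi
        simp
        ring
      · simp [hi]
    rw [e2]
    refine le_antisymm ?_ ?_
    · rw [pi_norm_le_iff_of_nonneg hs]
      intro i
      by_cases hi : i = k
      · subst hi
        rw [Function.update_self, Real.norm_eq_abs]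
        refine (abs_add_le _ _).trans ?_
        rw [abs_mul, abs_mul, abs_of_nonneg ht.1, abs_of_nonneg (sub_nonneg.2 ht.2)]
        have e3 := mul_le_mul_of_nonneg_left (hco i) (sub_nonneg.2 ht.2)
        have e4 := mul_le_mul_of_nonneg_left ha ht.1
        linarith
      · rw [Function.update_of_ne hi, Real.norm_eq_abs]
        exact hco i
    · have h3 := norm_le_pi_norm (Function.update u k ((1 - t) * u k + t * a)) j
      rwa [Function.update_of_ne hjk, Real.norm_eq_abs, huj] at h3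

/-- from a point of the surface to the corner and back -/
theorem corner (c h : ℝ) (hc : 1 ≤ c) (hh : 0 < h) (ε : ℝ) (hε : 0 < ε) :
    ∃ β : ℝ, 0 < β ∧ ∀ (v : V → V) (x : V) (r s : ℝ),
      (∀ i, ContDiff ℝ ∞ (fun y => v y i)) → 0 < r → 0 ≤ s → s ≤ r / 2 →
      (∀ y, ‖y - x‖ = s → Gd c (h * r) v y) → ∀ u : V, ‖u‖ = s →
      (Sml v r β (h / 4) (x + u) → Sml v r ε (h / 4) (x + fun _ => s)) ∧
      (Sml v r β (h / 4) (x + fun _ => s) → Sml v r ε (h / 4) (x + u)) := by
  obtain ⟨β₁, hβ₁, h1⟩ := move c h hc hh ε hε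
  obtain ⟨β₂, hβ₂, h2⟩ := move c h hc hh β₁ hβ₁
  obtain ⟨β₃, hβ₃, h3⟩ := move c h hc hh β₂ hβ₂
  refine ⟨β₃, hβ₃, fun v x r s hv hr hs hsr hG u hu => ?_⟩
  obtain ⟨i, hi⟩ : ∃ i, |u i| = s := by
    obtain ⟨i, hi⟩ := (Finite.exists_max fun i => ‖u i‖)
    refine ⟨i, le_antisymm ((abs_coord_le u i).trans hu.le) ?_⟩
    rw [← hu, pi_norm_le_iff_of_nonneg (abs_nonneg _)]
    exact fun j => by simpa using hi j
  obtain ⟨j, k, hij, hik, hjk, hall⟩ : ∃ j k : Fin 3, i ≠ j ∧ i ≠ k ∧ j ≠ k ∧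
      ∀ l, l = i ∨ l = j ∨ l = k := by
    fin_cases i
    · exact ⟨1, 2, by decide, by decide, by decide, by decide⟩
    · exact ⟨0, 2, by decide, by decide, by decide, by decide⟩
    · exact ⟨0, 1, by decide, by decide, by decide, by decide⟩
  have hco : ∀ i, |u i| ≤ s := fun i => (abs_coord_le u i).trans hu.le
  have hss : |s| = s := abs_of_nonneg hs
  -- the three points
  obtain ⟨u₁, hu₁⟩ : ∃ u₁, u₁ = Function.update u j s := ⟨_, rfl⟩
  obtain ⟨u₂, hu₂⟩ : ∃ u₂, u₂ = Function.update u₁ i s := ⟨_, rfl⟩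
  obtain ⟨u₃, hu₃⟩ : ∃ u₃, u₃ = Function.update u₂ k s := ⟨_, rfl⟩
  have n1 : ‖u₁‖ ≤ s := by
    rw [pi_norm_le_iff_of_nonneg hs]
    intro l
    rw [hu₁]
    by_cases hl : l = j
    · subst hl
      rw [Function.update_self, Real.norm_eq_abs, hss]
    · rw [Function.update_of_ne hl, Real.norm_eq_abs]
      exact hco l
  have n2 : ‖u₂‖ ≤ s := by
    rw [pi_norm_le_iff_of_nonneg hs]
    intro l
    rw [hu₂]
    by_cases hl : l = i
    · subst hl
      rw [Function.update_self, Real.norm_eq_abs, hss]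
    · rw [Function.update_of_ne hl]
      exact (norm_le_pi_norm u₁ l).trans n1
  have e3 : u₃ = fun _ => s := by
    funext l
    rw [hu₃, hu₂, hu₁]
    rcases hall l with rfl | rfl | rfl
    · rw [Function.update_of_ne hik, Function.update_self]
    · rw [Function.update_of_ne hjk, Function.update_of_ne (Ne.symm hij), Function.update_self]
    · rw [Function.update_self]
  have n3 : ‖u₃‖ ≤ s := by
    rw [e3, pi_norm_le_iff_of_nonneg hs]
    intro l
    rw [Real.norm_eq_abs, hss]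
  have a1 : |u₁ j| = s := by rw [hu₁, Function.update_self, hss]
  have a2 : |u₂ j| = s := by rw [hu₂, Function.update_of_ne (Ne.symm hij), a1]
  have a3 : |u₃ j| = s := by rw [e3, hss]
  have b3 : u₂ = Function.update u₃ k (u₂ k) := by
    rw [hu₃, Function.update_idem, Function.update_eq_self]
  have b2 : u₁ = Function.update u₂ i (u₁ i) := by
    rw [hu₂, Function.update_idem, Function.update_eq_self]
  have b1 : u = Function.update u₁ j (u j) := by
    rw [hu₁, Function.update_idem, Function.update_eq_self]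
  rw [← e3]
  refine ⟨fun h0 => ?_, fun h0 => ?_⟩
  · have g1 := h3 v x u r s s i j hv hr hs hsr hG hij hi hu.le hss.le h0
    rw [← hu₁] at g1
    have g2 := h2 v x u₁ r s s j i hv hr hs hsr hG (Ne.symm hij) a1 n1 hss.le g1
    rw [← hu₂] at g2
    have g3 := h1 v x u₂ r s s j k hv hr hs hsr hG hjk a2 n2 hss.le g2
    rw [← hu₃] at g3
    exact g3
  · have g1 := h3 v x u₃ r s (u₂ k) j k hv hr hs hsr hG hjk a3 n3
      ((abs_coord_le u₂ k).trans n2) h0
    rw [← b3] at g1
    have g2 := h2 v x u₂ r s (u₁ i) j i hv hr hs hsr hG (Ne.symm hij) a2 n2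
      ((abs_coord_le u₁ i).trans n1) g1
    rw [← b2] at g2
    have hi1 : |u₁ i| = s := by rw [hu₁, Function.update_of_ne hij, hi]
    have g3 := h1 v x u₁ r s (u j) i j hv hr hs hsr hG hij hi1 n1 (hco j) g2
    rw [← b1] at g3
    exact g3

/-- the start: a small integral near a good point -/
theorem start (c h b β : ℝ) (hc : 1 ≤ c) (hh : 0 < h) (hb : 0 < b) (hbh : b ≤ h) (hβ : 0 < β) :
    ∃ τ : ℝ, 0 < τ ∧ ∀ (v : V → V) (z : V) (r : ℝ), (∀ i, ContDiff ℝ ∞ (fun y => v y i)) →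
      0 < r → Gd c (h * r) v z → ∫ y in closedBall z (b * r), om v y ≤ τ * r →
        Sml v r β (b / 2) z := by
  obtain ⟨δ, hδ⟩ : ∃ δ : ℝ, δ = min (b / 4) (β * h ^ 3 / (6 * c ^ 2)) := ⟨_, rfl⟩
  have hδ1 : δ ≤ b / 4 := by rw [hδ]; exact min_le_left _ _
  have hδ2 : δ ≤ β * h ^ 3 / (6 * c ^ 2) := by rw [hδ]; exact min_le_right _ _
  have hδ0 : 0 < δ := by
    rw [hδ]
    exact lt_min (by positivity) (by positivity)
  refine ⟨β * δ ^ 3, by positivity, fun v z r hv hr hG hint i j hij y hy => ?_⟩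
  by_contra hcon
  push Not at hcon
  rw [mem_closedBall, dist_eq_norm] at hy
  have hyb : y ∈ ball z (h * r) := by
    rw [Metric.mem_ball, dist_eq_norm]
    have h1 : b / 2 * r < h * r := mul_lt_mul_of_pos_right (by linarith) hr
    linarith
  have hsub : closedBall y (δ * r) ⊆ closedBall z (b * r) := by
    intro w hw
    rw [mem_closedBall, dist_eq_norm] at hw ⊢
    have e : w - z = (w - y) + (y - z) := by abel
    rw [e]
    refine (norm_add_le _ _).trans ?_
    have h1 : δ * r ≤ b / 4 * r := mul_le_mul_of_nonneg_right hδ1 hr.le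
    have h2 : 0 < b * r := by positivity
    linarith
  have hlow : ∀ w ∈ closedBall y (δ * r), β / (2 * r ^ 2) ≤ om v w := by
    intro w hw
    have hwb : w ∈ ball z (h * r) := by
      have h1 := hsub hw
      rw [mem_closedBall, dist_eq_norm] at h1 hw
      rw [Metric.mem_ball, dist_eq_norm]
      have e : w - z = (w - y) + (y - z) := by abel
      rw [e]
      refine lt_of_le_of_lt (norm_add_le _ _) ?_
      have h3 : δ * r ≤ b / 4 * r := mul_le_mul_of_nonneg_right hδ1 hr.le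
      have h4 : b * r ≤ h * r := mul_le_mul_of_nonneg_right hbh hr.le
      have h5 : 0 < b * r := by positivity
      linarith
    rw [mem_closedBall, dist_eq_norm] at hw
    have h1 := cur_lip hv hc (by positivity) hG hyb hwb i j
    have h2 : 3 * (c ^ 2 / (h * r) ^ 3) * ‖w - y‖ ≤ β / (2 * r ^ 2) := by
      calc 3 * (c ^ 2 / (h * r) ^ 3) * ‖w - y‖ ≤ 3 * (c ^ 2 / (h * r) ^ 3) * (δ * r) :=
            mul_le_mul_of_nonneg_left hw (by positivity)
        _ = 3 * c ^ 2 / (h ^ 3 * r ^ 2) * δ := by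
            field_simp
        _ ≤ 3 * c ^ 2 / (h ^ 3 * r ^ 2) * (β * h ^ 3 / (6 * c ^ 2)) :=
            mul_le_mul_of_nonneg_left hδ2 (by positivity)
        _ = β / (2 * r ^ 2) := by
            field_simp
            ring
    have h3 : β / r ^ 2 < |cur i j v y| := by
      rw [div_lt_iff₀ (by positivity)]
      linarith
    have h4 := abs_sub_abs_le_abs_sub (cur i j v y) (cur i j v w)
    rw [abs_sub_comm] at h4
    have h5 := cur_le_om v w hij
    have h6 : β / r ^ 2 = 2 * (β / (2 * r ^ 2)) := by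
      field_simp
    linarith
  have hcont := om_cont' hv
  have hInt : IntegrableOn (om v) (closedBall z (b * r)) :=
    hcont.continuousOn.integrableOn_compact (isCompact_closedBall _ _)
  have h1 : ∫ w in closedBall y (δ * r), om v w ≤ ∫ y in closedBall z (b * r), om v y :=
    setIntegral_mono_set hInt (Filter.Eventually.of_forall fun z => om_nonneg' v z)
      (Filter.Eventually.of_forall hsub)
  have hfin : volume (closedBall y (δ * r)) ≠ ⊤ := measure_closedBall_lt_top.ne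
  have h2 : β / (2 * r ^ 2) * (volume (closedBall y (δ * r))).toReal
      ≤ ∫ w in closedBall y (δ * r), om v w := by
    have h3 : ∫ _ in closedBall y (δ * r), β / (2 * r ^ 2) ≤ ∫ w in closedBall y (δ * r), om v w :=
      setIntegral_mono_on (integrableOn_const hfin) (hInt.mono_set hsub)
        isClosed_closedBall.measurableSet hlow
    rw [setIntegral_const, smul_eq_mul] at h3
    rw [mul_comm]
    exact h3
  have h3 : (volume (closedBall y (δ * r))).toReal = (2 * (δ * r)) ^ 3 := by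
    rw [Real.volume_pi_closedBall y (by positivity), ENNReal.toReal_ofReal (by positivity)]
    simp
  rw [h3] at h2
  have h4 : β / (2 * r ^ 2) * (2 * (δ * r)) ^ 3 = 4 * (β * δ ^ 3 * r) := by
    field_simp
    ring
  have h5 : 0 < β * δ ^ 3 * r := by positivity
  linarith

/-- **VL-10.** -/
theorem anaS : StmAnaS := by
  intro c h ε b hc hh hh1 hε hb
  obtain ⟨β₁, hβ₁, h1⟩ := corner c h hc hh (ε / 3) (by positivity)
  obtain ⟨β₂, hβ₂, h2⟩ := corner c h hc hh β₁ hβ₁
  obtain ⟨b', hb'⟩ : ∃ b' : ℝ, b' = min b h := ⟨_, rfl⟩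
  have hb'0 : 0 < b' := by rw [hb']; exact lt_min hb hh
  have hb'b : b' ≤ b := by rw [hb']; exact min_le_left _ _
  have hb'h : b' ≤ h := by rw [hb']; exact min_le_right _ _
  obtain ⟨β₃, hβ₃, h3⟩ := ballStep c h (b' / 2) hc hh (by positivity) (by linarith) β₂ hβ₂
  obtain ⟨τ, hτ, h4⟩ := start c h b' β₃ hc hh hb'0 hb'h hβ₃
  refine ⟨τ, min (h / 4) (1 / 128), hτ, lt_min (by positivity) (by norm_num),
    (min_le_left _ _).trans (by linarith), ?_⟩
  intro v x z r s hv hr hs1 hs2 hG hz hint y hy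
  have hv' : ∀ i, ContDiff ℝ ∞ (fun y => v y i) := hv
  have hs0 : 0 < s := lt_of_lt_of_le (by positivity) hs1
  have hGz := hG z hz
  have hint' : ∫ y in closedBall z (b' * r), om v y ≤ τ * r := by
    refine le_trans (setIntegral_mono_set ?_ (Filter.Eventually.of_forall fun z => om_nonneg' v z)
      (Filter.Eventually.of_forall (closedBall_subset_closedBall ?_))) hint
    · exact (om_cont' hv').continuousOn.integrableOn_compact (isCompact_closedBall _ _)
    · exact mul_le_mul_of_nonneg_right hb'b hr.le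
  have g1 := h4 v z r hv' hr hGz hint'
  have g2 := h3 v z r hv' hr hGz g1
  have g3 : Sml v r β₂ (h / 4) (x + (z - x)) := by
    rw [add_sub_cancel]
    refine g2.mono le_rfl ?_
    rw [sub_self, norm_zero, zero_add]
    exact mul_le_mul_of_nonneg_right (by linarith) hr.le
  have g4 := (h2 v x r s hv' hr hs0.le (by linarith) hG (z - x) hz).1 g3
  -- the point of the surface
  have hyr : |‖y - x‖ - s| ≤ 1 / 128 * r :=
    hy.trans (mul_le_mul_of_nonneg_right (min_le_right _ _) hr.le)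
  have hyr' := abs_le.1 hyr
  have hn : 0 < ‖y - x‖ := by linarith
  obtain ⟨u, hu⟩ : ∃ u : V, u = (s / ‖y - x‖) • (y - x) := ⟨_, rfl⟩
  have hus : ‖u‖ = s := by
    rw [hu, norm_smul, Real.norm_eq_abs, abs_of_pos (by positivity)]
    field_simp
  have g5 := (h1 v x r s hv' hr hs0.le (by linarith) hG u hus).2 g4
  have hyu : y ∈ closedBall (x + u) (h / 4 * r) := by
    rw [mem_closedBall, dist_eq_norm]
    have e : y - (x + u) = ((‖y - x‖ - s) / ‖y - x‖) • (y - x) := by
      rw [hu, sub_div, sub_smul, div_self hn.ne', one_smul]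
      abel
    rw [e, norm_smul, Real.norm_eq_abs, abs_div, abs_of_pos hn, div_mul_cancel₀ _ hn.ne']
    exact hy.trans (mul_le_mul_of_nonneg_right (min_le_left _ _) hr.le)
  have hkey : ∀ i j : Fin 3, Idx i j → |cur i j v y| ≤ ε / (3 * r ^ 2) := by
    intro i j hij
    have h5 := g5 i j hij y hyu
    rw [le_div_iff₀ (by positivity)]
    linarith
  have h6 := om_le_sum v y (ε / (3 * r ^ 2)) (hkey 1 2 (Or.inl ⟨rfl, rfl⟩))
    (hkey 2 0 (Or.inr (Or.inl ⟨rfl, rfl⟩))) (hkey 0 1 (Or.inr (Or.inr ⟨rfl, rfl⟩)))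
  refine h6.trans (le_of_eq ?_)
  field_simp

end Pool.Agent.U481.VL.AnaS
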