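import Pool.Agent.Q85.VL.Assem
import Pool.Agent.Q85.CL.All
import Pool.Agent.U481.VL.Pin
import Pool.Agent.U481.VL.AnaS
import Pool.Agent.U481.VL.GoodS

/-!
The local theorem of the project VL, without hypotheses.
-/

set_option autoImplicit false

namespace Pool.Agent.U481.VL

open Pool.Agent.Q85.VL Pool.Agent.Q85.CL

theorem lyapT : StmLyap :=
  lyap Pool.Agent.Q284.CL.velL stmEnL stmEnS Pool.Agent.Q95.CL.regK Pool.Agent.Q81.CL.l1L
    GdS.goodS AnaS.anaS morV pinV ks

end Pool.Agent.U481.VL
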