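import Pool.Agent.U481.VL.Bas
import Pool.Agent.Q151.CC.Double

/-!
For an orientation of the vorticity the oriented field is weakly free of divergence.
-/

set_option autoImplicit false

open MeasureTheory Set Metric Filter Topology
open scoped ContDiff
open H459R3.NS Pool.Agent.W268.NS Pool.Agent.Q67.VD

namespace Pool.Agent.U481.VL.WdP

open Pool.Agent.Q85.CC Pool.Agent.Q85.CL Pool.Agent.Q151.CC Pool.Agent.Q85.VL

/-- the orientation is locally constant -/
lemma theta_loc {θ : V → ℝ} {a : V} {R : ℝ} {z : V → V} (hz : Continuous z)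
    (hθ : Orient θ a R z) {y : V} (hy : ‖y - a‖ ≤ R) (h0 : z y ≠ 0) :
    ∀ᶠ w in 𝓝 y, ‖w - a‖ ≤ R → θ w = θ y := by
  have h1 : ContinuousWithinAt θ {y | ‖y - a‖ ≤ R ∧ z y ≠ 0} y := hθ.2 y ⟨hy, h0⟩
  have h2 : ∀ᶠ w in 𝓝[{y | ‖y - a‖ ≤ R ∧ z y ≠ 0}] y, |θ w - θ y| < 1 := by
    have h3 := Metric.tendsto_nhds.1 h1 1 one_pos
    filter_upwards [h3] with w hw
    rwa [Real.dist_eq] at hw
  rw [eventually_nhdsWithin_iff] at h2
  filter_upwards [h2, hz.continuousAt.eventually_ne h0] with w h4 h5 h6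
  have h7 := h4 ⟨h6, h5⟩
  rcases hθ.1 w with h8 | h8 <;> rcases hθ.1 y with h9 | h9 <;> rw [h8, h9] at h7 ⊢ <;>
    norm_num at h7

lemma abs_theta {θ : V → ℝ} {a : V} {R : ℝ} {z : V → V} (hθ : Orient θ a R z) (y : V) :
    |θ y| = 1 := by
  rcases hθ.1 y with h | h <;> rw [h] <;> simp

/-- the oriented field is continuous in the cube -/
lemma tf_contOn {θ : V → ℝ} {a : V} {R : ℝ} {z : V → V} (hz : Continuous z)
    (hθ : Orient θ a R z) : ContinuousOn (fun y => θ y • z y) (closedBall a R) := by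
  intro y hy
  by_cases h0 : z y = 0
  · have h2 : θ y • z y = 0 := by rw [h0, smul_zero]
    rw [ContinuousWithinAt, h2, tendsto_zero_iff_norm_tendsto_zero]
    have h3 : Tendsto (fun w => ‖z w‖) (𝓝[closedBall a R] y) (𝓝 0) := by
      have := (hz.norm.tendsto y).mono_left (nhdsWithin_le_nhds (s := closedBall a R))
      rwa [h0, norm_zero] at this
    refine squeeze_zero (fun w => norm_nonneg _) (fun w => ?_) h3
    rw [norm_smul, Real.norm_eq_abs, abs_theta hθ, one_mul]
  · rw [mem_closedBall, dist_eq_norm] at hy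
    have h1 := theta_loc hz hθ hy h0
    have h2 : ContinuousWithinAt (fun w => θ y • z w) (closedBall a R) y :=
      (hz.continuousAt.const_smul (θ y)).continuousWithinAt
    refine h2.congr_of_eventuallyEq ?_ rfl
    filter_upwards [mem_nhdsWithin_of_mem_nhds h1, self_mem_nhdsWithin] with w hw hw2
    rw [mem_closedBall, dist_eq_norm] at hw2
    show θ w • z w = θ y • z w
    rw [hw hw2]

/-- the square of the length of the vorticity -/
noncomputable def qv (v : V → V) (y : V) : ℝ :=
  vort v y 0 ^ 2 + vort v y 1 ^ 2 + vort v y 2 ^ 2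

/-- the bound of the derivatives -/
noncomputable def bd (v : V → V) (y : V) : ℝ :=
  ‖fderiv ℝ (fun y => vort v y 0) y‖ + ‖fderiv ℝ (fun y => vort v y 1) y‖
    + ‖fderiv ℝ (fun y => vort v y 2) y‖

variable {v : V → V}

lemma qv_smooth (hv : SM v) : ContDiff ℝ 1 (qv v) := by
  have h := (vort_df hv).smooth
  unfold qv
  exact (((h 0).pow 2).add ((h 1).pow 2)).add ((h 2).pow 2)

lemma bd_cont (hv : SM v) : Continuous (bd v) := by
  have h := (vort_df hv).smooth
  unfold bd
  exact (((h 0).continuous_fderiv one_ne_zero).norm.add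
    ((h 1).continuous_fderiv one_ne_zero).norm).add ((h 2).continuous_fderiv one_ne_zero).norm

lemma bd_nn (v : V → V) (y : V) : 0 ≤ bd v y := by
  unfold bd
  positivity

lemma norm_sq_le (v : V → V) (y : V) : ‖vort v y‖ ^ 2 ≤ qv v y := by
  have h1 := norm_le_len (vort v y)
  have h2 : vort v y ⬝ᵥ vort v y = qv v y := by
    rw [dot3]
    unfold qv
    ring
  rw [h2] at h1
  have h3 : 0 ≤ qv v y := by
    unfold qv
    positivity
  calc ‖vort v y‖ ^ 2 ≤ √(qv v y) ^ 2 := pow_le_pow_left₀ (norm_nonneg _) h1 2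
    _ = _ := Real.sq_sqrt h3

lemma qv_der (hv : SM v) (y : V) : |fderiv ℝ (qv v) y (vort v y)| ≤ 2 * (qv v y * bd v y) := by
  have h := (vort_df hv).smooth
  have d : ∀ i, HasFDerivAt (fun y => vort v y i) (fderiv ℝ (fun y => vort v y i) y) y := fun i =>
    ((h i).differentiable one_ne_zero y).hasFDerivAt
  have h1 : HasFDerivAt (qv v) _ y := (((d 0).pow 2).add ((d 1).pow 2)).add ((d 2).pow 2)
  rw [h1.fderiv]
  obtain ⟨n, hn⟩ : ∃ n, n = ‖vort v y‖ := ⟨_, rfl⟩
  have hn0 : 0 ≤ n := by rw [hn]; exact norm_nonneg _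
  have hk : ∀ i, |vort v y i * fderiv ℝ (fun y => vort v y i) y (vort v y)|
      ≤ qv v y * ‖fderiv ℝ (fun y => vort v y i) y‖ := by
    intro i
    rw [abs_mul]
    have e1 : |vort v y i| ≤ n := by
      rw [hn, ← Real.norm_eq_abs]
      exact norm_le_pi_norm _ i
    have e2 : |fderiv ℝ (fun y => vort v y i) y (vort v y)|
        ≤ ‖fderiv ℝ (fun y => vort v y i) y‖ * n := by
      rw [hn, ← Real.norm_eq_abs]
      exact ContinuousLinearMap.le_opNorm _ _
    calc _ ≤ n * (‖fderiv ℝ (fun y => vort v y i) y‖ * n) :=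
          mul_le_mul e1 e2 (abs_nonneg _) hn0
      _ = n ^ 2 * ‖fderiv ℝ (fun y => vort v y i) y‖ := by ring
      _ ≤ _ := by
        refine mul_le_mul_of_nonneg_right ?_ (norm_nonneg _)
        rw [hn]
        exact norm_sq_le v y
  have h0 := hk 0
  have h1 := hk 1
  have h2 := hk 2
  simp only [add_apply, smul_apply, smul_eq_mul, nsmul_eq_mul]
  unfold bd
  rw [abs_le] at h0 h1 h2 ⊢
  constructor <;> norm_num <;> nlinarith

/-- the cut-off function -/
noncomputable def cu (v : V → V) (δ : ℝ) (y : V) : ℝ := stp ((qv v y - δ ^ 2) / δ ^ 2)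

lemma cu_der (hv : SM v) (δ : ℝ) (y : V) :
    HasFDerivAt (cu v δ) ((stp' ((qv v y - δ ^ 2) / δ ^ 2)) • ((δ ^ 2)⁻¹ • fderiv ℝ (qv v) y))
      y := by
  have h1 := ((qv_smooth hv).differentiable one_ne_zero y).hasFDerivAt
  have h2 : HasFDerivAt (fun y => (qv v y - δ ^ 2) / δ ^ 2) ((δ ^ 2)⁻¹ • fderiv ℝ (qv v) y) y := by
    have h3 := (h1.sub_const (δ ^ 2)).mul_const ((δ ^ 2)⁻¹)
    exact h3
  exact (bas.1 _).comp_hasFDerivAt y h2

lemma cu_smooth (hv : SM v) (δ : ℝ) : ContDiff ℝ 1 (cu v δ) := by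
  unfold cu
  exact bas.2.1.comp (((qv_smooth hv).sub contDiff_const).div_const _)

lemma cu_mem (v : V → V) (δ : ℝ) (y : V) : 0 ≤ cu v δ y ∧ cu v δ y ≤ 1 :=
  ⟨(bas.2.2.2.2.1 _).1, (bas.2.2.2.2.1 _).2.1⟩

lemma cu_zero {δ : ℝ} (y : V) (h : qv v y ≤ δ ^ 2) : cu v δ y = 0 := by
  refine bas.2.2.2.2.2.1 _ ?_
  exact div_nonpos_of_nonpos_of_nonneg (by linarith) (by positivity)

lemma qv_zero {y : V} (h : vort v y = 0) : qv v y = 0 := by
  unfold qv
  rw [h]
  simp

lemma qv_pos {y : V} (h : vort v y ≠ 0) : 0 < qv v y := by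
  have h1 := norm_sq_le v y
  have h2 : 0 < ‖vort v y‖ := norm_pos_iff.2 h
  have h3 : 0 < ‖vort v y‖ ^ 2 := by positivity
  linarith

section

variable {θ : V → ℝ} {a : V} {R : ℝ} {F : V → ℝ}

/-- the test function is continuously differentiable -/
lemma G_at (hv : SM v) (hθ : Orient θ a R (vort v)) (hts : tsupport F ⊆ closedBall a R)
    {y : V} (hy : y ∈ closedBall a R) (h0 : vort v y ≠ 0) (δ : ℝ) :
    (fun z => F z * (θ z * cu v δ z)) =ᶠ[𝓝 y] fun z => θ y * (F z * cu v δ z) := by
  have hwc := vort_cont hv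
  rw [mem_closedBall, dist_eq_norm] at hy
  filter_upwards [theta_loc hwc hθ hy h0] with z hz
  by_cases h1 : ‖z - a‖ ≤ R
  · rw [hz h1]
    ring
  · have h2 : F z = 0 := by
      refine image_eq_zero_of_notMem_tsupport fun h3 => h1 ?_
      have h4 := hts h3
      rwa [mem_closedBall, dist_eq_norm] at h4
    rw [h2]
    ring

lemma G_smooth (hv : SM v) (hθ : Orient θ a R (vort v)) (hF : ContDiff ℝ 1 F)
    (hts : tsupport F ⊆ closedBall a R) {δ : ℝ} (hδ : 0 < δ) :
    ContDiff ℝ 1 (fun z => F z * (θ z * cu v δ z)) := by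
  rw [contDiff_iff_contDiffAt]
  intro y
  by_cases h0 : vort v y = 0
  · have h1 : ∀ᶠ z in 𝓝 y, qv v z < δ ^ 2 :=
      ((qv_smooth hv).continuous.continuousAt).eventually_lt continuousAt_const (by
        rw [qv_zero h0]
        positivity)
    have h2 : (fun z => F z * (θ z * cu v δ z)) =ᶠ[𝓝 y] fun _ => (0 : ℝ) := by
      filter_upwards [h1] with z hz
      rw [cu_zero z hz.le]
      simp
    exact contDiffAt_const.congr_of_eventuallyEq h2
  · by_cases hy : y ∈ closedBall a R
    · exact ((contDiff_const.mul (hF.mul (cu_smooth hv δ))).contDiffAt).congr_of_eventuallyEq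
        (G_at hv hθ hts hy h0 δ)
    · have h1 : ∀ᶠ z in 𝓝 y, z ∉ closedBall a R :=
        isClosed_closedBall.isOpen_compl.mem_nhds hy
      have h2 : (fun z => F z * (θ z * cu v δ z)) =ᶠ[𝓝 y] fun _ => (0 : ℝ) := by
        filter_upwards [h1] with z hz
        rw [image_eq_zero_of_notMem_tsupport fun h3 => hz (hts h3)]
        simp
      exact contDiffAt_const.congr_of_eventuallyEq h2

lemma G_der (hv : SM v) (hθ : Orient θ a R (vort v)) (hF : ContDiff ℝ 1 F)
    (hts : tsupport F ⊆ closedBall a R) {δ : ℝ} {y : V} (hy : y ∈ closedBall a R) :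
    fderiv ℝ (fun z => F z * (θ z * cu v δ z)) y (vort v y)
      = cu v δ y * fderiv ℝ F y (θ y • vort v y) + θ y * (F y * (stp' ((qv v y - δ ^ 2) / δ ^ 2) *
        ((δ ^ 2)⁻¹ * fderiv ℝ (qv v) y (vort v y)))) := by
  by_cases h0 : vort v y = 0
  · rw [h0]
    simp
  · rw [(G_at hv hθ hts hy h0 δ).fderiv_eq]
    have a1 := (hF.differentiable one_ne_zero y).hasFDerivAt
    have a2 : HasFDerivAt (fun z => θ y * (F z * cu v δ z)) _ y :=
      (a1.fun_mul (cu_der hv δ y)).const_mul (θ y)
    rw [a2.fderiv]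
    simp only [add_apply, smul_apply, smul_eq_mul, map_smul]
    ring

end

/-- **VL-11.** -/
theorem wd : StmWd := by
  intro v θ a R hv hR hθ
  have hwc := vort_cont hv
  obtain ⟨W, hW⟩ : ∃ W : V → V, W = fun y => θ (clp a R y) • vort v (clp a R y) := ⟨_, rfl⟩
  have hWc : Continuous W := by
    rw [hW]
    exact (tf_contOn hwc hθ).comp_continuous (clp_cont a R) (clp_mem hR.le a)
  have hWe : ∀ y ∈ closedBall a R, W y = θ y • vort v y := by
    intro y hy
    rw [hW]
    show θ (clp a R y) • vort v (clp a R y) = θ y • vort v y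
    rw [clp_eq hR.le hy]
  refine ⟨W, ⟨hWc, fun F hF hts => ?_⟩, fun y hy => hWe y (by rwa [mem_closedBall, dist_eq_norm])⟩
  have hms : MeasurableSet (closedBall a R) := isClosed_closedBall.measurableSet
  have hwd := (vort_df hv).wd R a
  have cFW : Continuous fun y => fderiv ℝ F y (W y) :=
    (hF.continuous_fderiv one_ne_zero).clm_apply hWc
  obtain ⟨G, hG⟩ : ∃ G : ℕ → V → ℝ, G = fun n z => F z * (θ z * cu v (dl n) z) := ⟨_, rfl⟩
  have hGs : ∀ n, ContDiff ℝ 1 (G n) := by
    intro n
    rw [hG]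
    exact G_smooth hv hθ hF hts (dl_pos n)
  have cG : ∀ n, Continuous fun y => fderiv ℝ (G n) y (vort v y) := fun n =>
    ((hGs n).continuous_fderiv one_ne_zero).clm_apply hwc
  have hGd : ∀ n, ∀ y ∈ closedBall a R, fderiv ℝ (G n) y (vort v y)
      = cu v (dl n) y * fderiv ℝ F y (W y) + θ y * (F y * (stp' ((qv v y - dl n ^ 2) / dl n ^ 2) *
        ((dl n ^ 2)⁻¹ * fderiv ℝ (qv v) y (vort v y)))) := by
    intro n y hy
    rw [hWe y hy, hG]
    exact G_der hv hθ hF hts hy
  have hI : ∀ n, ∫ y in closedBall a R, cu v (dl n) y * fderiv ℝ F y (W y)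
      = -∫ y in closedBall a R, (fderiv ℝ (G n) y (vort v y)
        - cu v (dl n) y * fderiv ℝ F y (W y)) := by
    intro n
    have h1 := hwd.div (G n) (hGs n) (by
      rw [hG]
      exact (tsupport_mul_subset_left).trans hts)
    have i1 : Integrable (fun y => fderiv ℝ (G n) y (vort v y))
        (volume.restrict (closedBall a R)) := int_cont (cG n) a R
    have i2 : Integrable (fun y => cu v (dl n) y * fderiv ℝ F y (W y))
        (volume.restrict (closedBall a R)) :=
      int_cont ((cu_smooth hv _).continuous.mul cFW) a R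
    rw [integral_sub i1 i2, h1]
    ring
  have hL : Tendsto (fun n => ∫ y in closedBall a R, cu v (dl n) y * fderiv ℝ F y (W y)) atTop
      (𝓝 (∫ y in closedBall a R, fderiv ℝ F y (W y))) := by
    refine tendsto_integral_of_dominated_convergence (fun y => |fderiv ℝ F y (W y)|)
      (fun n => ?_) ?_ (fun n => ?_) ?_
    · exact ((cu_smooth hv _).continuous.mul cFW).aestronglyMeasurable
    · exact int_cont cFW.abs a R
    · refine Eventually.of_forall fun y => ?_
      rw [Real.norm_eq_abs, abs_mul, abs_of_nonneg (cu_mem v _ y).1]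
      exact mul_le_of_le_one_left (abs_nonneg _) (cu_mem v _ y).2
    · refine (ae_restrict_iff' hms).2 (Eventually.of_forall fun y hy => ?_)
      by_cases h0 : vort v y = 0
      · have h1 : fderiv ℝ F y (W y) = 0 := by
          rw [hWe y hy, h0, smul_zero, map_zero]
        rw [h1]
        simp
      · have hq := qv_pos h0
        have h1 : ∀ᶠ n in atTop, dl n ^ 2 < qv v y / 2 := by
          have h2 : Tendsto (fun n => dl n ^ 2) atTop (𝓝 0) := by
            have := dl_lim.pow 2
            rwa [zero_pow two_ne_zero] at this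
          exact h2.eventually (gt_mem_nhds (by positivity))
        refine tendsto_const_nhds.congr' ?_
        filter_upwards [h1] with n hn
        have h3 : cu v (dl n) y = 1 := by
          refine bas.2.2.2.2.2.2.1 _ ?_
          have := dl_pos n
          rw [le_div_iff₀ (by positivity)]
          linarith
        rw [h3, one_mul]
  have hJ : Tendsto (fun n => ∫ y in closedBall a R, (fderiv ℝ (G n) y (vort v y)
        - cu v (dl n) y * fderiv ℝ F y (W y))) atTop
      (𝓝 (∫ y in closedBall a R, (0 : ℝ))) := by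
    refine tendsto_integral_of_dominated_convergence
      (fun y => |F y| * (8 * bd v y)) (fun n => ?_) ?_ (fun n => ?_) ?_
    · exact ((cG n).sub ((cu_smooth hv _).continuous.mul cFW)).aestronglyMeasurable
    · exact int_cont (hF.continuous.abs.mul (continuous_const.mul (bd_cont hv))) a R
    · refine (ae_restrict_iff' hms).2 (Eventually.of_forall fun y hy => ?_)
      rw [hGd n y hy, add_sub_cancel_left, Real.norm_eq_abs, abs_mul, abs_mul, abs_theta hθ,
        one_mul]
      refine mul_le_mul_of_nonneg_left ?_ (abs_nonneg _)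
      obtain ⟨δ, hδd⟩ : ∃ δ, δ = dl n := ⟨_, rfl⟩
      have hδ : 0 < δ := by rw [hδd]; exact dl_pos n
      rw [← hδd]
      have hb0 := bd_nn v y
      by_cases hs : stp' ((qv v y - δ ^ 2) / δ ^ 2) = 0
      · rw [hs, zero_mul, abs_zero]
        positivity
      · have h1 := (bas.2.2.2.2.2.2.2.1 _ hs).2
        rw [div_lt_one (by positivity)] at h1
        have h2 := bas.2.2.2.2.1 ((qv v y - δ ^ 2) / δ ^ 2)
        rw [abs_mul, abs_mul, abs_of_nonneg h2.2.2.1, abs_of_pos (by positivity)]
        have h3 := qv_der hv y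
        have h4 : qv v y ≤ 2 * δ ^ 2 := by linarith
        have h5 : |fderiv ℝ (qv v) y (vort v y)| ≤ 4 * δ ^ 2 * bd v y := by
          refine h3.trans ?_
          have := mul_le_mul_of_nonneg_right h4 hb0
          linarith
        calc stp' ((qv v y - δ ^ 2) / δ ^ 2) * ((δ ^ 2)⁻¹ * |fderiv ℝ (qv v) y (vort v y)|)
            ≤ 2 * ((δ ^ 2)⁻¹ * (4 * δ ^ 2 * bd v y)) := by
              refine mul_le_mul h2.2.2.2 (mul_le_mul_of_nonneg_left h5 (by positivity))
                (by positivity) (by norm_num)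
          _ = 8 * bd v y := by
              field_simp
              ring
    · refine (ae_restrict_iff' hms).2 (Eventually.of_forall fun y hy => ?_)
      have e : ∀ n, fderiv ℝ (G n) y (vort v y) - cu v (dl n) y * fderiv ℝ F y (W y)
          = θ y * (F y * (stp' ((qv v y - dl n ^ 2) / dl n ^ 2) *
        ((dl n ^ 2)⁻¹ * fderiv ℝ (qv v) y (vort v y)))) := by
        intro n
        rw [hGd n y hy, add_sub_cancel_left]
      simp_rw [e]
      by_cases h0 : vort v y = 0
      · rw [h0]
        simp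
      · have hq := qv_pos h0
        have h1 : ∀ᶠ n in atTop, dl n ^ 2 < qv v y / 2 := by
          have h2 : Tendsto (fun n => dl n ^ 2) atTop (𝓝 0) := by
            have := dl_lim.pow 2
            rwa [zero_pow two_ne_zero] at this
          exact h2.eventually (gt_mem_nhds (by positivity))
        refine tendsto_const_nhds.congr' ?_
        filter_upwards [h1] with n hn
        have h3 : stp' ((qv v y - dl n ^ 2) / dl n ^ 2) = 0 := by
          by_contra hc
          have h4 := (bas.2.2.2.2.2.2.2.1 _ hc).2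
          have := dl_pos n
          rw [div_lt_one (by positivity)] at h4
          linarith
        rw [h3]
        ring
  rw [integral_zero] at hJ
  have h3 : Tendsto (fun n => ∫ y in closedBall a R, cu v (dl n) y * fderiv ℝ F y (W y)) atTop
      (𝓝 (-0)) := by
    simp_rw [hI]
    exact hJ.neg
  rw [neg_zero] at h3
  exact tendsto_nhds_unique hL h3

end Pool.Agent.U481.VL.WdP
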