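import Pool.Agent.Q85.VL.Cor
import Pool.Agent.U481.VL.Lyap
import Pool.Agent.U481.VL.Wd
import Pool.Agent.U401.VL.Mol

/-!
The theorems of the project VL, without hypotheses.
-/

set_option autoImplicit false

open MeasureTheory Set Metric Filter Topology
open scoped ContDiff
open H459R3.NS Pool.Agent.W268.NS Pool.Agent.Q67.VD
open Pool.Agent.Q199.VD

namespace Pool.Agent.U481.VL

open Pool.Agent.Q85.CC Pool.Agent.Q85.CL Pool.Agent.Q85.VL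

/-- The tetrahedral angle between vorticities above the threshold. -/
theorem tetraK {ν T E : ℝ} {Ω : Set V} {u : ℝ → V → V} {p : ℝ → V → ℝ} (hν : 0 < ν)
    (h : DSl ν T E Ω u p) {a : V} (ha : a ∈ Ω) (hs : Sing T u a) {T₀ ε R : ℝ} {m : ℝ → V → ℝ}
    (hT0 : 0 ≤ T₀) (hT₀ : T₀ < T) (hε : 0 < ε) (hR : 0 < R)
    (hmc : ∀ t ∈ Ioo T₀ T, Continuous (m t)) (hm0 : ∀ t ∈ Ioo T₀ T, ∀ y, 0 ≤ m t y)
    (hK : Kato T₀ T a R m) :
    ∃ t ∈ Ioo T₀ T, ∃ x y : V, ‖x - a‖ ≤ R ∧ ‖y - a‖ ≤ R ∧ m t x < om (u t) x ∧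
      m t y < om (u t) y ∧
      vort (u t) x ⬝ᵥ vort (u t) y < (ε - 1 / 3) * (om (u t) x * om (u t) y) := by
  by_contra hcon
  push Not at hcon
  obtain ⟨R', hR', hRR, hsub⟩ := small_ball h.openO ha hR
  obtain ⟨δ, hδd⟩ : ∃ δ, δ = min ε 1 := ⟨_, rfl⟩
  have hδ : 0 < δ := by rw [hδd]; exact lt_min hε one_pos
  have hδ1 : δ ≤ 1 := by rw [hδd]; exact min_le_right _ _
  have hδε : δ ≤ ε := by rw [hδd]; exact min_le_left _ _
  have hK' : Kato T₀ T a R' m := by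
    intro μ hμ
    obtain ⟨S₀, hS₀, hS⟩ := hK μ hμ
    exact ⟨S₀, hS₀, fun t ht x S h1 h2 h3 => hS t ht x S h1 h2 (h3.trans hRR)⟩
  refine hs.not_bdd (half_K lyapT Pool.Agent.Q284.CL.dom hν hs.pos h (κ := δ / 2) hT0 hT₀
    (by positivity) hR' hsub hmc hm0 hK' fun t ht => ?_)
  obtain ⟨D, hD⟩ : ∃ D : Set V, D = {b | ∃ y, ‖y - a‖ ≤ R' ∧ m t y < om (u t) y ∧
    b = (om (u t) y)⁻¹ • vort (u t) y} := ⟨_, rfl⟩
  have hpos : ∀ y, m t y < om (u t) y → 0 < om (u t) y := fun y hy => (hm0 t ht y).trans_lt hy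
  obtain ⟨e, he, hea⟩ := tetra hδ hδ1 (D := D) (by
    rw [hD]
    rintro b ⟨y, -, hy, rfl⟩
    have h0 := hpos y hy
    rw [smul_dotProduct, dotProduct_smul, ← om_sq, smul_eq_mul, smul_eq_mul]
    field_simp) (by
    rw [hD]
    rintro b ⟨y, hy1, hy2, rfl⟩ b' ⟨z, hz1, hz2, rfl⟩
    have hy0 := hpos y hy2
    have hz0 := hpos z hz2
    rw [smul_dotProduct, dotProduct_smul, smul_eq_mul, smul_eq_mul]
    have h1 := hcon t ht y z (hy1.trans hRR) (hz1.trans hRR) hy2 hz2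
    have h2 : (δ - 1 / 3) * (om (u t) y * om (u t) z) ≤ vort (u t) y ⬝ᵥ vort (u t) z :=
      (mul_le_mul_of_nonneg_right (by linarith) (by positivity)).trans h1
    calc δ - 1 / 3 = (om (u t) y)⁻¹ * ((om (u t) z)⁻¹ *
          ((δ - 1 / 3) * (om (u t) y * om (u t) z))) := by field_simp
      _ ≤ _ := mul_le_mul_of_nonneg_left (mul_le_mul_of_nonneg_left h2 (inv_nonneg.2 hz0.le))
        (inv_nonneg.2 hy0.le))
  refine ⟨e, he, fun y hy hMy => ?_⟩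
  have h0 := hpos y hMy
  have h1 := hea ((om (u t) y)⁻¹ • vort (u t) y) (by rw [hD]; exact ⟨y, hy, hMy, rfl⟩)
  rw [dotProduct_smul, smul_eq_mul] at h1
  calc δ / 2 * om (u t) y ≤ (om (u t) y)⁻¹ * (e ⬝ᵥ vort (u t) y) * om (u t) y :=
        mul_le_mul_of_nonneg_right h1 h0.le
    _ = e ⬝ᵥ vort (u t) y := by field_simp

/-- Closed chains of vortex arcs. -/
theorem chainT {ν T E : ℝ} {Ω : Set V} {u : ℝ → V → V} {p : ℝ → V → ℝ}
    (hν : 0 < ν) (h : DSl ν T E Ω u p) {a : V} (ha : a ∈ Ω) (hs : Sing T u a) {T₀ ε R : ℝ}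
    {m : ℝ → V → ℝ} (hT0 : 0 ≤ T₀) (hT₀ : T₀ < T) (hε : 0 < ε) (hR : 0 < R)
    (hmc : ∀ t ∈ Ioo T₀ T, Continuous (m t)) (hm0 : ∀ t ∈ Ioo T₀ T, ∀ y, 0 ≤ m t y)
    (hK : Kato T₀ T a R m) :
    ∃ t ∈ Ioo T₀ T, ∀ θ : V → ℝ, Orient θ a R (vort (u t)) →
      Chained (fun y => θ y • vort (u t) y) {y | ‖y - a‖ ≤ R ∧ m t y < om (u t) y} ε :=
  chain_D lyapT WdP.wd Pool.Agent.U401.VL.stmG Pool.Agent.U401.VL.stmMol
    Pool.Agent.Q284.CL.dom hν h ha hs hT0 hT₀ hε hR hmc hm0 hK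

end Pool.Agent.U481.VL
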