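import Pool.Agent.U481.VL.Core

/-!
Project VL (planned by helper85): comparison of the fluxes, the lower bound.
-/

set_option autoImplicit false

open MeasureTheory Set Metric Filter Topology
open scoped ContDiff
open H459R3.NS Pool.Agent.W268.NS Pool.Agent.Q67.VD

namespace Pool.Agent.U481.VL

open Pool.Agent.Q85.VL
open Pool.Agent.Q151.CC (WD)

section

variable {κ ρ R r : ℝ} {x : V} {f m : V → ℝ} {W : V → V} {g : V → ℝ}

/-- The test function of the comparison. -/
lemma cmp_test (h : LF κ R x f m W g) (hκ : 0 < κ) (hρ : 0 < ρ) {r' r'' : ℝ}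
    (hr' : 0 < r') (hr'' : 0 < r'') (hr : 0 < r) (hr2 : r' ≤ r) (hr3 : r'' ≤ 4 * r) (hrR : r ≤ R)
    {P Q : V → ℝ}
    (hP : IntegrableOn P (closedBall x R)) (hQ : IntegrableOn Q (closedBall x R))
    (hle : ∀ y ∈ closedBall x R, P y ≤ Q y
      + (cT' κ r'' (ww κ ρ g x y) * fderiv ℝ (ww κ ρ g x) y (W y) *
          (cP κ r' (uu κ ρ g x y) - cP κ r (uu κ ρ g x y))
        + cT κ r'' (ww κ ρ g x y) * ((cP' κ r' (uu κ ρ g x y) - cP' κ r (uu κ ρ g x y)) *
          fderiv ℝ (uu κ ρ g x) y (W y)))) (hr4 : 4 * (r'' / 8 + r / 32) ≤ r) :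
    ∫ y in closedBall x R, P y ≤ ∫ y in closedBall x R, Q y := by
  have hβ : ∀ s, HasDerivAt (fun s => cP κ r' s - cP κ r s) (cP' κ r' s - cP' κ r s) s :=
    fun s => (cP_deriv κ r' s).sub (cP_deriv κ r s)
  have hφ := ww_c1 κ hρ h.gs x
  have hψ := uu_c1 κ hρ h.gs x
  refine test_le h.wd (F := fun y => cT κ r'' (ww κ ρ g x y) *
    (cP κ r' (uu κ ρ g x y) - cP κ r (uu κ ρ g x y)))
    (prod_c1 (β := fun s => cP κ r' s - cP κ r s) hφ hψ (cT_deriv κ r'') hβ (cT'_cont κ r'')
      ((cP'_cont κ r').sub (cP'_cont κ r))) hrR ?_ hP hQ fun y hy => ?_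
  · intro y hy
    have h1 : cT κ r'' (ww κ ρ g x y) ≠ 0 := fun h0 => hy (by simp only [h0, zero_mul])
    have h2 : uu κ ρ g x y < κ * (r / 32) := by
      by_contra hc
      rw [not_lt] at hc
      apply hy
      have e1 : cP κ r (uu κ ρ g x y) = 1 := cP_one hκ hr (by linarith)
      have e2 : cP κ r' (uu κ ρ g x y) = 1 := by
        apply cP_one hκ hr'
        have := mul_le_mul_of_nonneg_left hr2 hκ.le
        linarith
      simp only [e1, e2, sub_self, mul_zero]
    have h3 : -(κ * (r'' / 8)) < ww κ ρ g x y := by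
      by_contra hc
      exact h1 (cT_zero hκ hr'' (by linarith [not_lt.1 hc]))
    have h4 := near_of hκ h2 h3 hr4
    rw [mem_closedBall, dist_eq_norm]
    have := norm_le_ds x ρ y
    linarith
  · rw [prod_fderiv (β := fun s => cP κ r' s - cP κ r s) hφ hψ (cT_deriv κ r'') hβ y (W y)]
    exact hle y hy

/-- VL-3. -/
theorem cmpL (h : LF κ R x f m W g) (hκ : 0 < κ) (_hκ1 : κ ≤ 1) (hρ : 0 < ρ) {r' : ℝ}
    (hr' : 0 < r') (hr2 : r' ≤ r / 2) (hrR : r ≤ R) :
    AA κ ρ R g x W m r' ≤ AA κ ρ R g x W m r + 256 / (κ * r') * ∫ y in closedBall x r, m y := by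
  have hr : 0 < r := by linarith
  have hm := h.mc
  rw [← m_int h hrR, ← integral_const_mul]
  unfold AA
  have hI : IntegrableOn (fun y => 256 / (κ * r') * (closedBall x r).indicator m y)
      (closedBall x R) := (int_indU hm x R measurableSet_closedBall).const_mul _
  have hp := int_cube (pr_cont h κ hρ r) x R
  rw [← integral_add hp hI]
  refine cmp_test h hκ hρ hr' hr' hr (by linarith) (by linarith) hrR
    (int_cube (pr_cont h κ hρ r') x R) (hp.add hI) (fun y hy => ?_) (by linarith)
  have hA := uu_low h hκ.le hρ hy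
  have hB := ww_low h hκ.le hρ hy
  have hf := f_nn h hy
  have hA0 : 0 ≤ fderiv ℝ (uu κ ρ g x) y (W y) + m y :=
    (mul_nonneg (by positivity) hf).trans hA
  have hB0 : 0 ≤ fderiv ℝ (ww κ ρ g x) y (W y) + m y :=
    (mul_nonneg (by positivity) hf).trans hB
  rw [pr_eq, pr_eq]
  have hM := h.m0 y
  obtain ⟨A, hAd⟩ : ∃ A, A = fderiv ℝ (uu κ ρ g x) y (W y) := ⟨_, rfl⟩
  obtain ⟨B, hBd⟩ : ∃ B, B = fderiv ℝ (ww κ ρ g x) y (W y) := ⟨_, rfl⟩
  rw [← hAd] at hA0 ⊢
  rw [← hBd] at hB0 ⊢
  obtain ⟨s, hs⟩ : ∃ s, s = uu κ ρ g x y := ⟨_, rfl⟩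
  obtain ⟨w, hw⟩ : ∃ w, w = ww κ ρ g x y := ⟨_, rfl⟩
  rw [← hs, ← hw]
  obtain ⟨M, hMd⟩ : ∃ M, M = m y := ⟨_, rfl⟩
  rw [← hMd] at hA0 hB0 hM ⊢
  have t1 := cT_nn κ r' w
  have t2 := cT_mono hκ hr' (show r' ≤ r by linarith) w
  have t3 := cT'_nn hκ hr' w
  have p1 := cP_anti hκ hr' (show r' ≤ r by linarith) s
  have p2 := cP'_nn hκ hr s
  have p3 := cP'_nn hκ hr' s
  have p4 := cP_nn κ r s
  have p5 := cP_le κ r' s
  have t4 := cT'_le hκ hr' w
  have p6 := cP'_le hκ hr' s
  have t5 := cT_le κ r' w
  -- the remainder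
  have hrem : cT' κ r' w * M * (cP κ r' s - cP κ r s) + cT κ r' w * (cP' κ r' s * M)
      ≤ 256 / (κ * r') * (closedBall x r).indicator m y := by
    by_cases hy' : y ∈ closedBall x r
    · rw [indicator_of_mem hy', ← hMd]
      have e1 : cT' κ r' w * M * (cP κ r' s - cP κ r s) ≤ 24 / (κ * r') * M * 1 := by
        apply mul_le_mul _ (by linarith) (by linarith) (by positivity)
        exact mul_le_mul_of_nonneg_right t4 hM
      have e2 : cT κ r' w * (cP' κ r' s * M) ≤ 1 * (96 / (κ * r') * M) := by
        apply mul_le_mul t5 _ (mul_nonneg p3 hM) (by norm_num)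
        exact mul_le_mul_of_nonneg_right p6 hM
      have e3 : 24 / (κ * r') * M * 1 + 1 * (96 / (κ * r') * M) = 120 / (κ * r') * M := by ring
      have e4 : 120 / (κ * r') * M ≤ 256 / (κ * r') * M := by
        apply mul_le_mul_of_nonneg_right _ hM
        apply div_le_div_of_nonneg_right (by norm_num) (by positivity)
      linarith
    · rw [indicator_of_notMem hy', mul_zero]
      -- outside of the cube both terms vanish
      have hds : r < ds x ρ y := by
        rw [mem_closedBall, dist_eq_norm, not_le] at hy'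
        exact hy'.trans_le (norm_le_ds x ρ y)
      have key : w ≤ -(κ * r' / 8) ∨ κ * r / 32 ≤ s := by
        by_contra hc
        rw [not_or, not_le, not_le] at hc
        have := near_of (κ := κ) (ρ := ρ) (g := g) (x := x) (y := y) (a := r' / 8) (b := r / 32)
          (c := r) hκ (by rw [← hs]; linarith [hc.2]) (by rw [← hw]; linarith [hc.1])
          (by linarith)
        linarith
      rcases key with hk | hk
      · rw [cT_zero hκ hr' hk, cT'_zero hκ hr' hk]
        simp
      · have hk' : κ * r' / 32 ≤ s := by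
          have := mul_le_mul_of_nonneg_left (show r' ≤ r by linarith) hκ.le
          linarith
        rw [cP_one hκ hr hk, cP_one hκ hr' hk', cP'_one hκ hr' hk']
        simp
  have i1 : 0 ≤ (cT κ r w - cT κ r' w) * (cP' κ r s * (A + M)) :=
    mul_nonneg (by linarith) (mul_nonneg p2 hA0)
  have i2 : 0 ≤ cT κ r' w * (cP' κ r s * M) := mul_nonneg t1 (mul_nonneg p2 hM)
  have i3 : 0 ≤ cT' κ r' w * (B + M) * (cP κ r' s - cP κ r s) :=
    mul_nonneg (mul_nonneg t3 hB0) (by linarith)
  linear_combination hrem + i1 + i2 + i3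

theorem cmp : StmCmp := fun _ _ _ _ _ _ _ _ _ _ hκ hκ1 hρ h hr' hr2 hrR =>
  cmpL h hκ hκ1 hρ hr' hr2 hrR

/-! ### The lower bound -/

/-- The square of the positive part. -/
noncomputable def psq (s : ℝ) : ℝ := (max 0 s) ^ 2

lemma psq_deriv (s : ℝ) : HasDerivAt psq (2 * max 0 s) s := by
  unfold psq
  rcases lt_trichotomy s 0 with h | h | h
  · rw [max_eq_left h.le, mul_zero]
    refine (hasDerivAt_const s (0 : ℝ)).congr_of_eventuallyEq ?_
    filter_upwards [Iio_mem_nhds h] with t ht
    rw [max_eq_left (le_of_lt ht)]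
    ring
  · subst h
    rw [max_self, mul_zero]
    refine hasDeriv_sq0 fun t => ?_
    rw [max_self, sub_zero, zero_pow two_ne_zero, sub_zero, abs_of_nonneg (sq_nonneg _)]
    rcases le_total 0 t with h | h
    · rw [max_eq_right h]
      nlinarith
    · rw [max_eq_left h]
      nlinarith
  · rw [max_eq_right h.le]
    have h1 : HasDerivAt (fun s : ℝ => s ^ 2) (2 * s) s := by
      simpa using hasDerivAt_pow 2 s
    refine h1.congr_of_eventuallyEq ?_
    filter_upwards [Ioi_mem_nhds h] with t ht
    rw [max_eq_right (le_of_lt ht)]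

lemma psq_shift_deriv (a s : ℝ) :
    HasDerivAt (fun s => psq (s + a)) (2 * max 0 (s + a)) s := by
  have h1 : HasDerivAt (fun s : ℝ => s + a) 1 s := (hasDerivAt_id s).add_const a
  have h2 := (psq_deriv (s + a)).comp s h1
  rw [mul_one] at h2
  exact h2

lemma psq_nn (s : ℝ) : 0 ≤ psq s := sq_nonneg _

lemma psq_low {s : ℝ} (hs : s ≤ 0) : psq s = 0 := by
  unfold psq
  rw [max_eq_left hs]
  ring

lemma psq_le {s b : ℝ} (hb : 0 ≤ b) (hs : s ≤ b) : psq s ≤ b ^ 2 := by
  unfold psq
  exact pow_le_pow_left₀ (le_max_left _ _) (max_le hb hs) 2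

/-- VL-4. -/
theorem lbL (h : LF κ R x f m W g) (hκ : 0 < κ) (hκ1 : κ ≤ 1) (hρ : 0 < ρ)
    (hρr : 128 / κ * ρ ≤ r) (hrR : r ≤ R) :
    2 * κ * ρ * ∫ y in closedBall x ρ, f y
      ≤ (κ * r / 8) ^ 2 * AA κ ρ R g x W m r + κ * r / 4 * ∫ y in closedBall x r, m y := by
  have hκr : 128 * ρ ≤ κ * r := by
    have h1 := mul_le_mul_of_nonneg_left hρr hκ.le
    have h2 : κ * (128 / κ * ρ) = 128 * ρ := by field_simp
    linarith
  have hr : 0 < r := by
    have : 0 < κ * r := by linarith
    exact (pos_iff_pos_of_mul_pos this).1 hκ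
  have hρr' : ρ ≤ r := by nlinarith
  have hκr0 : 0 < κ * r := by positivity
  have hφ := ww_c1 κ hρ h.gs x
  have hψ := uu_c1 κ hρ h.gs x
  -- the test function
  have hβ : ∀ s, HasDerivAt (fun s => 1 - cP κ r s) (-cP' κ r s) s := fun s =>
    (cP_deriv κ r s).const_sub 1
  have hF := prod_c1 (β := fun s => 1 - cP κ r s) (α := fun s => psq (s + κ * r / 8)) hφ hψ
    (psq_shift_deriv (κ * r / 8)) hβ (by fun_prop) (cP'_cont κ r).neg
  -- the integrable functions
  have i1 : IntegrableOn (fun y => 6 * κ * ρ * (closedBall x ρ).indicator f y)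
      (closedBall x R) := (int_indU h.fc x R measurableSet_closedBall).const_mul _
  have i2 : IntegrableOn (fun y => 3 * (κ * r / 8) ^ 2 * pr κ ρ g x W m r y)
      (closedBall x R) := (int_cube (pr_cont h κ hρ r) x R).const_mul _
  have i3 : IntegrableOn (fun y => 3 * (κ * r / 4) * (closedBall x r).indicator m y)
      (closedBall x R) := (int_indU h.mc x R measurableSet_closedBall).const_mul _
  have key := test_le h.wd hF hrR (P := fun y => 6 * κ * ρ * (closedBall x ρ).indicator f y)
    (Q := fun y => 3 * (κ * r / 8) ^ 2 * pr κ ρ g x W m r y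
      + 3 * (κ * r / 4) * (closedBall x r).indicator m y) ?_ i1 (i2.add i3) ?_
  · rw [integral_add i2 i3, integral_const_mul, integral_const_mul, integral_const_mul,
      ind_eq (closedBall_subset_closedBall (hρr'.trans hrR)), m_int h hrR] at key
    unfold AA
    linarith
  · -- the support
    intro y hy
    have h1 : psq (ww κ ρ g x y + κ * r / 8) ≠ 0 := fun h0 => hy (by simp only [h0, zero_mul])
    have h2 : uu κ ρ g x y < κ * (r / 32) := by
      by_contra hc
      rw [not_lt] at hc
      apply hy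
      have e1 : cP κ r (uu κ ρ g x y) = 1 := cP_one hκ hr (by linarith)
      simp only [e1, sub_self, mul_zero]
    have h3 : -(κ * (r / 8)) < ww κ ρ g x y := by
      by_contra hc
      exact h1 (psq_low (by linarith [not_lt.1 hc]))
    have h4 := near_of hκ h2 h3 (c := r) (by linarith)
    rw [mem_closedBall, dist_eq_norm]
    have := norm_le_ds x ρ y
    linarith
  · intro y hy
    have e0 := prod_fderiv (β := fun s => 1 - cP κ r s) (α := fun s => psq (s + κ * r / 8)) hφ hψ
      (psq_shift_deriv (κ * r / 8)) hβ y (W y)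
    rw [e0]
    have hA := uu_low h hκ.le hρ hy
    have hB := ww_low h hκ.le hρ hy
    have hf := f_nn h hy
    have hM := h.m0 y
    rw [pr_eq]
    obtain ⟨A, hAd⟩ : ∃ A, A = fderiv ℝ (uu κ ρ g x) y (W y) := ⟨_, rfl⟩
    obtain ⟨B, hBd⟩ : ∃ B, B = fderiv ℝ (ww κ ρ g x) y (W y) := ⟨_, rfl⟩
    obtain ⟨s, hs⟩ : ∃ s, s = uu κ ρ g x y := ⟨_, rfl⟩
    obtain ⟨w, hw⟩ : ∃ w, w = ww κ ρ g x y := ⟨_, rfl⟩
    obtain ⟨M, hMd⟩ : ∃ M, M = m y := ⟨_, rfl⟩
    rw [← hAd, ← hMd] at hA
    rw [← hBd, ← hMd] at hB
    rw [← hMd] at hM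
    rw [← hAd, ← hBd, ← hs, ← hw, ← hMd]
    have hws : w = s - κ / 4 * ds x ρ y := by rw [hw, hs]; exact ww_eq_uu κ ρ g x y
    have hds := rho_le_ds x hρ y
    have t1 := cT_nn κ r w
    have p2 := cP'_nn hκ hr s
    have p4 := cP_nn κ r s
    have p5 := cP_le κ r s
    have hA0 : 0 ≤ A + M := (mul_nonneg (by positivity) hf).trans hA
    have hB0 : 0 ≤ B + M := (mul_nonneg (by positivity) hf).trans hB
    have hq0 : 0 ≤ max 0 (w + κ * r / 8) := le_max_left _ _
    -- the square against the cut-off
    have g1 : psq (w + κ * r / 8) * (cP' κ r s * (A + M))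
        ≤ 3 * (κ * r / 8) ^ 2 * (cT κ r w * (cP' κ r s * (A + M))) := by
      by_cases hp : cP' κ r s = 0
      · rw [hp]
        simp
      · obtain ⟨-, hs2⟩ := cP'_supp hκ hr hp
        have hw2 : w ≤ κ * r / 32 := by
          rw [hws]
          have : 0 ≤ κ / 4 * ds x ρ y := mul_nonneg (by positivity) (hρ.le.trans hds)
          linarith
        have g2 : psq (w + κ * r / 8) ≤ 3 * (κ * r / 8) ^ 2 * cT κ r w := by
          rcases le_total w (-(κ * r / 8)) with h1 | h1
          · rw [psq_low (by linarith)]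
            positivity
          rcases le_total w (-(κ * r / 16)) with h2 | h2
          · have h3 : ((w + κ * r / 8) / (κ * r / 16)) ^ 2 ≤ cT κ r w := by
              apply sq_le_stp
              · exact div_nonneg (by linarith) (by positivity)
              · rw [div_le_one (by positivity)]
                linarith
            have h4 : psq (w + κ * r / 8) = (κ * r / 16) ^ 2 *
                ((w + κ * r / 8) / (κ * r / 16)) ^ 2 := by
              unfold psq
              rw [max_eq_right (by linarith), div_pow]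
              field_simp
            rw [h4]
            calc (κ * r / 16) ^ 2 * ((w + κ * r / 8) / (κ * r / 16)) ^ 2
                ≤ (κ * r / 16) ^ 2 * cT κ r w := mul_le_mul_of_nonneg_left h3 (sq_nonneg _)
              _ ≤ _ := by nlinarith [mul_nonneg (sq_nonneg (κ * r)) t1]
          · rw [cT_one hκ hr h2]
            refine (psq_le (b := 5 * (κ * r) / 32) (by positivity) (by linarith)).trans ?_
            nlinarith [sq_nonneg (κ * r)]
        have := mul_le_mul_of_nonneg_right g2 (mul_nonneg p2 hA0)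
        linarith
    have g3 : 0 ≤ psq (w + κ * r / 8) * (cP' κ r s * M) :=
      mul_nonneg (psq_nn _) (mul_nonneg p2 hM)
    -- the remainder
    have g4 : 2 * max 0 (w + κ * r / 8) * M * (1 - cP κ r s)
        ≤ 3 * (κ * r / 4) * (closedBall x r).indicator m y := by
      by_cases hp : κ * r / 32 ≤ s
      · rw [cP_one hκ hr hp, sub_self, mul_zero]
        exact mul_nonneg (by positivity) (m_ind_nn h _ y)
      · rw [not_le] at hp
        have hw2 : w ≤ κ * r / 32 := by
          rw [hws]
          have : 0 ≤ κ / 4 * ds x ρ y := mul_nonneg (by positivity) (hρ.le.trans hds)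
          linarith
        rcases le_total w (-(κ * r / 8)) with h1 | h1
        · rw [max_eq_left (by linarith)]
          simp only [mul_zero, zero_mul]
          exact mul_nonneg (by positivity) (m_ind_nn h _ y)
        · by_cases h2 : w = -(κ * r / 8)
          · rw [max_eq_left (by linarith)]
            simp only [mul_zero, zero_mul]
            exact mul_nonneg (by positivity) (m_ind_nn h _ y)
          · have h3 : -(κ * (r / 8)) < w := by
              have := lt_of_le_of_ne h1 (Ne.symm h2)
              linarith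
            have h4 := near_of (κ := κ) (ρ := ρ) (g := g) (x := x) (y := y) (a := r / 8)
              (b := r / 32) (c := r) hκ (by rw [← hs]; linarith) (by rw [← hw]; exact h3)
              (by linarith)
            have hy' : y ∈ closedBall x r := by
              rw [mem_closedBall, dist_eq_norm]
              have := norm_le_ds x ρ y
              linarith
            rw [indicator_of_mem hy', ← hMd]
            have h5 : max 0 (w + κ * r / 8) ≤ 5 * (κ * r) / 32 :=
              max_le (by positivity) (by linarith)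
            have h6 : 2 * max 0 (w + κ * r / 8) * M * (1 - cP κ r s)
                ≤ 2 * (5 * (κ * r) / 32) * M * 1 := by
              apply mul_le_mul _ (by linarith) (by linarith) (by positivity)
              apply mul_le_mul_of_nonneg_right _ hM
              linarith
            have h7 : 0 ≤ κ * r * M := by positivity
            linarith
    -- the main term
    have g5 : 6 * κ * ρ * (closedBall x ρ).indicator f y
        ≤ 2 * max 0 (w + κ * r / 8) * (B + M) * (1 - cP κ r s) := by
      by_cases hy' : y ∈ closedBall x ρ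
      · rw [indicator_of_mem hy']
        rw [mem_closedBall, dist_eq_norm] at hy'
        have a1 := ds_near x hρ hy'
        have a2 := h.lip y x
        have a3 := len_le_norm (y - x)
        have a4 : |g y - g x| ≤ 7 / 4 * ρ := by linarith
        have a5 := abs_le.1 a4
        have a6 : κ * ds x ρ y ≤ 2 * ρ := by nlinarith [ds_pos x hρ y]
        have a7 : 0 ≤ κ * ds x ρ y := mul_nonneg hκ.le (ds_pos x hρ y).le
        have a8 : s ≤ κ * r / 64 := by
          rw [hs]
          unfold uu
          linarith [a5.2]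
        have a9 : 12 * ρ ≤ w + κ * r / 8 := by
          rw [hw]
          unfold ww
          linarith [a5.1]
        rw [cP_zero hκ hr a8, sub_zero, mul_one, max_eq_right (by linarith)]
        have b1 : 2 * (12 * ρ) * (κ / 4 * f y) ≤ 2 * (w + κ * r / 8) * (B + M) := by
          apply mul_le_mul (by linarith) hB (mul_nonneg (by positivity) hf) (by linarith)
        linarith
      · rw [indicator_of_notMem hy', mul_zero]
        exact mul_nonneg (mul_nonneg (by positivity) hB0) (by linarith)
    linear_combination g1 + g3 + g4 + g5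

theorem lb : StmLB := fun _ _ _ _ _ _ _ _ _ hκ hκ1 hρ h hρr hrR => lbL h hκ hκ1 hρ hρr hrR

end

end Pool.Agent.U481.VL
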