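import Pool.Agent.U481.VL.Bas

/-!
Project VL (planned by helper85): test functions.
-/

set_option autoImplicit false

open MeasureTheory Set Metric Filter Topology
open scoped ContDiff
open H459R3.NS Pool.Agent.W268.NS Pool.Agent.Q67.VD

namespace Pool.Agent.U481.VL

open Pool.Agent.Q85.VL
open Pool.Agent.Q151.CC (WD)

/-! ### Integrals -/

lemma int_cube {f : V → ℝ} (hf : Continuous f) (x : V) (R : ℝ) :
    IntegrableOn f (closedBall x R) :=
  hf.continuousOn.integrableOn_compact (isCompact_closedBall x R)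

lemma int_indU {f : V → ℝ} (hf : Continuous f) (x : V) (R : ℝ) {S : Set V}
    (hS : MeasurableSet S) : IntegrableOn (S.indicator f) (closedBall x R) :=
  (int_cube hf x R).indicator hS

lemma ind_eq {f : V → ℝ} {x z : V} {R δ : ℝ} (h : closedBall z δ ⊆ closedBall x R) :
    ∫ y in closedBall x R, (closedBall z δ).indicator f y = ∫ y in closedBall z δ, f y := by
  rw [setIntegral_indicator measurableSet_closedBall, inter_eq_right.2 h]

lemma grad_cont {F : V → ℝ} (hF : ContDiff ℝ 1 F) {W : V → V} (hW : Continuous W) :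
    Continuous fun y => fderiv ℝ F y (W y) :=
  (hF.continuous_fderiv one_ne_zero).clm_apply hW

/-- The principle of the test function. -/
lemma test_le {R : ℝ} {x : V} {W : V → V} (hW : WD R x W) {F : V → ℝ} (hF : ContDiff ℝ 1 F)
    {r : ℝ} (hr : r ≤ R) (hsupp : ∀ y, F y ≠ 0 → y ∈ closedBall x r) {P Q : V → ℝ}
    (hP : IntegrableOn P (closedBall x R)) (hQ : IntegrableOn Q (closedBall x R))
    (h : ∀ y ∈ closedBall x R, P y ≤ Q y + fderiv ℝ F y (W y)) :
    ∫ y in closedBall x R, P y ≤ ∫ y in closedBall x R, Q y := by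
  have hts : tsupport F ⊆ closedBall x R :=
    (closure_minimal hsupp isClosed_closedBall).trans (closedBall_subset_closedBall hr)
  have h1 := hW.div F hF hts
  have h2 : IntegrableOn (fun y => fderiv ℝ F y (W y)) (closedBall x R) :=
    int_cube (grad_cont hF hW.cont) x R
  calc ∫ y in closedBall x R, P y ≤ ∫ y in closedBall x R, (Q y + fderiv ℝ F y (W y)) :=
        setIntegral_mono_on hP (hQ.add h2) measurableSet_closedBall h
    _ = ∫ y in closedBall x R, Q y := by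
        rw [integral_add hQ h2, h1, add_zero]

/-! ### The functions `u` and `w` -/

/-- `g - g(x₀) - c |y - z|`. -/
noncomputable def qq (c ρ : ℝ) (g : V → ℝ) (b : ℝ) (z y : V) : ℝ := g y - b - c * ds z ρ y

lemma uu_eq (κ ρ : ℝ) (g : V → ℝ) (x : V) : uu κ ρ g x = qq (κ / 2) ρ g (g x) x := rfl

lemma ww_eq (κ ρ : ℝ) (g : V → ℝ) (x : V) : ww κ ρ g x = qq (3 * κ / 4) ρ g (g x) x := rfl

lemma qq_c1 (c : ℝ) {ρ : ℝ} (hρ : 0 < ρ) {g : V → ℝ} (hg : ContDiff ℝ 1 g) (b : ℝ) (z : V) :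
    ContDiff ℝ 1 (qq c ρ g b z) := by
  unfold qq
  exact (hg.sub contDiff_const).sub (contDiff_const.mul ((ds_smooth z hρ).of_le (by norm_cast)))

lemma qq_fderiv (c : ℝ) {ρ : ℝ} (hρ : 0 < ρ) {g : V → ℝ} (hg : ContDiff ℝ 1 g) (b : ℝ) (z y n : V) :
    fderiv ℝ (qq c ρ g b z) y n = fderiv ℝ g y n - c * fderiv ℝ (ds z ρ) y n := by
  have h1 : HasFDerivAt g (fderiv ℝ g y) y := (hg.differentiable one_ne_zero y).hasFDerivAt
  have h2 : HasFDerivAt (ds z ρ) (fderiv ℝ (ds z ρ) y) y :=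
    ((ds_smooth z hρ).differentiable (by norm_num) y).hasFDerivAt
  have h3 := (h1.sub_const b).sub (h2.const_mul c)
  have h4 : fderiv ℝ (qq c ρ g b z) y = fderiv ℝ g y - c • fderiv ℝ (ds z ρ) y := h3.fderiv
  rw [h4]
  rfl

lemma uu_c1 (κ : ℝ) {ρ : ℝ} (hρ : 0 < ρ) {g : V → ℝ} (hg : ContDiff ℝ 1 g) (x : V) :
    ContDiff ℝ 1 (uu κ ρ g x) := by
  rw [uu_eq]
  exact qq_c1 _ hρ hg _ _

lemma ww_c1 (κ : ℝ) {ρ : ℝ} (hρ : 0 < ρ) {g : V → ℝ} (hg : ContDiff ℝ 1 g) (x : V) :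
    ContDiff ℝ 1 (ww κ ρ g x) := by
  rw [ww_eq]
  exact qq_c1 _ hρ hg _ _

lemma ww_eq_uu (κ ρ : ℝ) (g : V → ℝ) (x y : V) :
    ww κ ρ g x y = uu κ ρ g x y - κ / 4 * ds x ρ y := by
  unfold ww uu
  ring

section LF

variable {κ R : ℝ} {x : V} {f m : V → ℝ} {W : V → V} {g : V → ℝ}

lemma f_nn (h : LF κ R x f m W g) {y : V} (hy : y ∈ closedBall x R) : 0 ≤ f y :=
  (len_nn _).trans (h.up y hy)

/-- The growth of `g - b - c |y - z|` along the field. -/
lemma qq_low (h : LF κ R x f m W g) {c : ℝ} (hc : 0 ≤ c) {ρ : ℝ} (hρ : 0 < ρ) (b : ℝ) (z : V)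
    {y : V} (hy : y ∈ closedBall x R) :
    (κ - c) * f y ≤ fderiv ℝ (qq c ρ g b z) y (W y) + m y := by
  rw [qq_fderiv c hρ h.gs]
  have h1 := h.lo y hy
  have h2 := h.up y hy
  have h3 := (abs_le.1 (ds_fderiv z hρ y (W y))).2
  have h4 : c * fderiv ℝ (ds z ρ) y (W y) ≤ c * f y :=
    mul_le_mul_of_nonneg_left (h3.trans h2) hc
  linarith

lemma uu_low (h : LF κ R x f m W g) (hκ : 0 ≤ κ) {ρ : ℝ} (hρ : 0 < ρ)
    {y : V} (hy : y ∈ closedBall x R) :
    κ / 2 * f y ≤ fderiv ℝ (uu κ ρ g x) y (W y) + m y := by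
  have := qq_low h (c := κ / 2) (by positivity) hρ (g x) x hy
  rw [uu_eq]
  linarith

lemma ww_low (h : LF κ R x f m W g) (hκ : 0 ≤ κ) {ρ : ℝ} (hρ : 0 < ρ)
    {y : V} (hy : y ∈ closedBall x R) :
    κ / 4 * f y ≤ fderiv ℝ (ww κ ρ g x) y (W y) + m y := by
  have := qq_low h (c := 3 * κ / 4) (by positivity) hρ (g x) x hy
  rw [ww_eq]
  linarith

lemma uu_high (h : LF κ R x f m W g) (hκ : 0 ≤ κ) (hκ1 : κ ≤ 1) {ρ : ℝ} (hρ : 0 < ρ)
    {y : V} (hy : y ∈ closedBall x R) :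
    fderiv ℝ (uu κ ρ g x) y (W y) ≤ 2 * f y := by
  rw [uu_eq, qq_fderiv _ hρ h.gs]
  have h2 := h.up y hy
  have h3 := (abs_le.1 (ds_fderiv x hρ y (W y))).1
  have h1 := (abs_le.1 (fderiv_le_len (h.gs.differentiable one_ne_zero y) h.lip (W y))).2
  have h0 := f_nn h hy
  have h5 : -(κ / 2 * fderiv ℝ (ds x ρ) y (W y)) ≤ κ / 2 * f y := by
    have := mul_le_mul_of_nonneg_left (show -fderiv ℝ (ds x ρ) y (W y) ≤ f y by linarith)
      (show 0 ≤ κ / 2 by positivity)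
    linarith
  have h6 : κ / 2 * f y ≤ f y := by
    have : κ / 2 * f y ≤ 1 * f y := mul_le_mul_of_nonneg_right (by linarith) h0
    linarith
  linarith

end LF

/-! ### The cut-off functions -/

/-- The cut-off of `w`. -/
noncomputable def cT (κ r s : ℝ) : ℝ := stp ((s + κ * r / 8) / (κ * r / 16))

/-- The cut-off of `u`. -/
noncomputable def cP (κ r s : ℝ) : ℝ := stp ((s - κ * r / 64) / (κ * r / 64))

/-- The derivative of `cT`. -/
noncomputable def cT' (κ r s : ℝ) : ℝ := stp' ((s + κ * r / 8) / (κ * r / 16)) / (κ * r / 16)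

/-- The derivative of `cP`. -/
noncomputable def cP' (κ r s : ℝ) : ℝ := stp' ((s - κ * r / 64) / (κ * r / 64)) / (κ * r / 64)

section cut

variable {κ r : ℝ}

lemma cT_deriv (κ r s : ℝ) : HasDerivAt (cT κ r) (cT' κ r s) s := by
  have h1 : HasDerivAt (fun s : ℝ => (s + κ * r / 8) / (κ * r / 16)) (1 / (κ * r / 16)) s :=
    ((hasDerivAt_id s).add_const _).div_const _
  refine ((stp_deriv _).comp s h1).congr_deriv ?_
  unfold cT'
  ring

lemma cP_deriv (κ r s : ℝ) : HasDerivAt (cP κ r) (cP' κ r s) s := by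
  have h1 : HasDerivAt (fun s : ℝ => (s - κ * r / 64) / (κ * r / 64)) (1 / (κ * r / 64)) s :=
    ((hasDerivAt_id s).sub_const _).div_const _
  refine ((stp_deriv _).comp s h1).congr_deriv ?_
  unfold cP'
  ring

lemma cT'_cont (κ r : ℝ) : Continuous (cT' κ r) := by
  unfold cT'
  exact (stp'_cont.comp (by fun_prop)).div_const _

lemma cP'_cont (κ r : ℝ) : Continuous (cP' κ r) := by
  unfold cP'
  exact (stp'_cont.comp (by fun_prop)).div_const _

lemma c1_of_deriv {f f' : ℝ → ℝ} (h : ∀ s, HasDerivAt f (f' s) s) (hc : Continuous f') :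
    ContDiff ℝ 1 f := by
  rw [contDiff_one_iff_deriv]
  have h1 : deriv f = f' := funext fun s => (h s).deriv
  exact ⟨fun s => (h s).differentiableAt, by rw [h1]; exact hc⟩

lemma cT_c1 (κ r : ℝ) : ContDiff ℝ 1 (cT κ r) := c1_of_deriv (cT_deriv κ r) (cT'_cont κ r)

lemma cP_c1 (κ r : ℝ) : ContDiff ℝ 1 (cP κ r) := c1_of_deriv (cP_deriv κ r) (cP'_cont κ r)

lemma cT_nn (κ r s : ℝ) : 0 ≤ cT κ r s := stp_nn _

lemma cT_le (κ r s : ℝ) : cT κ r s ≤ 1 := stp_le _

lemma cP_nn (κ r s : ℝ) : 0 ≤ cP κ r s := stp_nn _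

lemma cP_le (κ r s : ℝ) : cP κ r s ≤ 1 := stp_le _

lemma cT'_nn (hκ : 0 < κ) (hr : 0 < r) (s : ℝ) : 0 ≤ cT' κ r s :=
  div_nonneg (stp'_nn _) (by positivity)

lemma cP'_nn (hκ : 0 < κ) (hr : 0 < r) (s : ℝ) : 0 ≤ cP' κ r s :=
  div_nonneg (stp'_nn _) (by positivity)

lemma cT'_le (hκ : 0 < κ) (hr : 0 < r) (s : ℝ) : cT' κ r s ≤ 24 / (κ * r) := by
  unfold cT'
  rw [div_le_div_iff₀ (by positivity) (by positivity)]
  have h1 := stp'_le ((s + κ * r / 8) / (κ * r / 16))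
  have h2 : 0 < κ * r := by positivity
  nlinarith

lemma cP'_le (hκ : 0 < κ) (hr : 0 < r) (s : ℝ) : cP' κ r s ≤ 96 / (κ * r) := by
  unfold cP'
  rw [div_le_div_iff₀ (by positivity) (by positivity)]
  have h1 := stp'_le ((s - κ * r / 64) / (κ * r / 64))
  have h2 : 0 < κ * r := by positivity
  nlinarith

lemma cT_zero (hκ : 0 < κ) (hr : 0 < r) {s : ℝ} (hs : s ≤ -(κ * r / 8)) : cT κ r s = 0 :=
  stp_low (div_nonpos_of_nonpos_of_nonneg (by linarith) (by positivity))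

lemma cT'_zero (hκ : 0 < κ) (hr : 0 < r) {s : ℝ} (hs : s ≤ -(κ * r / 8)) : cT' κ r s = 0 := by
  unfold cT'
  rw [stp'_low (div_nonpos_of_nonpos_of_nonneg (by linarith) (by positivity)), zero_div]

lemma cT_one (hκ : 0 < κ) (hr : 0 < r) {s : ℝ} (hs : -(κ * r / 16) ≤ s) : cT κ r s = 1 :=
  stp_high (by rw [le_div_iff₀ (by positivity)]; linarith)

lemma cT'_one (hκ : 0 < κ) (hr : 0 < r) {s : ℝ} (hs : -(κ * r / 16) ≤ s) : cT' κ r s = 0 := by
  unfold cT'
  rw [stp'_high (by rw [le_div_iff₀ (by positivity)]; linarith), zero_div]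

lemma cP_zero (hκ : 0 < κ) (hr : 0 < r) {s : ℝ} (hs : s ≤ κ * r / 64) : cP κ r s = 0 :=
  stp_low (div_nonpos_of_nonpos_of_nonneg (by linarith) (by positivity))

lemma cP'_zero (hκ : 0 < κ) (hr : 0 < r) {s : ℝ} (hs : s ≤ κ * r / 64) : cP' κ r s = 0 := by
  unfold cP'
  rw [stp'_low (div_nonpos_of_nonpos_of_nonneg (by linarith) (by positivity)), zero_div]

lemma cP_one (hκ : 0 < κ) (hr : 0 < r) {s : ℝ} (hs : κ * r / 32 ≤ s) : cP κ r s = 1 :=
  stp_high (by rw [le_div_iff₀ (by positivity)]; linarith)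

lemma cP'_one (hκ : 0 < κ) (hr : 0 < r) {s : ℝ} (hs : κ * r / 32 ≤ s) : cP' κ r s = 0 := by
  unfold cP'
  rw [stp'_high (by rw [le_div_iff₀ (by positivity)]; linarith), zero_div]

lemma cP'_supp (hκ : 0 < κ) (hr : 0 < r) {s : ℝ} (hs : cP' κ r s ≠ 0) :
    κ * r / 64 < s ∧ s < κ * r / 32 := by
  by_contra hc
  rw [not_and_or, not_lt, not_lt] at hc
  rcases hc with h | h
  · exact hs (cP'_zero hκ hr h)
  · exact hs (cP'_one hκ hr h)

/-- Monotonicity in the scale. -/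
lemma cT_mono (hκ : 0 < κ) {r' : ℝ} (hr' : 0 < r') (h : r' ≤ r) (s : ℝ) :
    cT κ r' s ≤ cT κ r s := by
  have hr : 0 < r := hr'.trans_le h
  rcases le_total 0 s with h0 | h0
  · rw [cT_one hκ hr (by have : 0 < κ * r := by positivity
                         linarith)]
    exact cT_le _ _ _
  · apply stp_mono
    have e : ∀ t : ℝ, 0 < t → (s + κ * t / 8) / (κ * t / 16) = 16 * s / (κ * t) + 2 := by
      intro t ht
      field_simp
      ring
    rw [e r' hr', e r hr]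
    have h1 : 16 * s / (κ * r') ≤ 16 * s / (κ * r) := by
      rw [div_le_div_iff₀ (by positivity) (by positivity)]
      have h2 : κ * r' ≤ κ * r := mul_le_mul_of_nonneg_left h hκ.le
      nlinarith
    linarith

lemma cP_anti (hκ : 0 < κ) {r' : ℝ} (hr' : 0 < r') (h : r' ≤ r) (s : ℝ) :
    cP κ r s ≤ cP κ r' s := by
  have hr : 0 < r := hr'.trans_le h
  rcases le_total s 0 with h0 | h0
  · rw [cP_zero hκ hr (by have : 0 < κ * r := by positivity
                          linarith)]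
    exact cP_nn _ _ _
  · apply stp_mono
    have e : ∀ t : ℝ, 0 < t → (s - κ * t / 64) / (κ * t / 64) = 64 * s / (κ * t) - 1 := by
      intro t ht
      field_simp
    rw [e r' hr', e r hr]
    have h1 : 64 * s / (κ * r) ≤ 64 * s / (κ * r') := by
      rw [div_le_div_iff₀ (by positivity) (by positivity)]
      have h2 : κ * r' ≤ κ * r := mul_le_mul_of_nonneg_left h hκ.le
      nlinarith
    linarith

end cut

lemma TT_eq (κ ρ : ℝ) (g : V → ℝ) (x : V) (r : ℝ) (y : V) :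
    TT κ ρ g x r y = cT κ r (ww κ ρ g x y) := rfl

lemma pr_eq (κ ρ : ℝ) (g : V → ℝ) (x : V) (W : V → V) (m : V → ℝ) (r : ℝ) (y : V) :
    pr κ ρ g x W m r y = cT κ r (ww κ ρ g x y) * (cP' κ r (uu κ ρ g x y) *
      (fderiv ℝ (uu κ ρ g x) y (W y) + m y)) := rfl

/-- The region where both cut-off functions are active is small. -/
lemma near_of {κ ρ : ℝ} {g : V → ℝ} {x y : V} (hκ : 0 < κ) {a b c : ℝ}
    (h1 : uu κ ρ g x y < κ * b) (h2 : -(κ * a) < ww κ ρ g x y) (h3 : 4 * (a + b) ≤ c) :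
    ds x ρ y < c := by
  rw [ww_eq_uu] at h2
  have h4 : κ / 4 * ds x ρ y < κ * (a + b) := by linarith
  have h5 : κ * (ds x ρ y) < κ * (4 * (a + b)) := by linarith
  exact (lt_of_mul_lt_mul_left h5 hκ.le).trans_le h3

section pr

variable {κ ρ R r : ℝ} {x : V} {f m : V → ℝ} {W : V → V} {g : V → ℝ}

lemma pr_supp (hκ : 0 < κ) (hr : 0 < r) {y : V} (h : pr κ ρ g x W m r y ≠ 0) :
    ds x ρ y < 5 / 8 * r := by
  rw [pr_eq] at h
  have h1 : cT κ r (ww κ ρ g x y) ≠ 0 := fun h0 => h (by rw [h0, zero_mul])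
  have h2 : cP' κ r (uu κ ρ g x y) ≠ 0 := fun h0 => h (by rw [h0]; ring)
  obtain ⟨-, h3⟩ := cP'_supp hκ hr h2
  have h4 : -(κ * (r / 8)) < ww κ ρ g x y := by
    by_contra hc
    exact h1 (cT_zero hκ hr (by linarith [not_lt.1 hc]))
  exact near_of hκ (b := r / 32) (by linarith) h4 (by linarith)

lemma pr_nn (h : LF κ R x f m W g) (hκ : 0 < κ) (hρ : 0 < ρ) (hr : 0 < r) {y : V}
    (hy : y ∈ closedBall x R) : 0 ≤ pr κ ρ g x W m r y := by
  rw [pr_eq]
  have h1 := uu_low h hκ.le hρ hy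
  have h2 := mul_nonneg (show 0 ≤ κ / 2 by positivity) (f_nn h hy)
  exact mul_nonneg (cT_nn _ _ _) (mul_nonneg (cP'_nn hκ hr _) (by linarith))

lemma pr_cont (h : LF κ R x f m W g) (κ' : ℝ) (hρ : 0 < ρ) (r : ℝ) :
    Continuous (pr κ' ρ g x W m r) := by
  have h1 := (uu_c1 κ' hρ h.gs x)
  have h2 := (ww_c1 κ' hρ h.gs x)
  have h3 : Continuous fun y => cT κ' r (ww κ' ρ g x y) :=
    (cT_c1 κ' r).continuous.comp h2.continuous
  have h4 : Continuous fun y => cP' κ' r (uu κ' ρ g x y) :=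
    (cP'_cont κ' r).comp h1.continuous
  exact h3.mul (h4.mul ((grad_cont h1 h.wd.cont).add h.mc))

lemma AA_nn (h : LF κ R x f m W g) (hκ : 0 < κ) (hρ : 0 < ρ) (hr : 0 < r) :
    0 ≤ AA κ ρ R g x W m r :=
  setIntegral_nonneg measurableSet_closedBall fun _ hy => pr_nn h hκ hρ hr hy

/-- The integral of the remainder over a cube as an integral over the big cube. -/
lemma m_int (h : LF κ R x f m W g) (hr : r ≤ R) :
    ∫ y in closedBall x R, (closedBall x r).indicator m y = ∫ y in closedBall x r, m y :=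
  ind_eq (closedBall_subset_closedBall hr)

lemma m_ind_nn (h : LF κ R x f m W g) (S : Set V) (y : V) : 0 ≤ S.indicator m y :=
  indicator_nonneg (fun z _ => h.m0 z) y

/-- VL-2. -/
theorem ubL (h : LF κ R x f m W g) (hκ : 0 < κ) (hκ1 : κ ≤ 1) (hρ : 0 < ρ) (hr : 0 < r)
    (hrR : r ≤ R) :
    AA κ ρ R g x W m r ≤ 128 / (κ * r) * ∫ y in closedBall x r, (2 * f y + m y) := by
  have hc : Continuous fun y => 2 * f y + m y := (continuous_const.mul h.fc).add h.mc
  rw [← ind_eq (f := fun y => 2 * f y + m y) (closedBall_subset_closedBall hrR),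
    ← integral_const_mul]
  unfold AA
  refine setIntegral_mono_on (int_cube (pr_cont h κ hρ r) x R)
    ((int_indU hc x R measurableSet_closedBall).const_mul _) measurableSet_closedBall fun y hy => ?_
  by_cases hp : pr κ ρ g x W m r y = 0
  · rw [hp]
    refine mul_nonneg (by positivity) ?_
    by_cases hy' : y ∈ closedBall x r
    · rw [indicator_of_mem hy']
      linarith [f_nn h hy, h.m0 y]
    · rw [indicator_of_notMem hy']
  · have h1 := pr_supp hκ hr hp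
    have hy' : y ∈ closedBall x r := by
      rw [mem_closedBall, dist_eq_norm]
      have := norm_le_ds x ρ y
      linarith
    rw [indicator_of_mem hy', pr_eq]
    have a1 := uu_low h hκ.le hρ hy
    have a2 := mul_nonneg (show 0 ≤ κ / 2 by positivity) (f_nn h hy)
    have a3 := uu_high h hκ.le hκ1 hρ hy
    have a4 := cP'_le hκ hr (uu κ ρ g x y)
    have a5 := cP'_nn hκ hr (uu κ ρ g x y)
    have a6 := cT_le κ r (ww κ ρ g x y)
    have a7 := cT_nn κ r (ww κ ρ g x y)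
    have a0 : 0 ≤ 2 * f y + m y := by linarith [f_nn h hy, h.m0 y]
    have b1 : cP' κ r (uu κ ρ g x y) * (fderiv ℝ (uu κ ρ g x) y (W y) + m y)
        ≤ 128 / (κ * r) * (2 * f y + m y) := by
      apply mul_le_mul _ (by linarith) (by linarith) (by positivity)
      refine a4.trans ?_
      apply div_le_div_of_nonneg_right (by norm_num) (by positivity)
    have b2 : 0 ≤ cP' κ r (uu κ ρ g x y) * (fderiv ℝ (uu κ ρ g x) y (W y) + m y) :=
      mul_nonneg a5 (by linarith)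
    calc _ ≤ 1 * (cP' κ r (uu κ ρ g x y) * (fderiv ℝ (uu κ ρ g x) y (W y) + m y)) :=
          mul_le_mul_of_nonneg_right a6 b2
      _ ≤ _ := by rw [one_mul]; exact b1

end pr

theorem ub : StmUB := fun _ _ _ _ _ _ _ _ _ hκ hκ1 hρ h hr hrR => ubL h hκ hκ1 hρ hr hrR

/-! ### Products of compositions -/

/-- The derivative of `α(φ) β(ψ)`. -/
lemma prod_fderiv {φ ψ : V → ℝ} {α α' β β' : ℝ → ℝ} (hφ : ContDiff ℝ 1 φ) (hψ : ContDiff ℝ 1 ψ)
    (hα : ∀ s, HasDerivAt α (α' s) s) (hβ : ∀ s, HasDerivAt β (β' s) s) (y n : V) :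
    fderiv ℝ (fun y => α (φ y) * β (ψ y)) y n
      = α' (φ y) * fderiv ℝ φ y n * β (ψ y) + α (φ y) * (β' (ψ y) * fderiv ℝ ψ y n) := by
  have h1 : HasFDerivAt φ (fderiv ℝ φ y) y := (hφ.differentiable one_ne_zero y).hasFDerivAt
  have h2 : HasFDerivAt ψ (fderiv ℝ ψ y) y := (hψ.differentiable one_ne_zero y).hasFDerivAt
  have h3 := (hα (φ y)).comp_hasFDerivAt y h1
  have h4 := (hβ (ψ y)).comp_hasFDerivAt y h2
  have h5 := h3.mul h4
  have h6 : fderiv ℝ (fun y => α (φ y) * β (ψ y)) y = _ := h5.fderiv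
  rw [h6]
  simp only [Function.comp_apply, ContinuousLinearMap.add_apply, ContinuousLinearMap.smul_apply,
    smul_eq_mul]
  ring

lemma prod_c1 {φ ψ : V → ℝ} {α α' β β' : ℝ → ℝ} (hφ : ContDiff ℝ 1 φ) (hψ : ContDiff ℝ 1 ψ)
    (hα : ∀ s, HasDerivAt α (α' s) s) (hβ : ∀ s, HasDerivAt β (β' s) s)
    (hαc : Continuous α') (hβc : Continuous β') :
    ContDiff ℝ 1 (fun y => α (φ y) * β (ψ y)) :=
  ((c1_of_deriv hα hαc).comp hφ).mul ((c1_of_deriv hβ hβc).comp hψ)

end Pool.Agent.U481.VL
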