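import Pool.Agent.U481.VL.Cmp

/-!
Project VL (planned by helper85): the flux through the surface of a cube.
-/

set_option autoImplicit false

open MeasureTheory Set Metric Filter Topology
open scoped ContDiff
open H459R3.NS Pool.Agent.W268.NS Pool.Agent.Q67.VD

namespace Pool.Agent.U481.VL

open Pool.Agent.Q85.VL
open Pool.Agent.Q151.CC (WD)

/-! ### The cut-off of a cube -/

/-- One factor of the cut-off. -/
noncomputable def cc (s w t : ℝ) : ℝ := 1 - stp ((t ^ 2 - (s - w) ^ 2) / (4 * s * w))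

/-- Its derivative. -/
noncomputable def cc' (s w t : ℝ) : ℝ :=
  -(stp' ((t ^ 2 - (s - w) ^ 2) / (4 * s * w)) * (2 * t / (4 * s * w)))

section

variable {s w : ℝ}

lemma cc_deriv (s w t : ℝ) : HasDerivAt (cc s w) (cc' s w t) t := by
  have h1 : HasDerivAt (fun t : ℝ => (t ^ 2 - (s - w) ^ 2) / (4 * s * w)) (2 * t / (4 * s * w)) t := by
    have h2 : HasDerivAt (fun t : ℝ => t ^ 2) (2 * t) t := by simpa using hasDerivAt_pow 2 t
    exact (h2.sub_const _).div_const _
  exact ((stp_deriv _).comp t h1).const_sub 1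

lemma cc'_cont (s w : ℝ) : Continuous (cc' s w) := by
  unfold cc'
  exact ((stp'_cont.comp (by fun_prop)).mul (by fun_prop)).neg

lemma cc_nn (t : ℝ) : 0 ≤ cc s w t := by
  unfold cc
  linarith [stp_le ((t ^ 2 - (s - w) ^ 2) / (4 * s * w))]

lemma cc_le (t : ℝ) : cc s w t ≤ 1 := by
  unfold cc
  linarith [stp_nn ((t ^ 2 - (s - w) ^ 2) / (4 * s * w))]

lemma cc_in (hw : 0 < w) (hws : w ≤ s / 4) {t : ℝ} (ht : |t| ≤ s - w) :
    cc s w t = 1 ∧ cc' s w t = 0 := by
  have hs : 0 < s := by linarith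
  have h1 : t ^ 2 ≤ (s - w) ^ 2 := by
    rw [← sq_abs t]
    exact pow_le_pow_left₀ (abs_nonneg _) ht 2
  have h2 : (t ^ 2 - (s - w) ^ 2) / (4 * s * w) ≤ 0 :=
    div_nonpos_of_nonpos_of_nonneg (by linarith) (by positivity)
  unfold cc cc'
  rw [stp_low h2, stp'_low h2]
  simp

lemma cc_out (hw : 0 < w) (hws : w ≤ s / 4) {t : ℝ} (ht : s + w ≤ |t|) :
    cc s w t = 0 ∧ cc' s w t = 0 := by
  have hs : 0 < s := by linarith
  have h1 : (s + w) ^ 2 ≤ t ^ 2 := by
    rw [← sq_abs t]
    exact pow_le_pow_left₀ (by linarith) ht 2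
  have h2 : 1 ≤ (t ^ 2 - (s - w) ^ 2) / (4 * s * w) := by
    rw [le_div_iff₀ (by positivity)]
    nlinarith
  unfold cc cc'
  rw [stp_high h2, stp'_high h2]
  simp

lemma cc'_le (hw : 0 < w) (hws : w ≤ s / 4) (t : ℝ) : |cc' s w t| ≤ 15 / 16 / w := by
  have hs : 0 < s := by linarith
  rcases le_total (s + w) |t| with h | h
  · rw [(cc_out hw hws h).2, abs_zero]
    positivity
  · unfold cc'
    rw [abs_neg, abs_mul, abs_of_nonneg (stp'_nn _), abs_div, abs_mul, abs_two,
      abs_of_pos (show 0 < 4 * s * w by positivity)]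
    have h1 := stp'_le ((t ^ 2 - (s - w) ^ 2) / (4 * s * w))
    have h2 : 2 * |t| / (4 * s * w) ≤ 5 / 8 / w := by
      rw [div_le_div_iff₀ (by positivity) hw]
      have h4 : |t| ≤ 5 / 4 * s := by linarith
      have h5 : |t| * w ≤ 5 / 4 * s * w := mul_le_mul_of_nonneg_right h4 hw.le
      linarith
    calc _ ≤ 3 / 2 * (5 / 8 / w) := by
          apply mul_le_mul h1 h2 (by positivity) (by norm_num)
      _ = _ := by ring

/-- The cut-off. -/
noncomputable def chi (s w : ℝ) (x y : V) : ℝ :=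
  cc s w (y 0 - x 0) * cc s w (y 1 - x 1) * cc s w (y 2 - x 2)

lemma cc_i_fderiv (s w : ℝ) (x : V) (i : Fin 3) (y : V) :
    HasFDerivAt (fun y : V => cc s w (y i - x i))
      (cc' s w (y i - x i) • (ContinuousLinearMap.proj (R := ℝ) (φ := fun _ : Fin 3 => ℝ) i)) y := by
  have h1 : HasFDerivAt (fun y : V => y i - x i)
      (ContinuousLinearMap.proj (R := ℝ) (φ := fun _ : Fin 3 => ℝ) i) y :=
    (ContinuousLinearMap.proj (R := ℝ) (φ := fun _ : Fin 3 => ℝ) i).hasFDerivAt.sub_const _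
  exact HasDerivAt.comp_hasFDerivAt (h₂ := cc s w) (f := fun y : V => y i - x i) y
    (cc_deriv s w (y i - x i)) h1

lemma chi_fderiv (s w : ℝ) (x y n : V) : fderiv ℝ (chi s w x) y n
    = cc' s w (y 0 - x 0) * n 0 * (cc s w (y 1 - x 1) * cc s w (y 2 - x 2))
      + cc' s w (y 1 - x 1) * n 1 * (cc s w (y 0 - x 0) * cc s w (y 2 - x 2))
      + cc' s w (y 2 - x 2) * n 2 * (cc s w (y 0 - x 0) * cc s w (y 1 - x 1)) := by
  have h := ((cc_i_fderiv s w x 0 y).mul (cc_i_fderiv s w x 1 y)).mul (cc_i_fderiv s w x 2 y)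
  have h2 : fderiv ℝ (chi s w x) y = _ := h.fderiv
  rw [h2]
  simp only [ContinuousLinearMap.add_apply, ContinuousLinearMap.smul_apply,
    ContinuousLinearMap.proj_apply, smul_eq_mul, Pi.mul_apply]
  ring

lemma chi_c1 (s w : ℝ) (x : V) : ContDiff ℝ 1 (chi s w x) := by
  have h : ContDiff ℝ 1 (cc s w) := c1_of_deriv (cc_deriv s w) (cc'_cont s w)
  unfold chi
  exact ((h.comp (by fun_prop)).mul (h.comp (by fun_prop))).mul (h.comp (by fun_prop))

lemma chi_nn (x y : V) : 0 ≤ chi s w x y :=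
  mul_nonneg (mul_nonneg (cc_nn _) (cc_nn _)) (cc_nn _)

lemma chi_le (x y : V) : chi s w x y ≤ 1 :=
  mul_le_one₀ (mul_le_one₀ (cc_le _) (cc_nn _) (cc_le _)) (cc_nn _) (cc_le _)

lemma coord_le (x y : V) (i : Fin 3) : |y i - x i| ≤ ‖y - x‖ := by
  have := norm_le_pi_norm (y - x) i
  rwa [Real.norm_eq_abs, Pi.sub_apply] at this

lemma exists_coord {x y : V} {c : ℝ} (hc : 0 ≤ c) (h : c < ‖y - x‖) : ∃ i, c < |y i - x i| := by
  by_contra hcon
  push Not at hcon
  have : ‖y - x‖ ≤ c := by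
    rw [pi_norm_le_iff_of_nonneg hc]
    intro i
    rw [Real.norm_eq_abs]
    exact hcon i
  linarith

lemma chi_one (hw : 0 < w) (hws : w ≤ s / 4) {x y : V} (h : ‖y - x‖ ≤ s - w) :
    chi s w x y = 1 := by
  unfold chi
  rw [(cc_in hw hws ((coord_le x y 0).trans h)).1, (cc_in hw hws ((coord_le x y 1).trans h)).1,
    (cc_in hw hws ((coord_le x y 2).trans h)).1]
  norm_num

lemma chi_zero (hw : 0 < w) (hws : w ≤ s / 4) {x y : V} (h : s + w < ‖y - x‖) :
    chi s w x y = 0 := by
  obtain ⟨i, hi⟩ := exists_coord (by linarith) h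
  have h1 := (cc_out hw hws hi.le).1
  unfold chi
  fin_cases i
  · simp only [Fin.zero_eta] at h1
    rw [h1]
    ring
  · simp only [Fin.mk_one] at h1
    rw [h1]
    ring
  · simp only [Fin.reduceFinMk] at h1
    rw [h1]
    ring

lemma sum_abs_le (n : V) : |n 0| + |n 1| + |n 2| ≤ 7 / 4 * len n := by
  apply le_of_sqU (by linarith [len_nn n])
  rw [mul_pow, len, Real.sq_sqrt (dot_self_nn n), dot_expand]
  have h0 := sq_abs (n 0)
  have h1 := sq_abs (n 1)
  have h2 := sq_abs (n 2)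
  nlinarith [sq_nonneg (|n 0| - |n 1|), sq_nonneg (|n 0| - |n 2|), sq_nonneg (|n 1| - |n 2|)]

lemma chi_grad (hw : 0 < w) (hws : w ≤ s / 4) (x y n : V) :
    |fderiv ℝ (chi s w x) y n| ≤ 2 / w * len n := by
  rw [chi_fderiv]
  have key : ∀ (i j k : Fin 3), |cc' s w (y i - x i) * n i * (cc s w (y j - x j) *
      cc s w (y k - x k))| ≤ 15 / 16 / w * |n i| := by
    intro i j k
    rw [abs_mul, abs_mul]
    have h1 := cc'_le hw hws (y i - x i)
    have h2 : |cc s w (y j - x j) * cc s w (y k - x k)| ≤ 1 := by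
      rw [abs_of_nonneg (mul_nonneg (cc_nn _) (cc_nn _))]
      exact mul_le_one₀ (cc_le _) (cc_nn _) (cc_le _)
    calc _ ≤ |cc' s w (y i - x i)| * |n i| * 1 := by
          apply mul_le_mul_of_nonneg_left h2 (by positivity)
      _ ≤ _ := by rw [mul_one]; exact mul_le_mul_of_nonneg_right h1 (abs_nonneg _)
  have h0 := key 0 1 2
  have h1 := key 1 0 2
  have h2 := key 2 0 1
  have h3 := sum_abs_le n
  have h4 := abs_add_le (cc' s w (y 0 - x 0) * n 0 * (cc s w (y 1 - x 1) * cc s w (y 2 - x 2))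
    + cc' s w (y 1 - x 1) * n 1 * (cc s w (y 0 - x 0) * cc s w (y 2 - x 2)))
    (cc' s w (y 2 - x 2) * n 2 * (cc s w (y 0 - x 0) * cc s w (y 1 - x 1)))
  have h5 := abs_add_le (cc' s w (y 0 - x 0) * n 0 * (cc s w (y 1 - x 1) * cc s w (y 2 - x 2)))
    (cc' s w (y 1 - x 1) * n 1 * (cc s w (y 0 - x 0) * cc s w (y 2 - x 2)))
  have h6 : 15 / 16 / w * (|n 0| + |n 1| + |n 2|) ≤ 15 / 16 / w * (7 / 4 * len n) :=
    mul_le_mul_of_nonneg_left h3 (by positivity)
  have h7 : 15 / 16 / w * (7 / 4 * len n) ≤ 2 / w * len n := by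
    have e : 2 / w * len n - 15 / 16 / w * (7 / 4 * len n) = 23 / 64 / w * len n := by ring
    have : 0 ≤ 23 / 64 / w * len n := mul_nonneg (by positivity) (len_nn n)
    linarith
  linarith

lemma chi_grad_zero (hw : 0 < w) (hws : w ≤ s / 4) {x y : V} (hy : y ∉ Shell x s w) (n : V) :
    fderiv ℝ (chi s w x) y n = 0 := by
  rw [chi_fderiv]
  have hy' : w < |‖y - x‖ - s| := by
    by_contra hc
    exact hy (not_lt.1 hc)
  rcases lt_abs.1 hy' with h | h
  · obtain ⟨i, hi⟩ := exists_coord (x := x) (y := y) (c := s + w) (by linarith) (by linarith)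
    have h1 := cc_out hw hws hi.le
    fin_cases i
    · simp only [Fin.zero_eta] at h1
      rw [h1.1, h1.2]
      ring
    · simp only [Fin.mk_one] at h1
      rw [h1.1, h1.2]
      ring
    · simp only [Fin.reduceFinMk] at h1
      rw [h1.1, h1.2]
      ring
  · have h0 : ‖y - x‖ ≤ s - w := by linarith
    rw [(cc_in hw hws ((coord_le x y 0).trans h0)).2, (cc_in hw hws ((coord_le x y 1).trans h0)).2,
      (cc_in hw hws ((coord_le x y 2).trans h0)).2]
    ring

end

lemma shell_meas (x : V) (s w : ℝ) : MeasurableSet (Shell x s w) := by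
  unfold Shell
  exact (isClosed_le (by fun_prop) continuous_const).measurableSet

/-- VL-5. -/
theorem fcL {κ ρ R r s w : ℝ} {x : V} {f m : V → ℝ} {W : V → V} {g : V → ℝ}
    (h : LF κ R x f m W g) (hκ : 0 < κ) (_hκ1 : κ ≤ 1) (hρ : 0 < ρ) (hr : 0 < r) (hrs : r ≤ s)
    (hw : 0 < w) (hws : w ≤ s / 4) (hR : s + w ≤ R) :
    AA κ ρ R g x W m r ≤ 2 / w * (∫ y in Shell x s w ∩ {y | 0 < uu κ ρ g x y}, f y)
      + 256 / (κ * r) * ∫ y in closedBall x (s + w), m y := by
  have hφ := ww_c1 κ hρ h.gs x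
  have hψ := uu_c1 κ hρ h.gs x
  have hF1 := prod_c1 hφ hψ (cT_deriv κ r) (cP_deriv κ r) (cT'_cont κ r) (cP'_cont κ r)
  have hF := hF1.mul (chi_c1 s w x)
  have hSm : MeasurableSet (Shell x s w ∩ {y | 0 < uu κ ρ g x y}) :=
    (shell_meas x s w).inter (isOpen_lt continuous_const hψ.continuous).measurableSet
  have hsub : Shell x s w ∩ {y | 0 < uu κ ρ g x y} ⊆ closedBall x R := by
    rintro y ⟨hy, -⟩
    have hy' : |‖y - x‖ - s| ≤ w := hy
    rw [mem_closedBall, dist_eq_norm]
    linarith [(abs_le.1 hy').2]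
  have e1 : ∫ y in Shell x s w ∩ {y | 0 < uu κ ρ g x y}, f y
      = ∫ y in closedBall x R, (Shell x s w ∩ {y | 0 < uu κ ρ g x y}).indicator f y := by
    rw [setIntegral_indicator hSm, inter_eq_right.2 hsub]
  have e2 : ∫ y in closedBall x (s + w), m y
      = ∫ y in closedBall x R, (closedBall x (s + w)).indicator m y :=
    (ind_eq (closedBall_subset_closedBall hR)).symm
  have i1 : IntegrableOn (fun y => 2 / w *
      (Shell x s w ∩ {y | 0 < uu κ ρ g x y}).indicator f y) (closedBall x R) :=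
    (int_indU h.fc x R hSm).const_mul _
  have i2 : IntegrableOn (fun y => 256 / (κ * r) * (closedBall x (s + w)).indicator m y)
      (closedBall x R) := (int_indU h.mc x R measurableSet_closedBall).const_mul _
  rw [e1, e2, ← integral_const_mul, ← integral_const_mul, ← integral_add i1 i2]
  unfold AA
  refine test_le h.wd hF (r := s + w) hR ?_ (int_cube (pr_cont h κ hρ r) x R) (i1.add i2) ?_
  · intro y hy
    by_contra hc
    rw [mem_closedBall, dist_eq_norm, not_le] at hc
    apply hy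
    show _ * chi s w x y = 0
    rw [chi_zero hw hws hc, mul_zero]
  · intro y hy
    have eF : fderiv ℝ (fun y => cT κ r (ww κ ρ g x y) * cP κ r (uu κ ρ g x y) * chi s w x y) y (W y)
        = cT κ r (ww κ ρ g x y) * cP κ r (uu κ ρ g x y) * fderiv ℝ (chi s w x) y (W y)
          + chi s w x y * (cT' κ r (ww κ ρ g x y) * fderiv ℝ (ww κ ρ g x) y (W y) *
            cP κ r (uu κ ρ g x y) + cT κ r (ww κ ρ g x y) * (cP' κ r (uu κ ρ g x y) *
            fderiv ℝ (uu κ ρ g x) y (W y))) := by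
      have h1 := (hF1.differentiable one_ne_zero y).hasFDerivAt.mul
        ((chi_c1 s w x).differentiable one_ne_zero y).hasFDerivAt
      have h2 := h1.fderiv
      have h3 : fderiv ℝ (fun y => cT κ r (ww κ ρ g x y) * cP κ r (uu κ ρ g x y) * chi s w x y) y
        = _ := h2
      rw [h3]
      simp only [ContinuousLinearMap.add_apply, ContinuousLinearMap.smul_apply, smul_eq_mul]
      rw [prod_fderiv hφ hψ (cT_deriv κ r) (cP_deriv κ r) y (W y)]
    rw [eF]
    have hA := uu_low h hκ.le hρ hy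
    have hB := ww_low h hκ.le hρ hy
    have hf := f_nn h hy
    have hM := h.m0 y
    have hup := h.up y hy
    have hpr : pr κ ρ g x W m r y = chi s w x y * pr κ ρ g x W m r y := by
      by_cases hp : pr κ ρ g x W m r y = 0
      · rw [hp, mul_zero]
      · have h1 := pr_supp hκ hr hp
        rw [chi_one hw hws (by linarith [norm_le_ds x ρ y]), one_mul]
    have hg := chi_grad hw hws x y (W y)
    rw [hpr, pr_eq]
    obtain ⟨A, hAd⟩ : ∃ A, A = fderiv ℝ (uu κ ρ g x) y (W y) := ⟨_, rfl⟩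
    obtain ⟨B, hBd⟩ : ∃ B, B = fderiv ℝ (ww κ ρ g x) y (W y) := ⟨_, rfl⟩
    obtain ⟨C, hCd⟩ : ∃ C, C = fderiv ℝ (chi s w x) y (W y) := ⟨_, rfl⟩
    obtain ⟨a, ha⟩ : ∃ a, a = uu κ ρ g x y := ⟨_, rfl⟩
    obtain ⟨b, hb⟩ : ∃ b, b = ww κ ρ g x y := ⟨_, rfl⟩
    obtain ⟨X, hX⟩ : ∃ X, X = chi s w x y := ⟨_, rfl⟩
    rw [← hAd] at hA
    rw [← hBd] at hB
    rw [← hCd] at hg
    rw [← hAd, ← hBd, ← hCd, ← ha, ← hb, ← hX]
    have hA0 : 0 ≤ A + m y := (mul_nonneg (by positivity) hf).trans hA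
    have hB0 : 0 ≤ B + m y := (mul_nonneg (by positivity) hf).trans hB
    have t1 := cT_nn κ r b
    have t3 := cT'_nn hκ hr b
    have t4 := cT'_le hκ hr b
    have t5 := cT_le κ r b
    have p2 := cP'_nn hκ hr a
    have p4 := cP_nn κ r a
    have p5 := cP_le κ r a
    have p6 := cP'_le hκ hr a
    have x0 : 0 ≤ X := by rw [hX]; exact chi_nn x y
    have x1 : X ≤ 1 := by rw [hX]; exact chi_le x y
    -- the remainder
    have g1 : X * (cT' κ r b * m y * cP κ r a) + X * (cT κ r b * (cP' κ r a * m y))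
        ≤ 256 / (κ * r) * (closedBall x (s + w)).indicator m y := by
      by_cases hy' : y ∈ closedBall x (s + w)
      · rw [indicator_of_mem hy']
        have e1 : cT' κ r b * m y * cP κ r a ≤ 24 / (κ * r) * m y * 1 := by
          apply mul_le_mul _ p5 p4 (by positivity)
          exact mul_le_mul_of_nonneg_right t4 hM
        have e2 : cT κ r b * (cP' κ r a * m y) ≤ 1 * (96 / (κ * r) * m y) := by
          apply mul_le_mul t5 _ (mul_nonneg p2 hM) (by norm_num)
          exact mul_le_mul_of_nonneg_right p6 hM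
        have e1' : X * (cT' κ r b * m y * cP κ r a) ≤ 1 * (24 / (κ * r) * m y * 1) :=
          mul_le_mul x1 e1 (mul_nonneg (mul_nonneg t3 hM) p4) (by norm_num)
        have e2' : X * (cT κ r b * (cP' κ r a * m y)) ≤ 1 * (1 * (96 / (κ * r) * m y)) :=
          mul_le_mul x1 e2 (mul_nonneg t1 (mul_nonneg p2 hM)) (by norm_num)
        have e3 : 1 * (24 / (κ * r) * m y * 1) + 1 * (1 * (96 / (κ * r) * m y))
            = 120 / (κ * r) * m y := by ring
        have e4 : 120 / (κ * r) * m y ≤ 256 / (κ * r) * m y := by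
          apply mul_le_mul_of_nonneg_right _ hM
          apply div_le_div_of_nonneg_right (by norm_num) (by positivity)
        linarith
      · rw [indicator_of_notMem hy', mul_zero]
        rw [mem_closedBall, dist_eq_norm, not_le] at hy'
        rw [hX, chi_zero hw hws hy']
        simp
    -- the boundary term
    have g2 : -(cT κ r b * cP κ r a * C)
        ≤ 2 / w * (Shell x s w ∩ {y | 0 < uu κ ρ g x y}).indicator f y := by
      by_cases hy' : y ∈ Shell x s w ∩ {y | 0 < uu κ ρ g x y}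
      · rw [indicator_of_mem hy']
        have e1 : |C| ≤ 2 / w * f y := hg.trans (mul_le_mul_of_nonneg_left hup (by positivity))
        have e2 : cT κ r b * cP κ r a ≤ 1 := mul_le_one₀ t5 p4 p5
        have e3 : 0 ≤ cT κ r b * cP κ r a := mul_nonneg t1 p4
        have e4 : cT κ r b * cP κ r a * |C| ≤ 1 * (2 / w * f y) :=
          mul_le_mul e2 e1 (abs_nonneg _) (by norm_num)
        have e5 : -(cT κ r b * cP κ r a * C) ≤ cT κ r b * cP κ r a * |C| := by
          have := mul_le_mul_of_nonneg_left (neg_le_abs C) e3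
          linarith
        linarith
      · rw [indicator_of_notMem hy', mul_zero]
        by_cases hsh : y ∈ Shell x s w
        · have h0 : a ≤ κ * r / 64 := by
            by_contra hc
            rw [not_le] at hc
            apply hy'
            refine ⟨hsh, ?_⟩
            show 0 < uu κ ρ g x y
            rw [← ha]
            have : 0 < κ * r := by positivity
            linarith
          rw [cP_zero hκ hr h0]
          simp
        · rw [hCd, chi_grad_zero hw hws hsh]
          simp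
    have g3 : 0 ≤ X * (cT' κ r b * (B + m y) * cP κ r a) :=
      mul_nonneg x0 (mul_nonneg (mul_nonneg t3 hB0) p4)
    linear_combination g1 + g2 + g3

theorem fc : StmFC := fun _ _ _ _ _ _ _ _ _ _ _ hκ hκ1 hρ h hr hrs hw hws hR =>
  fcL h hκ hκ1 hρ hr hrs hw hws hR

end Pool.Agent.U481.VL
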