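import Pool.Agent.U481.VL.Fc

/-!
Project VL (planned by helper85): two families of curves.
-/

set_option autoImplicit false

open MeasureTheory Set Metric Filter Topology
open scoped ContDiff
open H459R3.NS Pool.Agent.W268.NS Pool.Agent.Q67.VD

namespace Pool.Agent.U481.VL

open Pool.Agent.Q85.VL
open Pool.Agent.Q151.CC (WD)

section

variable {κ ρ R r : ℝ} {x : V} {f m : V → ℝ} {W : V → V} {g : V → ℝ}

/-- The flux outside of the narrow family. -/
noncomputable def dif (κ ρ : ℝ) (g : V → ℝ) (x : V) (W : V → V) (m : V → ℝ) (r q : ℝ) (y : V) : ℝ :=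
  (cT κ r (ww κ ρ g x y) - cT κ q (ww κ ρ g x y)) * (cP' κ q (uu κ ρ g x y) *
    (fderiv ℝ (uu κ ρ g x) y (W y) + m y))

lemma dif_cont (h : LF κ R x f m W g) (κ' : ℝ) (hρ : 0 < ρ) (r q : ℝ) :
    Continuous (dif κ' ρ g x W m r q) := by
  have h1 := (uu_c1 κ' hρ h.gs x)
  have h2 := (ww_c1 κ' hρ h.gs x)
  have h3 : ∀ r, Continuous fun y => cT κ' r (ww κ' ρ g x y) := fun r =>
    (cT_c1 κ' r).continuous.comp h2.continuous
  have h4 : Continuous fun y => cP' κ' q (uu κ' ρ g x y) :=
    (cP'_cont κ' q).comp h1.continuous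
  exact ((h3 r).sub (h3 q)).mul (h4.mul ((grad_cont h1 h.wd.cont).add h.mc))

/-- First step. -/
theorem tfA (h : LF κ R x f m W g) (hκ : 0 < κ) (hρ : 0 < ρ) {q : ℝ}
    (hq : 0 < q) (hqr : q ≤ r / 2) (hrR : r ≤ R) :
    ∫ y in closedBall x R, dif κ ρ g x W m r q y
      ≤ AA κ ρ R g x W m r - AA κ ρ R g x W m q + 120 / (κ * q) * ∫ y in closedBall x r, m y := by
  have hr : 0 < r := by linarith
  rw [← m_int h hrR, ← integral_const_mul]
  unfold AA
  have hI : IntegrableOn (fun y => 120 / (κ * q) * (closedBall x r).indicator m y)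
      (closedBall x R) := (int_indU h.mc x R measurableSet_closedBall).const_mul _
  have hp := int_cube (pr_cont h κ hρ r) x R
  have hp' := int_cube (pr_cont h κ hρ q) x R
  have hpp : IntegrableOn (fun y => pr κ ρ g x W m r y - pr κ ρ g x W m q y) (closedBall x R) :=
    hp.sub hp'
  rw [← integral_sub hp hp', ← integral_add hpp hI]
  refine cmp_test h hκ hρ hq hr hr (by linarith) (by linarith) hrR
    (int_cube (dif_cont h κ hρ r q) x R) (hpp.add hI) (fun y hy => ?_) (by linarith)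
  have hB := ww_low h hκ.le hρ hy
  have hf := f_nn h hy
  have hB0 : 0 ≤ fderiv ℝ (ww κ ρ g x) y (W y) + m y :=
    (mul_nonneg (by positivity) hf).trans hB
  rw [pr_eq, pr_eq]
  unfold dif
  have hM := h.m0 y
  obtain ⟨A, hAd⟩ : ∃ A, A = fderiv ℝ (uu κ ρ g x) y (W y) := ⟨_, rfl⟩
  obtain ⟨B, hBd⟩ : ∃ B, B = fderiv ℝ (ww κ ρ g x) y (W y) := ⟨_, rfl⟩
  obtain ⟨s, hs⟩ : ∃ s, s = uu κ ρ g x y := ⟨_, rfl⟩
  obtain ⟨w, hw⟩ : ∃ w, w = ww κ ρ g x y := ⟨_, rfl⟩
  obtain ⟨M, hMd⟩ : ∃ M, M = m y := ⟨_, rfl⟩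
  rw [← hBd, ← hMd] at hB0
  rw [← hMd] at hM
  rw [← hAd, ← hBd, ← hs, ← hw, ← hMd]
  have t1 := cT_nn κ r w
  have t3 := cT'_nn hκ hr w
  have p1 := cP_anti hκ hq (show q ≤ r by linarith) s
  have p2 := cP'_nn hκ hr s
  have p3 := cP'_nn hκ hq s
  have p4 := cP_nn κ r s
  have p5 := cP_le κ q s
  have t4 := cT'_le hκ hr w
  have p6 := cP'_le hκ hq s
  have t5 := cT_le κ r w
  -- the remainder
  have hrem : cT' κ r w * M * (cP κ q s - cP κ r s) + cT κ r w * (cP' κ q s * M)
      ≤ 120 / (κ * q) * (closedBall x r).indicator m y := by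
    by_cases hy' : y ∈ closedBall x r
    · rw [indicator_of_mem hy', ← hMd]
      have e0 : 24 / (κ * r) ≤ 24 / (κ * q) := by
        apply div_le_div_of_nonneg_left (by norm_num) (by positivity)
        exact mul_le_mul_of_nonneg_left (by linarith) hκ.le
      have e1 : cT' κ r w * M * (cP κ q s - cP κ r s) ≤ 24 / (κ * q) * M * 1 := by
        apply mul_le_mul _ (by linarith) (by linarith) (by positivity)
        exact mul_le_mul_of_nonneg_right (t4.trans e0) hM
      have e2 : cT κ r w * (cP' κ q s * M) ≤ 1 * (96 / (κ * q) * M) := by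
        apply mul_le_mul t5 _ (mul_nonneg p3 hM) (by norm_num)
        exact mul_le_mul_of_nonneg_right p6 hM
      have e3 : 24 / (κ * q) * M * 1 + 1 * (96 / (κ * q) * M) = 120 / (κ * q) * M := by ring
      linarith
    · rw [indicator_of_notMem hy', mul_zero]
      have hds : r < ds x ρ y := by
        rw [mem_closedBall, dist_eq_norm, not_le] at hy'
        exact hy'.trans_le (norm_le_ds x ρ y)
      have key : w ≤ -(κ * r / 8) ∨ κ * r / 32 ≤ s := by
        by_contra hc
        rw [not_or, not_le, not_le] at hc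
        have := near_of (κ := κ) (ρ := ρ) (g := g) (x := x) (y := y) (a := r / 8) (b := r / 32)
          (c := r) hκ (by rw [← hs]; linarith [hc.2]) (by rw [← hw]; linarith [hc.1])
          (by linarith)
        linarith
      rcases key with hk | hk
      · rw [cT_zero hκ hr hk, cT'_zero hκ hr hk]
        simp
      · have hk' : κ * q / 32 ≤ s := by
          have := mul_le_mul_of_nonneg_left (show q ≤ r by linarith) hκ.le
          linarith
        rw [cP_one hκ hr hk, cP_one hκ hq hk', cP'_one hκ hq hk']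
        simp
  have i2 : 0 ≤ cT κ r w * (cP' κ r s * M) := mul_nonneg t1 (mul_nonneg p2 hM)
  have i3 : 0 ≤ cT' κ r w * (B + M) * (cP κ q s - cP κ r s) :=
    mul_nonneg (mul_nonneg t3 hB0) (by linarith)
  linear_combination hrem + i2 + i3

/-- Second step, at the scale `q = r / 256`. -/
theorem tfB (h : LF κ R x f m W g) (hκ : 0 < κ) (hκ1 : κ ≤ 1) (hρ : 0 < ρ) {q s : ℝ} {z : V}
    (hq : 0 < q) (hqr : r = 256 * q) (hrR : r ≤ R) (hρr : ρ ≤ 4 * q) (hs1 : 4 * q ≤ s)
    (hs2 : s ≤ 8 * q) (hz : ‖z - x‖ = s) (hu : uu κ ρ g x z = -(κ * q / 64)) :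
    23 * κ ^ 2 * q / 1024 * ∫ y in closedBall z (κ * q / 2048), f y
      ≤ (3 * (κ * q) / 32) ^ 2 * (∫ y in closedBall x R, dif κ ρ g x W m r q y)
        + 3 * (κ * q) / 16 * ∫ y in closedBall x r, m y := by
  have hr : 0 < r := by linarith
  have hκq : 0 < κ * q := by positivity
  obtain ⟨δ, hδ⟩ : ∃ δ, δ = κ * q / 2048 := ⟨_, rfl⟩
  have hδ0 : 0 < δ := by rw [hδ]; positivity
  rw [← hδ]
  have hκqq : κ * q ≤ q := by nlinarith
  have hψ := uu_c1 κ hρ h.gs x
  have hφ : ContDiff ℝ 1 (qq (κ / 4) δ (uu κ ρ g x) (uu κ ρ g x z) z) := qq_c1 _ hδ0 hψ _ _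
  have hβ : ∀ s, HasDerivAt (fun s => 1 - cP κ q s) (-cP' κ q s) s := fun s =>
    (cP_deriv κ q s).const_sub 1
  have hF := prod_c1 (β := fun s => 1 - cP κ q s) (α := fun s => psq (s + 3 * (κ * q) / 64)) hφ hψ
    (psq_shift_deriv (3 * (κ * q) / 64)) hβ (by fun_prop) (cP'_cont κ q).neg
  -- geometry
  have hlenz : len (z - x) ≤ 7 / 4 * s := by
    have := len_le_norm (z - x)
    rwa [hz] at this
  have geo : ∀ y, uu κ ρ g x y < κ * q / 32 →
      -(3 * (κ * q) / 64) < qq (κ / 4) δ (uu κ ρ g x) (uu κ ρ g x z) z y →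
      y ∈ closedBall x r ∧ qq (κ / 4) δ (uu κ ρ g x) (uu κ ρ g x z) z y ≤ 3 * (κ * q) / 64 ∧
      -(κ * r / 16) ≤ ww κ ρ g x y ∧ ww κ ρ g x y ≤ -(κ * q / 8) := by
    intro y h1 h2
    have e1 : qq (κ / 4) δ (uu κ ρ g x) (uu κ ρ g x z) z y
        = uu κ ρ g x y + κ * q / 64 - κ / 4 * ds z δ y := by
      unfold qq
      rw [hu]
      ring
    rw [e1] at h2 ⊢
    have hd0 := ds_pos z hδ0 y
    have hd : κ * ds z δ y < κ * (3 / 8 * q) := by linarith
    have hd' : ds z δ y < 3 / 8 * q := lt_of_mul_lt_mul_left hd hκ.le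
    have hn := norm_le_ds z δ y
    have hl := len_le_ds z δ y
    have hx1 : ‖y - x‖ ≤ ‖y - z‖ + ‖z - x‖ := by
      have : y - x = (y - z) + (z - x) := by abel
      rw [this]
      exact norm_add_le _ _
    have hx2 : ‖z - x‖ ≤ ‖y - z‖ + ‖y - x‖ := by
      have : z - x = -(y - z) + (y - x) := by abel
      rw [this]
      refine (norm_add_le _ _).trans ?_
      rw [norm_neg]
    have hx3 : len (y - x) ≤ len (y - z) + len (z - x) := by
      have : y - x = (y - z) + (z - x) := by abel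
      rw [this]
      exact len_add _ _
    have hds1 := ds_le x hρ y
    have hds2 := norm_le_ds x ρ y
    have hκd : 0 ≤ κ / 4 * ds z δ y := by positivity
    have k1 : κ * ds x ρ y ≤ κ * (19 * q) := mul_le_mul_of_nonneg_left (by linarith) hκ.le
    have k2 : κ * (29 / 8 * q) ≤ κ * ds x ρ y := mul_le_mul_of_nonneg_left (by linarith) hκ.le
    refine ⟨?_, by linarith, ?_, ?_⟩
    · rw [mem_closedBall, dist_eq_norm]
      linarith
    · rw [ww_eq_uu, hqr]
      linarith
    · rw [ww_eq_uu]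
      linarith
  -- the integrable functions
  have hsubB : closedBall z δ ⊆ closedBall x R := by
    apply closedBall_subset_closedBall'
    rw [dist_eq_norm, hz]
    have : δ ≤ q := by rw [hδ]; linarith
    linarith
  have i1 : IntegrableOn (fun y => 23 * κ ^ 2 * q / 1024 * (closedBall z δ).indicator f y)
      (closedBall x R) := (int_indU h.fc x R measurableSet_closedBall).const_mul _
  have i2 : IntegrableOn (fun y => (3 * (κ * q) / 32) ^ 2 * dif κ ρ g x W m r q y)
      (closedBall x R) := (int_cube (dif_cont h κ hρ r q) x R).const_mul _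
  have i3 : IntegrableOn (fun y => 3 * (κ * q) / 16 * (closedBall x r).indicator m y)
      (closedBall x R) := (int_indU h.mc x R measurableSet_closedBall).const_mul _
  have key := test_le h.wd hF hrR
    (P := fun y => 23 * κ ^ 2 * q / 1024 * (closedBall z δ).indicator f y)
    (Q := fun y => (3 * (κ * q) / 32) ^ 2 * dif κ ρ g x W m r q y
      + 3 * (κ * q) / 16 * (closedBall x r).indicator m y) ?_ i1 (i2.add i3) ?_
  · rw [integral_add i2 i3, integral_const_mul, integral_const_mul, integral_const_mul,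
      ind_eq hsubB, m_int h hrR] at key
    exact key
  · -- the support
    intro y hy
    have h1 : psq (qq (κ / 4) δ (uu κ ρ g x) (uu κ ρ g x z) z y + 3 * (κ * q) / 64) ≠ 0 :=
      fun h0 => hy (by simp only [h0, zero_mul])
    refine (geo y ?_ ?_).1
    · by_contra hc
      rw [not_lt] at hc
      apply hy
      have e1 : cP κ q (uu κ ρ g x y) = 1 := cP_one hκ hq hc
      simp only [e1, sub_self, mul_zero]
    · by_contra hc
      exact h1 (psq_low (by linarith [not_lt.1 hc]))
  · intro y hy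
    have e0 := prod_fderiv (β := fun s => 1 - cP κ q s)
      (α := fun s => psq (s + 3 * (κ * q) / 64)) hφ hψ
      (psq_shift_deriv (3 * (κ * q) / 64)) hβ y (W y)
    rw [e0]
    have hA := uu_low h hκ.le hρ hy
    have hf := f_nn h hy
    have hM := h.m0 y
    have hup := h.up y hy
    have hV : κ / 4 * f y ≤ fderiv ℝ (qq (κ / 4) δ (uu κ ρ g x) (uu κ ρ g x z) z) y (W y) + m y := by
      rw [qq_fderiv _ hδ0 hψ]
      have h3 := (abs_le.1 (ds_fderiv z hδ0 y (W y))).2
      have h4 : κ / 4 * fderiv ℝ (ds z δ) y (W y) ≤ κ / 4 * f y :=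
        mul_le_mul_of_nonneg_left (h3.trans hup) (by positivity)
      linarith
    have hg := geo y
    have hds := ds_pos z hδ0 y
    have hve : qq (κ / 4) δ (uu κ ρ g x) (uu κ ρ g x z) z y
        = uu κ ρ g x y + κ * q / 64 - κ / 4 * ds z δ y := by
      unfold qq
      rw [hu]
      ring
    unfold dif
    obtain ⟨A, hAd⟩ : ∃ A, A = fderiv ℝ (uu κ ρ g x) y (W y) := ⟨_, rfl⟩
    obtain ⟨B, hBd⟩ : ∃ B, B = fderiv ℝ (qq (κ / 4) δ (uu κ ρ g x) (uu κ ρ g x z) z) y (W y) :=
      ⟨_, rfl⟩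
    obtain ⟨a, ha⟩ : ∃ a, a = uu κ ρ g x y := ⟨_, rfl⟩
    obtain ⟨w, hw⟩ : ∃ w, w = ww κ ρ g x y := ⟨_, rfl⟩
    obtain ⟨v, hv⟩ : ∃ v, v = qq (κ / 4) δ (uu κ ρ g x) (uu κ ρ g x z) z y := ⟨_, rfl⟩
    rw [← hAd] at hA
    rw [← hBd] at hV
    rw [← ha, ← hv, ← hw] at hg
    rw [← hv, ← ha] at hve
    rw [← hAd, ← hBd, ← ha, ← hw, ← hv]
    have t1 := cT_nn κ r w
    have p2 := cP'_nn hκ hq a
    have p4 := cP_nn κ q a
    have p5 := cP_le κ q a
    have t2 := cT_mono hκ hq (show q ≤ r by linarith) w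
    have hA0 : 0 ≤ A + m y := (mul_nonneg (by positivity) hf).trans hA
    have hB0 : 0 ≤ B + m y := (mul_nonneg (by positivity) hf).trans hV
    have hq0 : 0 ≤ max 0 (v + 3 * (κ * q) / 64) := le_max_left _ _
    -- the square against the cut-off
    have g1 : psq (v + 3 * (κ * q) / 64) * (cP' κ q a * (A + m y))
        ≤ (3 * (κ * q) / 32) ^ 2 * ((cT κ r w - cT κ q w) * (cP' κ q a * (A + m y))) := by
      have hnn : 0 ≤ (3 * (κ * q) / 32) ^ 2 * ((cT κ r w - cT κ q w) * (cP' κ q a * (A + m y))) :=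
        mul_nonneg (sq_nonneg _) (mul_nonneg (by linarith) (mul_nonneg p2 hA0))
      by_cases hp : cP' κ q a = 0
      · rw [hp]
        simp
      · obtain ⟨-, hs2⟩ := cP'_supp hκ hq hp
        by_cases hv1 : v ≤ -(3 * (κ * q) / 64)
        · rw [psq_low (by linarith), zero_mul]
          exact hnn
        · obtain ⟨-, k2, k3, k4⟩ := hg (by linarith) (not_le.1 hv1)
          rw [cT_one hκ hr k3, cT_zero hκ hq k4, sub_zero, one_mul]
          apply mul_le_mul_of_nonneg_right _ (mul_nonneg p2 hA0)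
          refine (psq_le (b := 3 * (κ * q) / 32) (by positivity) (by linarith)).trans le_rfl
    have g3 : 0 ≤ psq (v + 3 * (κ * q) / 64) * (cP' κ q a * m y) :=
      mul_nonneg (psq_nn _) (mul_nonneg p2 hM)
    -- the remainder
    have g4 : 2 * max 0 (v + 3 * (κ * q) / 64) * m y * (1 - cP κ q a)
        ≤ 3 * (κ * q) / 16 * (closedBall x r).indicator m y := by
      have hnn : 0 ≤ 3 * (κ * q) / 16 * (closedBall x r).indicator m y :=
        mul_nonneg (by positivity) (m_ind_nn h _ y)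
      by_cases hp : κ * q / 32 ≤ a
      · rw [cP_one hκ hq hp, sub_self, mul_zero]
        exact hnn
      · rw [not_le] at hp
        by_cases hv1 : v ≤ -(3 * (κ * q) / 64)
        · rw [max_eq_left (by linarith)]
          simp only [mul_zero, zero_mul]
          exact hnn
        · obtain ⟨k1, k2, -, -⟩ := hg hp (not_le.1 hv1)
          rw [indicator_of_mem k1]
          have h5 : max 0 (v + 3 * (κ * q) / 64) ≤ 3 * (κ * q) / 32 :=
            max_le (by positivity) (by linarith)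
          have h6 : 2 * max 0 (v + 3 * (κ * q) / 64) * m y * (1 - cP κ q a)
              ≤ 2 * (3 * (κ * q) / 32) * m y * 1 := by
            apply mul_le_mul _ (by linarith) (by linarith) (by positivity)
            apply mul_le_mul_of_nonneg_right _ hM
            linarith
          linarith
    -- the main term
    have g5 : 23 * κ ^ 2 * q / 1024 * (closedBall z δ).indicator f y
        ≤ 2 * max 0 (v + 3 * (κ * q) / 64) * (B + m y) * (1 - cP κ q a) := by
      by_cases hy' : y ∈ closedBall z δ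
      · rw [indicator_of_mem hy']
        rw [mem_closedBall, dist_eq_norm] at hy'
        have a1 := ds_near z hδ0 hy'
        have a2 : |uu κ ρ g x y - uu κ ρ g x z| ≤ 3 / 2 * len (y - z) := by
          unfold uu
          have b1 := h.lip y z
          have b2 := ds_lip x hρ y z
          have b3 : |κ / 2 * (ds x ρ y - ds x ρ z)| ≤ 1 / 2 * len (y - z) := by
            rw [abs_mul, abs_of_pos (show 0 < κ / 2 by positivity)]
            exact mul_le_mul (by linarith) b2 (abs_nonneg _) (by norm_num)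
          have b4 : g y - g x - κ / 2 * ds x ρ y - (g z - g x - κ / 2 * ds x ρ z)
              = (g y - g z) - κ / 2 * (ds x ρ y - ds x ρ z) := by ring
          rw [b4]
          have b5 := abs_sub (g y - g z) (κ / 2 * (ds x ρ y - ds x ρ z))
          linarith
        have a3 := len_le_norm (y - z)
        rw [hu, ← ha] at a2
        have a5 := abs_le.1 a2
        have a6 : κ * ds z δ y ≤ 2 * δ := by nlinarith
        have a8 : a ≤ κ * q / 64 := by linarith [a5.2]
        have a9 : 92 * δ ≤ v + 3 * (κ * q) / 64 := by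
          rw [hve]
          linarith [a5.1]
        rw [cP_zero hκ hq a8, sub_zero, mul_one, max_eq_right (by linarith)]
        have b1 : 2 * (92 * δ) * (κ / 4 * f y) ≤ 2 * (v + 3 * (κ * q) / 64) * (B + m y) := by
          apply mul_le_mul (by linarith) hV (mul_nonneg (by positivity) hf) (by linarith)
        have b2 : 2 * (92 * δ) * (κ / 4 * f y) = 23 * κ ^ 2 * q / 1024 * f y := by
          rw [hδ]
          ring
        linarith
      · rw [indicator_of_notMem hy', mul_zero]
        exact mul_nonneg (mul_nonneg (by positivity) hB0) (by linarith)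
    linear_combination g1 + g3 + g4 + g5

/-- VL-6. -/
theorem tfL (h : LF κ R x f m W g) (hκ : 0 < κ) (hκ1 : κ ≤ 1) (hρ : 0 < ρ) {s : ℝ} {z : V}
    (hr : 0 < r) (hrR : r ≤ R) (hρr : ρ ≤ r / 64) (hs1 : r / 64 ≤ s)
    (hs2 : s ≤ r / 32) (hz : ‖z - x‖ = s) (hu : uu κ ρ g x z = -(4 * (κ / 65536) * r)) :
    ∫ y in closedBall z (κ / 524288 * r), f y
      ≤ r / 512 * (AA κ ρ R g x W m r - AA κ ρ R g x W m (r / 256))
        + 1024 / κ * ∫ y in closedBall x r, m y := by
  obtain ⟨q, hq⟩ : ∃ q, q = r / 256 := ⟨_, rfl⟩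
  have hq0 : 0 < q := by rw [hq]; positivity
  have hrq : r = 256 * q := by rw [hq]; ring
  have e1 : κ / 524288 * r = κ * q / 2048 := by rw [hrq]; ring
  have hB := tfB h hκ hκ1 hρ hq0 hrq hrR (by linarith) (by linarith) (by linarith) hz
    (by rw [hu, hrq]; ring)
  have hA := tfA h hκ hρ hq0 (show q ≤ r / 2 by linarith) hrR
  rw [e1, ← hq]
  obtain ⟨I, hI⟩ : ∃ I, I = ∫ y in closedBall z (κ * q / 2048), f y := ⟨_, rfl⟩
  obtain ⟨D, hD⟩ : ∃ D, D = ∫ y in closedBall x R, dif κ ρ g x W m r q y := ⟨_, rfl⟩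
  obtain ⟨M, hM⟩ : ∃ M, M = ∫ y in closedBall x r, m y := ⟨_, rfl⟩
  obtain ⟨X, hX⟩ : ∃ X, X = AA κ ρ R g x W m r - AA κ ρ R g x W m q := ⟨_, rfl⟩
  rw [← hI, ← hD, ← hM] at hB
  rw [← hD, ← hM, ← hX] at hA
  rw [← hI, ← hM, ← hX]
  have hM0 : 0 ≤ M := by
    rw [hM]
    exact setIntegral_nonneg measurableSet_closedBall fun y _ => h.m0 y
  have hD0 : 0 ≤ D := by
    rw [hD]
    refine setIntegral_nonneg measurableSet_closedBall fun y hy => ?_
    have hA := uu_low h hκ.le hρ hy
    have hf := f_nn h hy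
    have hA0 := (mul_nonneg (show 0 ≤ κ / 2 by positivity) hf).trans hA
    have := cT_mono hκ hq0 (show q ≤ r by linarith) (ww κ ρ g x y)
    exact mul_nonneg (by linarith) (mul_nonneg (cP'_nn hκ hq0 _) hA0)
  -- divide
  have hc0 : 0 < 23 * κ ^ 2 * q / 1024 := by positivity
  have h1 : I ≤ 9 / 23 * q * D + 192 / (23 * κ) * M := by
    have h2 : 23 * κ ^ 2 * q / 1024 * (9 / 23 * q * D + 192 / (23 * κ) * M)
        = (3 * (κ * q) / 32) ^ 2 * D + 3 * (κ * q) / 16 * M := by
      field_simp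
      ring
    rw [← h2] at hB
    exact le_of_mul_le_mul_left hB hc0
  have h3 : 9 / 23 * q * D ≤ q / 2 * D := by
    have : 0 ≤ q * D := mul_nonneg hq0.le hD0
    linarith
  have h4 : q / 2 * D ≤ q / 2 * (X + 120 / (κ * q) * M) :=
    mul_le_mul_of_nonneg_left hA (by positivity)
  have h5 : q / 2 * (X + 120 / (κ * q) * M) = r / 512 * X + 60 / κ * M := by
    rw [hrq]
    field_simp
    ring
  have h6 : 192 / (23 * κ) * M ≤ 9 / κ * M := by
    apply mul_le_mul_of_nonneg_right _ hM0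
    rw [div_le_div_iff₀ (by positivity) hκ]
    linarith
  have h7 : 60 / κ * M + 9 / κ * M ≤ 1024 / κ * M := by
    have e : 1024 / κ * M - (60 / κ * M + 9 / κ * M) = 955 / κ * M := by ring
    have : 0 ≤ 955 / κ * M := by positivity
    linarith
  linarith

theorem tf : StmTF := fun _ _ _ _ _ _ _ _ _ _ _ hκ hκ1 hρ h hr hrR hρr hs1 hs2 hz hu =>
  tfL h hκ hκ1 hρ hr hrR hρr hs1 hs2 hz hu

end

end Pool.Agent.U481.VL
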